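import Pool.Agent.T2H32.TG.NT

set_option autoImplicit false

/-! # The sum of `1 / √(i (2 n - i))`, and the main term for the expected number of representations -/

open Filter Topology Finset

namespace Pool.Agent.T2H32.TG

open Pool.Agent.W93.PG (WinP cnt)
open Pool.Agent.H560R3.GB (sing)

/-- the density -/
noncomputable def ph (n : ℕ) (u : ℝ) : ℝ := 1 / √(u * (2 * n - u))

/-- its primitive -/
noncomputable def Fa (n : ℕ) (u : ℝ) : ℝ := Real.arccos (1 - u / n)

theorem ph_anti (n : ℕ) (u v : ℝ) (hu : 0 < u) (huv : u ≤ v) (hv : v ≤ n) : ph n v ≤ ph n u := by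
  unfold ph
  apply one_div_le_one_div_of_le
  · apply Real.sqrt_pos.2
    nlinarith
  · apply Real.sqrt_le_sqrt
    nlinarith

theorem Fa_deriv (n : ℕ) (u : ℝ) (hu : 0 < u) (hn : u < n) : HasDerivAt (Fa n) (ph n u) u := by
  have hn0 : (0 : ℝ) < n := hu.trans hn
  have h1 : 0 < u / n := by positivity
  have h2 : u / n < 1 := by rw [div_lt_one hn0]; exact hn
  have h3 : HasDerivAt (fun u : ℝ => 1 - u / n) (-(1 / n)) u := by
    have := ((hasDerivAt_id u).div_const (n : ℝ)).const_sub 1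
    simpa using this
  have h4 := (Real.hasDerivAt_arccos (x := 1 - u / n) (by linarith) (by linarith)).comp u h3
  refine h4.congr_deriv ?_
  unfold ph
  have h5 : 1 - (1 - u / n) ^ 2 = (u * (2 * n - u)) / (n : ℝ) ^ 2 := by
    field_simp
    ring
  rw [h5, Real.sqrt_div' _ (by positivity), Real.sqrt_sq hn0.le]
  have h6 : 0 < √(u * (2 * n - u)) := Real.sqrt_pos.2 (by nlinarith)
  field_simp

theorem Fa_cont (n : ℕ) : Continuous (Fa n) := by
  unfold Fa
  exact Real.continuous_arccos.comp (by fun_prop)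

theorem Fa_step (n i : ℕ) (hi : i + 1 ≤ n) :
    ph n ((i : ℝ) + 1) ≤ Fa n ((i : ℝ) + 1) - Fa n i ∧ (1 ≤ i → Fa n ((i : ℝ) + 1) - Fa n i ≤ ph n i) := by
  have hin : (i : ℝ) + 1 ≤ n := by exact_mod_cast hi
  have hi0 : (0 : ℝ) ≤ i := Nat.cast_nonneg i
  obtain ⟨c, hc, he⟩ := exists_hasDerivAt_eq_slope (Fa n) (ph n) (show (i : ℝ) < i + 1 by linarith)
    (Fa_cont n).continuousOn (fun x hx => Fa_deriv n x (by linarith [hx.1]) (by linarith [hx.2]))
  rw [show (i : ℝ) + 1 - i = 1 by ring, div_one] at he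
  rw [← he]
  refine ⟨ph_anti n c _ (by linarith [hc.1]) hc.2.le hin, fun h1 => ?_⟩
  have : (1 : ℝ) ≤ i := by exact_mod_cast h1
  exact ph_anti n i c (by linarith) hc.1.le (by linarith [hc.2])

theorem ph_sum (n y b : ℕ) (hyb : y ≤ b) : (b < n → Fa n ((b : ℝ) + 1) - Fa n ((y : ℝ) + 1) ≤ ∑ i ∈ Ioc y b, ph n i) ∧
    (b ≤ n → ∑ i ∈ Ioc y b, ph n i ≤ Fa n b - Fa n y) := by
  induction b, hyb using Nat.le_induction with
  | base => simp
  | succ b hb ih =>
    have e : Ioc y (b + 1) = insert (b + 1) (Ioc y b) := by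
      ext j
      simp only [mem_Ioc, mem_insert]
      omega
    have hn : b + 1 ∉ Ioc y b := by simp
    rw [e, sum_insert hn]
    constructor
    · intro h
      have a1 := ih.1 (by omega)
      have a2 := (Fa_step n (b + 1) (by omega)).2 (by omega)
      push_cast at a2 ⊢
      linarith
    · intro h
      have a1 := ih.2 (by omega)
      have a2 := (Fa_step n b (by omega)).1
      push_cast
      linarith

theorem ph_total (n y : ℕ) (hn : 1 ≤ n) (hy : y ≤ n - 1) :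
    Real.pi / 2 - Real.arccos (1 - ((y : ℝ) + 1) / n) ≤ ∑ i ∈ Ioc y (n - 1), ph n i ∧
    ∑ i ∈ Ioc y (n - 1), ph n i ≤ Real.pi / 2 := by
  have hnr : (1 : ℝ) ≤ n := by exact_mod_cast hn
  have hc : ((n - 1 : ℕ) : ℝ) = n - 1 := by rw [Nat.cast_sub hn]; simp
  obtain ⟨h1, h2⟩ := ph_sum n y (n - 1) hy
  constructor
  · have := h1 (by omega)
    rw [hc] at this
    have e : Fa n ((n : ℝ) - 1 + 1) = Real.pi / 2 := by
      unfold Fa
      rw [sub_add_cancel, div_self (by linarith), sub_self, Real.arccos_zero]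
    rw [e] at this
    exact this
  · refine (h2 (by omega)).trans ?_
    rw [hc]
    have a1 : 0 ≤ Fa n y := Real.arccos_nonneg _
    have a2 : Fa n ((n : ℝ) - 1) ≤ Real.pi / 2 := by
      unfold Fa
      rw [← Real.arccos_zero]
      apply Real.arccos_le_arccos
      rw [sub_nonneg, div_le_one (by linarith)]
      linarith
    linarith

/-- the sum over the pairs in a window -/
theorem pair_sum (n y : ℕ) (ε : ℝ) (hε : 0 ≤ ε) (hy : 1 ≤ y) (hyn : y + 1 ≤ n - 1)
    (hwin : ∀ z : ℕ, y ≤ z → z ≤ n - 1 →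
      |(cnt (2 * n) 0 z : ℝ) - sing (2 * n) * z / Real.log ((2 * n : ℕ) : ℝ) ^ 2| ≤
        ε * (sing (2 * n) * z / Real.log ((2 * n : ℕ) : ℝ) ^ 2)) :
    |∑ i ∈ Ioc y (n - 1), (if IP (2 * n) i then ph n i else 0) -
      sing (2 * n) / Real.log ((2 * n : ℕ) : ℝ) ^ 2 * ∑ i ∈ Ioc y (n - 1), ph n i| ≤
      2 * ε * (sing (2 * n) / Real.log ((2 * n : ℕ) : ℝ) ^ 2) * (n / √((y : ℝ) * n)) := by
  classical
  obtain ⟨κ, hκ⟩ : ∃ κ, κ = sing (2 * n) / Real.log ((2 * n : ℕ) : ℝ) ^ 2 := ⟨_, rfl⟩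
  have hs := Pool.Agent.W93.GB.one_le_sing (2 * n)
  have hκ0 : 0 ≤ κ := by rw [hκ]; positivity
  have hnr : (3 : ℝ) ≤ n := by exact_mod_cast (by omega : 3 ≤ n)
  have hyr : (1 : ℝ) ≤ y := by exact_mod_cast hy
  have hc : ((n - 1 : ℕ) : ℝ) = n - 1 := by rw [Nat.cast_sub (by omega)]; simp
  have hw : ∀ z : ℕ, y ≤ z → z ≤ n - 1 → |(cnt (2 * n) 0 z : ℝ) - κ * z| ≤ ε * κ * z := by
    intro z h1 h2
    have := hwin z h1 h2
    have e : sing (2 * n) * z / Real.log ((2 * n : ℕ) : ℝ) ^ 2 = κ * z := by rw [hκ]; ring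
    rw [e] at this
    rw [mul_assoc]
    exact this
  have hcnt : ∀ z : ℕ, y ≤ z → z ≤ n - 1 → ∑ i ∈ Ioc y z, (if IP (2 * n) i then (1 : ℝ) else 0) = (cnt (2 * n) 0 z : ℝ) - cnt (2 * n) 0 y := by
    intro z h1 h2
    have e1 : ∀ w : ℕ, w ≤ n - 1 → (cnt (2 * n) 0 w : ℝ) = ∑ i ∈ Ioc 0 w, (if IP (2 * n) i then (1 : ℝ) else 0) := by
      intro w hw
      unfold cnt
      rw [← sum_filter, sum_const, nsmul_eq_mul, mul_one]
      congr 2
      apply filter_congr
      intro i hi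
      rw [mem_Ioc] at hi
      unfold IP
      constructor
      · rintro ⟨a, b⟩
        exact ⟨a, b, by omega⟩
      · rintro ⟨a, b, _⟩
        exact ⟨a, b⟩
    rw [e1 z h2, e1 y (by omega), eq_sub_iff_add_eq]
    have e2 : Ioc 0 z = Ioc y z ∪ Ioc 0 y := by
      ext j
      simp only [mem_Ioc, mem_union]
      omega
    have hd : Disjoint (Ioc y z) (Ioc 0 y) := by
      rw [disjoint_left]
      intro j h1 h2
      rw [mem_Ioc] at h1 h2
      omega
    rw [e2, sum_union hd]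
  have hab := abel (fun i => (if IP (2 * n) i then (1 : ℝ) else 0) - κ) (fun i => ph n i) y 0 (2 * ε * κ * n) (n - 1)
    (by omega) (fun i h1 h2 => by
      have := ph_anti n i ((i + 1 : ℕ) : ℝ) (by exact_mod_cast (by omega : 0 < i)) (by push_cast; linarith) (by exact_mod_cast (by omega : i + 1 ≤ n))
      exact this) (fun i h1 h2 => by unfold ph; positivity) (fun z h1 h2 => by
      rw [sum_sub_distrib, hcnt z h1.le h2, sum_const, Nat.card_Ioc, nsmul_eq_mul, Nat.cast_sub h1.le, zero_mul, zero_add]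
      have a1 := hw z h1.le h2
      have a2 := hw y le_rfl (by omega)
      have e : (cnt (2 * n) 0 z : ℝ) - cnt (2 * n) 0 y - ((z : ℝ) - y) * κ =
          ((cnt (2 * n) 0 z : ℝ) - κ * z) - ((cnt (2 * n) 0 y : ℝ) - κ * y) := by ring
      rw [e]
      refine (abs_sub _ _).trans ?_
      have hzn : (z : ℝ) ≤ n := by exact_mod_cast (by omega : z ≤ n)
      have hyn' : (y : ℝ) ≤ n := by exact_mod_cast (by omega : y ≤ n)
      have b1 : ε * κ * z ≤ ε * κ * n := mul_le_mul_of_nonneg_left hzn (by positivity)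
      have b2 : ε * κ * y ≤ ε * κ * n := mul_le_mul_of_nonneg_left hyn' (by positivity)
      linarith)
  rw [zero_mul, zero_add] at hab
  have e1 : ∑ i ∈ Ioc y (n - 1), ((if IP (2 * n) i then (1 : ℝ) else 0) - κ) * ph n i =
      ∑ i ∈ Ioc y (n - 1), (if IP (2 * n) i then ph n i else 0) - κ * ∑ i ∈ Ioc y (n - 1), ph n i := by
    rw [mul_sum, ← sum_sub_distrib]
    refine sum_congr rfl fun i _ => ?_
    split_ifs <;> ring
  rw [e1] at hab
  rw [← hκ]
  refine hab.trans ?_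
  have e2 : ph n ((y + 1 : ℕ) : ℝ) ≤ 1 / √((y : ℝ) * n) := by
    unfold ph
    apply one_div_le_one_div_of_le
    · apply Real.sqrt_pos.2
      positivity
    · apply Real.sqrt_le_sqrt
      have : ((y + 1 : ℕ) : ℝ) ≤ n := by exact_mod_cast (by omega : y + 1 ≤ n)
      push_cast at this ⊢
      nlinarith
  calc 2 * ε * κ * n * ph n ((y + 1 : ℕ) : ℝ) ≤ 2 * ε * κ * n * (1 / √((y : ℝ) * n)) :=
        mul_le_mul_of_nonneg_left e2 (by positivity)
    _ = 2 * ε * κ * (n / √((y : ℝ) * n)) := by ring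

end Pool.Agent.T2H32.TG
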