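import Pool.Agent.T2H32.TG.ES

set_option autoImplicit false

/-! # From independent events to random finite sets -/

open MeasureTheory ProbabilityTheory Filter Topology Finset
open scoped ENNReal

namespace Pool.Agent.T2H32.TG

variable {Ω : Type*}

open Classical in
/-- the indices below `N` of the events that occur -/
noncomputable def pick (A : ℕ → Set Ω) (N : ℕ) (ω : Ω) : Finset ℕ := (range N).filter (fun k => ω ∈ A k)

theorem mem_pick (A : ℕ → Set Ω) (N : ℕ) (ω : Ω) (k : ℕ) : k ∈ pick A N ω ↔ k < N ∧ ω ∈ A k := by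
  classical
  unfold pick
  rw [mem_filter, mem_range]

theorem pick_sub (A : ℕ → Set Ω) (N : ℕ) (ω : Ω) : pick A N ω ⊆ range N := by
  classical
  exact filter_subset _ _

/-- the weight of a set -/
noncomputable def wt (α : ℕ → ℝ) (N : ℕ) (T : Finset ℕ) : ℝ := ∏ i ∈ range N, (if i ∈ T then α i else 1 - α i)

theorem Ex_eq (α : ℕ → ℝ) (N : ℕ) : ∀ f : Finset ℕ → ℝ, Ex α N f = ∑ T ∈ (range N).powerset, wt α N T * f T := by
  induction N with
  | zero =>
    intro f
    rw [Ex_zero, range_zero, powerset_empty, sum_singleton, wt, range_zero, prod_empty, one_mul]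
  | succ N ih =>
    intro f
    rw [Ex_succ, ih, ih, range_add_one, sum_powerset_insert notMem_range_self, mul_sum, mul_sum, add_comm]
    congr 1
    · refine sum_congr rfl fun T hT => ?_
      have hN : N ∉ T := fun h => notMem_range_self (mem_powerset.1 hT h)
      rw [wt, wt, prod_range_succ, if_neg hN]
      ring
    · refine sum_congr rfl fun T hT => ?_
      have hN : N ∉ T := fun h => notMem_range_self (mem_powerset.1 hT h)
      rw [wt, wt, prod_range_succ, if_pos (mem_insert_self N T)]
      have : ∏ i ∈ range N, (if i ∈ insert N T then α i else 1 - α i) =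
          ∏ i ∈ range N, (if i ∈ T then α i else 1 - α i) := by
        refine prod_congr rfl fun i hi => ?_
        have : i ≠ N := (mem_range.1 hi).ne
        simp only [mem_insert, this, false_or]
      rw [this]
      ring

variable [MeasurableSpace Ω] {P : Measure Ω}

theorem real_pick [IsProbabilityMeasure P] (A : ℕ → Set Ω) (hA : ∀ k, MeasurableSet (A k))
    (hind : iIndepSet A P) (N : ℕ) (T : Finset ℕ) (hT : T ⊆ range N) :
    MeasurableSet {ω | pick A N ω = T} ∧ P.real {ω | pick A N ω = T} = wt (fun i => P.real (A i)) N T := by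
  classical
  set B : ℕ → Set Ω := fun i => if i ∈ T then A i else (A i)ᶜ with hB
  have e : {ω | pick A N ω = T} = ⋂ i ∈ range N, B i := by
    ext ω
    simp only [Set.mem_ofPred_eq, Set.mem_iInter, hB]
    constructor
    · intro h i hi
      split_ifs with h1
      · rw [← h, mem_pick] at h1
        exact h1.2
      · intro h2
        apply h1
        rw [← h, mem_pick]
        exact ⟨mem_range.1 hi, h2⟩
    · intro h
      ext i
      rw [mem_pick]
      constructor
      · rintro ⟨h1, h2⟩
        by_contra h3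
        have := h i (mem_range.2 h1)
        rw [if_neg h3] at this
        exact this h2
      · intro h3
        have h4 := hT h3
        have := h i h4
        rw [if_pos h3] at this
        exact ⟨mem_range.1 h4, this⟩
  have hBm : ∀ i, MeasurableSet (B i) := by
    intro i
    simp only [hB]
    split_ifs
    · exact hA i
    · exact (hA i).compl
  have hgen : ∀ i, @MeasurableSet _ (MeasurableSpace.generateFrom {A i}) (B i) := by
    intro i
    have h : @MeasurableSet _ (MeasurableSpace.generateFrom {A i}) (A i) :=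
      MeasurableSpace.measurableSet_generateFrom rfl
    simp only [hB]
    split_ifs
    · exact h
    · exact h.compl
  rw [e]
  refine ⟨Finset.measurableSet_biInter _ fun i _ => hBm i, ?_⟩
  have h := (iIndepSet_iff A P).1 hind (range N) (f := B) (fun i _ => hgen i)
  rw [measureReal_def, h, ENNReal.toReal_prod, wt]
  refine prod_congr rfl fun i _ => ?_
  simp only [hB]
  split_ifs
  · rfl
  · rw [← measureReal_def, probReal_compl_eq_one_sub (hA i)]

/-- the distribution of the random set -/
theorem integral_pick [IsProbabilityMeasure P] (A : ℕ → Set Ω) (hA : ∀ k, MeasurableSet (A k))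
    (hind : iIndepSet A P) (N : ℕ) (f : Finset ℕ → ℝ) :
    Integrable (fun ω => f (pick A N ω)) P ∧
    ∫ ω, f (pick A N ω) ∂P = Ex (fun i => P.real (A i)) N f := by
  classical
  have e : (fun ω => f (pick A N ω)) = fun ω => ∑ T ∈ (range N).powerset,
      Set.indicator {ω | pick A N ω = T} (fun _ => f T) ω := by
    funext ω
    rw [sum_eq_single_of_mem (pick A N ω) (mem_powerset.2 (pick_sub A N ω))]
    · rw [Set.indicator_of_mem]
      rfl
    · intro T _ hT
      rw [Set.indicator_of_notMem]
      intro h
      exact hT h.symm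
  have hi : ∀ T ∈ (range N).powerset, Integrable (Set.indicator {ω | pick A N ω = T} (fun _ => f T)) P :=
    fun T hT => (integrable_const (f T)).indicator (real_pick A hA hind N T (mem_powerset.1 hT)).1
  rw [e]
  refine ⟨integrable_finsetSum _ hi, ?_⟩
  rw [integral_finsetSum _ hi, Ex_eq]
  refine sum_congr rfl fun T hT => ?_
  obtain ⟨h1, h2⟩ := real_pick A hA hind N T (mem_powerset.1 hT)
  rw [integral_indicator_const _ h1, h2, smul_eq_mul]

theorem measurable_pick [IsProbabilityMeasure P] (A : ℕ → Set Ω) (hA : ∀ k, MeasurableSet (A k))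
    (hind : iIndepSet A P) (N : ℕ) (Z : Finset ℕ → Prop) : MeasurableSet {ω | Z (pick A N ω)} := by
  classical
  have e : {ω | Z (pick A N ω)} = ⋃ T ∈ (range N).powerset.filter Z, {ω | pick A N ω = T} := by
    ext ω
    simp only [Set.mem_ofPred_eq, Set.mem_iUnion, mem_filter, mem_powerset]
    constructor
    · intro h
      exact ⟨_, ⟨pick_sub A N ω, h⟩, rfl⟩
    · rintro ⟨T, ⟨_, h⟩, rfl⟩
      exact h
  rw [e]
  exact Finset.measurableSet_biUnion _ fun T hT =>
    (real_pick A hA hind N T (mem_powerset.1 (mem_filter.1 hT).1)).1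

open Classical in
theorem real_prop [IsProbabilityMeasure P] (A : ℕ → Set Ω) (hA : ∀ k, MeasurableSet (A k))
    (hind : iIndepSet A P) (N : ℕ) (Z : Finset ℕ → Prop) :
    P.real {ω | Z (pick A N ω)} = Ex (fun i => P.real (A i)) N (fun T => if Z T then 1 else 0) := by
  have h := (integral_pick A hA hind N (fun T => if Z T then (1 : ℝ) else 0)).2
  rw [← h]
  have e : (fun ω => if Z (pick A N ω) then (1 : ℝ) else 0) = Set.indicator {ω | Z (pick A N ω)} (fun _ => 1) := by
    funext ω
    simp only [Set.indicator, Set.mem_ofPred_eq]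
  rw [e, integral_indicator_const _ (measurable_pick A hA hind N Z), smul_eq_mul, mul_one]

/-- Chebyshev -/
theorem cheb [IsProbabilityMeasure P] (A : ℕ → Set Ω) (hA : ∀ k, MeasurableSet (A k))
    (hind : iIndepSet A P) (N : ℕ) (f G : Finset ℕ → ℝ) (hf : ∀ T i, |f (insert i T) - f T| ≤ G T)
    (hG0 : ∀ T, 0 ≤ G T) (hG : ∀ T i, G T ≤ G (insert i T)) (d : ℝ) (hd : 0 < d) :
    P.real {ω | d ≤ |f (pick A N ω) - Ex (fun i => P.real (A i)) N f|} ≤
      (∑ i ∈ range N, P.real (A i)) * Ex (fun i => P.real (A i)) N (fun T => G T ^ 2) / d ^ 2 := by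
  classical
  obtain ⟨E, hE⟩ : ∃ E, E = Ex (fun i => P.real (A i)) N f := ⟨_, rfl⟩
  have h0 : ∀ i, 0 ≤ P.real (A i) := fun i => measureReal_nonneg
  have h1 : ∀ i, P.real (A i) ≤ 1 := fun i => measureReal_le_one
  have a1 := real_prop A hA hind N (fun T => d ≤ |f T - E|)
  rw [← hE, a1, le_div_iff₀ (by positivity)]
  have a2 : Ex (fun i => P.real (A i)) N (fun T => if d ≤ |f T - E| then (1 : ℝ) else 0) * d ^ 2 ≤
      Ex (fun i => P.real (A i)) N (fun T => (f T - E) ^ 2) := by
    rw [mul_comm, ← Ex_mul]
    apply Ex_mono h0 h1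
    intro T _
    split_ifs with h
    · rw [mul_one, ← sq_abs (f T - E)]
      exact pow_le_pow_left₀ hd.le h 2
    · rw [mul_zero]
      exact sq_nonneg _
  have a3 : Ex (fun i => P.real (A i)) N (fun T => (f T - E) ^ 2) =
      Ex (fun i => P.real (A i)) N (fun T => f T ^ 2) - Ex (fun i => P.real (A i)) N f ^ 2 := by
    have b1 : (fun T : Finset ℕ => (f T - E) ^ 2) = fun T => f T ^ 2 + ((-2 * E) * f T + E ^ 2) := by
      funext T
      ring
    rw [b1, Ex_add N (fun T => f T ^ 2) (fun T => (-2 * E) * f T + E ^ 2), Ex_add N (fun T => (-2 * E) * f T) (fun _ => E ^ 2),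
      Ex_mul, Ex_const, ← hE]
    ring
  rw [a3] at a2
  exact a2.trans (efron_stein h0 h1 N f G hf hG0 hG)

end Pool.Agent.T2H32.TG
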