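import Pool.Agent.T2H32.TG.Pois

set_option autoImplicit false

/-! # The numbers of representations by a random set of primes: concentration of the counting function -/

open MeasureTheory ProbabilityTheory Filter Topology Finset
open scoped ENNReal

namespace Pool.Agent.T2H32.TG

/-- the number of representations of `m` as `p + q` with `p ≤ q` primes of `T` -/
def rT (T : Finset ℕ) (m : ℕ) : ℕ :=
  ((Icc 1 (m / 2)).filter (fun p => p.Prime ∧ (m - p).Prime ∧ p ∈ T ∧ m - p ∈ T)).card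

theorem rT_insert (T : Finset ℕ) (i m : ℕ) (h : rT (insert i T) m ≠ rT T m) : i ≤ m ∧ m - i ∈ insert i T := by
  by_contra hcon
  apply h
  unfold rT
  congr 1
  apply filter_congr
  intro p hp
  rw [mem_Icc] at hp
  constructor
  · rintro ⟨h1, h2, h3, h4⟩
    have hpi : p ≠ i := by
      rintro rfl
      exact hcon ⟨by omega, h4⟩
    have hqi : m - p ≠ i := by
      intro hq
      apply hcon
      refine ⟨by omega, ?_⟩
      have : m - i = p := by omega
      rw [this]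
      exact h3
    exact ⟨h1, h2, (mem_insert.1 h3).resolve_left hpi, (mem_insert.1 h4).resolve_left hqi⟩
  · rintro ⟨h1, h2, h3, h4⟩
    exact ⟨h1, h2, mem_insert_of_mem h3, mem_insert_of_mem h4⟩

/-- the number of `n ≤ x` for which `2 n` has exactly `k` representations -/
def F (k x : ℕ) (T : Finset ℕ) : ℕ := ((Icc 1 x).filter (fun n => rT T (2 * n) = k)).card

theorem F_insert (k x : ℕ) (T : Finset ℕ) (i : ℕ) : |(F k x (insert i T) : ℝ) - F k x T| ≤ T.card + 1 := by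
  classical
  set D : Finset ℕ := (Icc 1 x).filter (fun n => rT (insert i T) (2 * n) ≠ rT T (2 * n)) with hD
  have hDc : D.card ≤ T.card + 1 := by
    refine le_trans ?_ (card_insert_le i T)
    apply card_le_card_of_injOn (fun n => 2 * n - i)
    · intro n hn
      have h1 := (mem_filter.1 hn).2
      exact (rT_insert T i (2 * n) h1).2
    · intro n hn n' hn' he
      have h1 := rT_insert T i (2 * n) (mem_filter.1 hn).2
      have h2 := rT_insert T i (2 * n') (mem_filter.1 hn').2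
      simp only at he
      omega
  have key : ∀ S S' : Finset ℕ, (∀ n ∈ Icc 1 x, n ∉ D → (rT S (2 * n) = k → rT S' (2 * n) = k)) →
      F k x S ≤ F k x S' + D.card := by
    intro S S' h
    unfold F
    refine (card_le_card (t := (Icc 1 x).filter (fun n => rT S' (2 * n) = k) ∪ D) ?_).trans (card_union_le _ _)
    intro n hn
    rw [mem_filter] at hn
    rw [mem_union, mem_filter]
    by_cases hnD : n ∈ D
    · exact Or.inr hnD
    · exact Or.inl ⟨hn.1, h n hn.1 hnD hn.2⟩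
  have hD' : ∀ n ∈ Icc 1 x, n ∉ D → rT (insert i T) (2 * n) = rT T (2 * n) := by
    intro n hn hnD
    by_contra h
    exact hnD (mem_filter.2 ⟨hn, h⟩)
  have k1 := key (insert i T) T (fun n hn hnD h => by rw [← hD' n hn hnD]; exact h)
  have k2 := key T (insert i T) (fun n hn hnD h => by rw [hD' n hn hnD]; exact h)
  have k1' : (F k x (insert i T) : ℝ) ≤ F k x T + D.card := by exact_mod_cast k1
  have k2' : (F k x T : ℝ) ≤ F k x (insert i T) + D.card := by exact_mod_cast k2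
  have k3 : (D.card : ℝ) ≤ T.card + 1 := by exact_mod_cast hDc
  rw [abs_le]
  constructor <;> linarith

variable {Ω : Type*}

open Classical in
/-- the number of representations of `m` by the random set of primes -/
noncomputable def R (A : ℕ → Set Ω) (ω : Ω) (m : ℕ) : ℕ :=
  ((Icc 1 (m / 2)).filter (fun p => p.Prime ∧ (m - p).Prime ∧ ω ∈ A p ∧ ω ∈ A (m - p))).card

theorem rT_pick (A : ℕ → Set Ω) (ω : Ω) (m N : ℕ) (hN : m < N) : rT (pick A N ω) m = R A ω m := by
  classical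
  unfold rT R
  congr 1
  apply filter_congr
  intro p hp
  rw [mem_Icc] at hp
  rw [mem_pick, mem_pick]
  constructor
  · rintro ⟨h1, h2, h3, h4⟩
    exact ⟨h1, h2, h3.2, h4.2⟩
  · rintro ⟨h1, h2, h3, h4⟩
    exact ⟨h1, h2, ⟨by omega, h3⟩, ⟨by omega, h4⟩⟩

open Classical in
/-- the number of `n ≤ x` for which `2 n` has exactly `k` representations -/
noncomputable def Nk (A : ℕ → Set Ω) (ω : Ω) (k x : ℕ) : ℕ := ((Icc 1 x).filter (fun n => R A ω (2 * n) = k)).card

theorem F_pick (A : ℕ → Set Ω) (ω : Ω) (k x N : ℕ) (hN : 2 * x < N) : F k x (pick A N ω) = Nk A ω k x := by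
  classical
  unfold F Nk
  congr 1
  apply filter_congr
  intro n hn
  rw [mem_Icc] at hn
  rw [rT_pick A ω (2 * n) N (by omega)]

theorem Nk_mono (A : ℕ → Set Ω) (ω : Ω) (k x y : ℕ) (h : x ≤ y) : Nk A ω k x ≤ Nk A ω k y := by
  classical
  unfold Nk
  apply card_le_card
  apply filter_subset_filter
  exact Icc_subset_Icc_right h

theorem Nk_le (A : ℕ → Set Ω) (ω : Ω) (k x y : ℕ) (h : x ≤ y) : Nk A ω k y ≤ Nk A ω k x + (y - x) := by
  classical
  unfold Nk
  have e : Icc 1 y = Icc 1 x ∪ Ioc x y := by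
    ext n
    simp only [mem_Icc, mem_union, mem_Ioc]
    omega
  rw [e, filter_union]
  refine (card_union_le _ _).trans ?_
  gcongr
  refine (card_filter_le _ _).trans ?_
  rw [Nat.card_Ioc]

variable [MeasurableSpace Ω] {P : Measure Ω}

theorem measurable_R [IsProbabilityMeasure P] (A : ℕ → Set Ω) (hA : ∀ k, MeasurableSet (A k))
    (hind : iIndepSet A P) (m k : ℕ) : MeasurableSet {ω | R A ω m = k} := by
  have := measurable_pick (P := P) A hA hind (m + 1) (fun T => rT T m = k)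
  have e : {ω | rT (pick A (m + 1) ω) m = k} = {ω | R A ω m = k} := by
    ext ω
    simp only [Set.mem_ofPred_eq]
    rw [rT_pick A ω m (m + 1) (by omega)]
  rwa [e] at this

theorem Ex_F [IsProbabilityMeasure P] (A : ℕ → Set Ω) (hA : ∀ k, MeasurableSet (A k))
    (hind : iIndepSet A P) (k x N : ℕ) (hN : 2 * x < N) :
    Ex (fun i => P.real (A i)) N (fun T => (F k x T : ℝ)) = ∑ n ∈ Icc 1 x, P.real {ω | R A ω (2 * n) = k} := by
  classical
  have e : (fun T => (F k x T : ℝ)) = fun T => ∑ n ∈ Icc 1 x, (if rT T (2 * n) = k then (1 : ℝ) else 0) := by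
    funext T
    unfold F
    rw [card_filter]
    push_cast
    rfl
  rw [e, Ex_sum]
  refine sum_congr rfl fun n hn => ?_
  rw [mem_Icc] at hn
  have h1 := real_prop (P := P) A hA hind N (fun T => rT T (2 * n) = k)
  have e2 : {ω | rT (pick A N ω) (2 * n) = k} = {ω | R A ω (2 * n) = k} := by
    ext ω
    simp only [Set.mem_ofPred_eq]
    rw [rT_pick A ω (2 * n) N (by omega)]
  rw [e2] at h1
  rw [h1]
  congr 1
  funext T
  split_ifs <;> rfl

theorem cheb_Nk [IsProbabilityMeasure P] (A : ℕ → Set Ω) (hA : ∀ k, MeasurableSet (A k))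
    (hind : iIndepSet A P) (k x : ℕ) (d : ℝ) (hd : 0 < d) :
    P.real {ω | d ≤ |(Nk A ω k x : ℝ) - ∑ n ∈ Icc 1 x, P.real {ω | R A ω (2 * n) = k}|} ≤
      ((∑ i ∈ range (2 * x + 1), P.real (A i)) + 2) ^ 3 / d ^ 2 := by
  have h0 : ∀ i, 0 ≤ P.real (A i) := fun i => measureReal_nonneg
  have h1 : ∀ i, P.real (A i) ≤ 1 := fun i => measureReal_le_one
  have a1 := cheb (P := P) A hA hind (2 * x + 1) (fun T => (F k x T : ℝ)) (fun T => (T.card : ℝ) + 1)
    (fun T i => F_insert k x T i) (fun T => by positivity)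
    (fun T i => by
      have : (T.card : ℝ) ≤ (insert i T).card := by exact_mod_cast card_le_card (subset_insert i T)
      linarith) d hd
  rw [Ex_F A hA hind k x (2 * x + 1) (by omega)] at a1
  have e : {ω | d ≤ |(F k x (pick A (2 * x + 1) ω) : ℝ) - ∑ n ∈ Icc 1 x, P.real {ω | R A ω (2 * n) = k}|} =
      {ω | d ≤ |(Nk A ω k x : ℝ) - ∑ n ∈ Icc 1 x, P.real {ω | R A ω (2 * n) = k}|} := by
    ext ω
    simp only [Set.mem_ofPred_eq]
    rw [F_pick A ω k x (2 * x + 1) (by omega)]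
  rw [e] at a1
  refine a1.trans (div_le_div_of_nonneg_right ?_ (by positivity))
  have a2 := Ex_card h0 h1 (2 * x + 1) 1 zero_le_one
  obtain ⟨M, hM⟩ : ∃ M, M = ∑ i ∈ range (2 * x + 1), P.real (A i) := ⟨_, rfl⟩
  rw [← hM] at a2 ⊢
  have hM0 : 0 ≤ M := by rw [hM]; exact sum_nonneg fun i _ => h0 i
  calc M * Ex (fun i => P.real (A i)) (2 * x + 1) (fun T => ((T.card : ℝ) + 1) ^ 2) ≤ M * ((M + 1) ^ 2 + M) :=
        mul_le_mul_of_nonneg_left a2 hM0
    _ ≤ (M + 2) ^ 3 := by nlinarith [sq_nonneg M, mul_nonneg hM0 hM0]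

/-- **Concentration for all large `x`.** -/
theorem as_Nk [IsProbabilityMeasure P] (A : ℕ → Set Ω) (hA : ∀ k, MeasurableSet (A k))
    (hind : iIndepSet A P) (k : ℕ)
    (hM : ∀ᶠ x : ℕ in atTop, ((∑ i ∈ range (2 * x + 1), P.real (A i)) + 2) ^ 3 ≤ (x : ℝ) ^ (8 / 5 : ℝ)) :
    ∀ᵐ ω ∂P, ∀ᶠ x : ℕ in atTop,
      |(Nk A ω k x : ℝ) - ∑ n ∈ Icc 1 x, P.real {ω | R A ω (2 * n) = k}| ≤ 31 * (x : ℝ) ^ (19 / 20 : ℝ) := by
  obtain ⟨E, hE⟩ : ∃ E : ℕ → ℝ, E = fun x => ∑ n ∈ Icc 1 x, P.real {ω | R A ω (2 * n) = k} := ⟨_, rfl⟩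
  have hEx : ∀ x, ∑ n ∈ Icc 1 x, P.real {ω | R A ω (2 * n) = k} = E x := fun x => by rw [hE]
  simp only [hEx]
  have hEmono : ∀ x y, x ≤ y → E x ≤ E y := by
    intro x y hxy
    rw [hE]
    exact sum_le_sum_of_subset_of_nonneg (Icc_subset_Icc_right hxy) fun _ _ _ => measureReal_nonneg
  have hEle : ∀ x y, x ≤ y → E y ≤ E x + ((y - x : ℕ) : ℝ) := by
    intro x y hxy
    rw [hE]
    have e : Icc 1 y = Icc 1 x ∪ Ioc x y := by
      ext n
      simp only [mem_Icc, mem_union, mem_Ioc]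
      omega
    have hd : Disjoint (Icc 1 x) (Ioc x y) := by
      rw [disjoint_left]
      intro n h1 h2
      rw [mem_Icc] at h1
      rw [mem_Ioc] at h2
      omega
    simp only [e]
    rw [sum_union hd]
    have : ∑ n ∈ Ioc x y, P.real {ω | R A ω (2 * n) = k} ≤ ∑ n ∈ Ioc x y, 1 :=
      sum_le_sum fun _ _ => measureReal_le_one
    rw [sum_const, Nat.card_Ioc, nsmul_eq_mul, mul_one] at this
    linarith
  -- along fourth powers
  have hBC : ∀ᵐ ω ∂P, ∀ᶠ j : ℕ in atTop, |(Nk A ω k (j ^ 4) : ℝ) - E (j ^ 4)| < (j : ℝ) ^ (19 / 5 : ℝ) := by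
    obtain ⟨J, hJ⟩ := eventually_atTop.1 hM
    have hsum : ∑' j : ℕ, P {ω | (j : ℝ) ^ (19 / 5 : ℝ) ≤ |(Nk A ω k (j ^ 4) : ℝ) - E (j ^ 4)|} ≠ ∞ := by
      have hb : ∀ j : ℕ, P {ω | (j : ℝ) ^ (19 / 5 : ℝ) ≤ |(Nk A ω k (j ^ 4) : ℝ) - E (j ^ 4)|} ≤
          ENNReal.ofReal (if j ≤ J then 1 else 1 / (j : ℝ) ^ (6 / 5 : ℝ)) := by
        intro j
        by_cases hj : j ≤ J
        · rw [if_pos hj, ENNReal.ofReal_one]
          exact prob_le_one
        · rw [if_neg hj]
          push Not at hj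
          have hj0 : (0 : ℝ) < j := by exact_mod_cast (by omega : 0 < j)
          have h1 := cheb_Nk (P := P) A hA hind k (j ^ 4) ((j : ℝ) ^ (19 / 5 : ℝ)) (by positivity)
          rw [hEx] at h1
          have h2 := hJ (j ^ 4) (hj.le.trans (Nat.le_self_pow (by norm_num) j))
          have h3 : ((j ^ 4 : ℕ) : ℝ) ^ (8 / 5 : ℝ) = (j : ℝ) ^ (32 / 5 : ℝ) := by
            push_cast
            rw [← Real.rpow_natCast, ← Real.rpow_mul hj0.le]
            norm_num
          have h4 : ((j : ℝ) ^ (19 / 5 : ℝ)) ^ 2 = (j : ℝ) ^ (38 / 5 : ℝ) := by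
            rw [← Real.rpow_natCast, ← Real.rpow_mul hj0.le]
            norm_num
          rw [h3] at h2
          rw [h4] at h1
          have h5 : P.real {ω | (j : ℝ) ^ (19 / 5 : ℝ) ≤ |(Nk A ω k (j ^ 4) : ℝ) - E (j ^ 4)|} ≤ 1 / (j : ℝ) ^ (6 / 5 : ℝ) := by
            refine h1.trans ((div_le_div_of_nonneg_right h2 (by positivity)).trans (le_of_eq ?_))
            rw [div_eq_div_iff (by positivity) (by positivity), ← Real.rpow_add hj0, one_mul]
            norm_num
          rw [← ofReal_measureReal]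
          exact ENNReal.ofReal_le_ofReal h5
      refine ne_top_of_le_ne_top ?_ (ENNReal.tsum_le_tsum hb)
      have hs : Summable (fun j : ℕ => if j ≤ J then (1 : ℝ) else 1 / (j : ℝ) ^ (6 / 5 : ℝ)) := by
        have h3 : Summable (fun j : ℕ => 1 / (j : ℝ) ^ (6 / 5 : ℝ)) := Real.summable_one_div_nat_rpow.2 (by norm_num)
        refine (summable_congr_cofinite ?_).2 h3
        rw [Filter.EventuallyEq, Filter.eventually_cofinite]
        refine (Set.finite_Iic J).subset fun j hj => ?_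
        by_contra h
        exact hj (if_neg h)
      exact hs.tsum_ofReal_ne_top
    have h4 := measure_limsup_atTop_eq_zero hsum
    rw [limsup_eq_iInf_iSup_of_nat] at h4
    have h5 := measure_eq_zero_iff_ae_notMem.1 h4
    filter_upwards [h5] with ω hω
    simp only [Set.iInf_eq_iInter, Set.iSup_eq_iUnion, Set.mem_iInter, Set.mem_iUnion,
      Set.mem_ofPred_eq, not_forall, not_exists, not_le] at hω
    obtain ⟨n, hn⟩ := hω
    exact eventually_atTop.2 ⟨n, fun j hj => hn j hj⟩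
  filter_upwards [hBC] with ω hω
  obtain ⟨J, hJ⟩ := eventually_atTop.1 hω
  refine eventually_atTop.2 ⟨(J + 1) ^ 4, fun x hx => ?_⟩
  -- the index
  obtain ⟨j, hj1, hj2⟩ : ∃ j : ℕ, j ^ 4 ≤ x ∧ x < (j + 1) ^ 4 := by
    have hne : ∃ i : ℕ, x < i ^ 4 := ⟨x + 1, by
      calc x < x + 1 := Nat.lt_succ_self x
        _ ≤ (x + 1) ^ 4 := Nat.le_self_pow (by norm_num) _⟩
    have hs := Nat.find_spec hne
    have hpos : 0 < Nat.find hne := by
      by_contra h
      have h0 : Nat.find hne = 0 := by omega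
      rw [h0] at hs
      simp at hs
    refine ⟨Nat.find hne - 1, ?_, ?_⟩
    · have := Nat.find_min hne (m := Nat.find hne - 1) (by omega)
      omega
    · rw [Nat.sub_add_cancel (by omega)]
      exact hs
  have hJj : J + 1 ≤ j := by
    by_contra h
    have h1 : j + 1 ≤ J + 1 := by omega
    have := Nat.pow_le_pow_left h1 4
    omega
  have hj0 : 1 ≤ j := by omega
  have hjr : (1 : ℝ) ≤ j := by exact_mod_cast hj0
  have hxr : ((j : ℝ)) ^ 4 ≤ x := by exact_mod_cast hj1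
  have hx0 : (0 : ℝ) ≤ x := Nat.cast_nonneg _
  have c0 := (hJ j (by omega)).le
  have c1 : (Nk A ω k x : ℝ) ≤ Nk A ω k (j ^ 4) + ((x - j ^ 4 : ℕ) : ℝ) := by exact_mod_cast Nk_le A ω k _ _ hj1
  have c2 : (Nk A ω k (j ^ 4) : ℝ) ≤ Nk A ω k x := by exact_mod_cast Nk_mono A ω k _ _ hj1
  have c3 := hEle _ _ hj1
  have c4 := hEmono _ _ hj1
  have c5 : ((x - j ^ 4 : ℕ) : ℝ) ≤ 15 * (j : ℝ) ^ 3 := by
    have h1 : x - j ^ 4 ≤ (j + 1) ^ 4 - j ^ 4 := by omega
    have h2 : (((j + 1) ^ 4 - j ^ 4 : ℕ) : ℝ) = ((j : ℝ) + 1) ^ 4 - (j : ℝ) ^ 4 := by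
      rw [Nat.cast_sub (Nat.pow_le_pow_left (by omega) 4)]
      push_cast
      ring
    have h3 : ((x - j ^ 4 : ℕ) : ℝ) ≤ (((j + 1) ^ 4 - j ^ 4 : ℕ) : ℝ) := by exact_mod_cast h1
    rw [h2] at h3
    refine h3.trans ?_
    nlinarith [pow_le_pow_right₀ hjr (show 2 ≤ 3 by norm_num), pow_le_pow_right₀ hjr (show 1 ≤ 3 by norm_num),
      pow_le_pow_right₀ hjr (show 0 ≤ 3 by norm_num)]
  have d1 : (j : ℝ) ^ (19 / 5 : ℝ) ≤ (x : ℝ) ^ (19 / 20 : ℝ) := by
    have : (j : ℝ) ^ (19 / 5 : ℝ) = ((j : ℝ) ^ 4) ^ (19 / 20 : ℝ) := by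
      rw [← Real.rpow_natCast, ← Real.rpow_mul (by linarith)]
      norm_num
    rw [this]
    exact Real.rpow_le_rpow (by positivity) hxr (by norm_num)
  have d2 : (j : ℝ) ^ 3 ≤ (j : ℝ) ^ (19 / 5 : ℝ) := by
    rw [← Real.rpow_natCast]
    exact Real.rpow_le_rpow_of_exponent_le hjr (by norm_num)
  have d3 : (0 : ℝ) ≤ ((x - j ^ 4 : ℕ) : ℝ) := Nat.cast_nonneg _
  rw [abs_le] at c0 ⊢
  constructor <;> nlinarith [c0.1, c0.2]

end Pool.Agent.T2H32.TG
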