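import Mathlib

set_option autoImplicit false

/-! # Expectations over random finite sets; an inequality of Efron and Stein -/

namespace Pool.Agent.T2H32.TG

open Finset

/-- The expectation of `f T` for a random subset `T` of `range N` that contains `i` with probability
`α i`, independently. -/
noncomputable def Ex (α : ℕ → ℝ) : ℕ → (Finset ℕ → ℝ) → ℝ
  | 0, f => f ∅
  | N + 1, f => α N * Ex α N (fun T => f (insert N T)) + (1 - α N) * Ex α N f

variable {α : ℕ → ℝ}

theorem Ex_zero (f : Finset ℕ → ℝ) : Ex α 0 f = f ∅ := rfl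

theorem Ex_succ (N : ℕ) (f : Finset ℕ → ℝ) :
    Ex α (N + 1) f = α N * Ex α N (fun T => f (insert N T)) + (1 - α N) * Ex α N f := rfl

theorem Ex_add (N : ℕ) : ∀ f g : Finset ℕ → ℝ, Ex α N (fun T => f T + g T) = Ex α N f + Ex α N g := by
  induction N with
  | zero => intro f g; rfl
  | succ N ih =>
    intro f g
    rw [Ex_succ, Ex_succ, Ex_succ, ih, ih]
    ring

theorem Ex_mul (N : ℕ) (c : ℝ) : ∀ f : Finset ℕ → ℝ, Ex α N (fun T => c * f T) = c * Ex α N f := by
  induction N with
  | zero => intro f; rfl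
  | succ N ih =>
    intro f
    rw [Ex_succ, Ex_succ, ih, ih]
    ring

theorem Ex_const (N : ℕ) (c : ℝ) : Ex α N (fun _ => c) = c := by
  induction N with
  | zero => rfl
  | succ N ih => rw [Ex_succ, ih]; ring

theorem Ex_sum {ι : Type} (N : ℕ) (s : Finset ι) (f : ι → Finset ℕ → ℝ) :
    Ex α N (fun T => ∑ i ∈ s, f i T) = ∑ i ∈ s, Ex α N (f i) := by
  classical
  induction s using Finset.induction_on with
  | empty => simp only [sum_empty]; exact Ex_const N 0
  | insert a s ha ih =>
    simp only [sum_insert ha]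
    rw [Ex_add, ih]

theorem Ex_congr (N : ℕ) : ∀ f g : Finset ℕ → ℝ, (∀ T ⊆ range N, f T = g T) → Ex α N f = Ex α N g := by
  induction N with
  | zero => intro f g h; exact h ∅ (empty_subset _)
  | succ N ih =>
    intro f g h
    rw [Ex_succ, Ex_succ, ih _ (fun T => g (insert N T)), ih f g]
    · intro T hT
      exact h T (hT.trans (range_subset_range.2 (Nat.le_succ N)))
    · intro T hT
      apply h
      rw [range_add_one]
      exact insert_subset_insert N hT

variable (h0 : ∀ i, 0 ≤ α i) (h1 : ∀ i, α i ≤ 1)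
include h0 h1

theorem Ex_mono (N : ℕ) : ∀ f g : Finset ℕ → ℝ, (∀ T ⊆ range N, f T ≤ g T) → Ex α N f ≤ Ex α N g := by
  induction N with
  | zero => intro f g h; exact h ∅ (empty_subset _)
  | succ N ih =>
    intro f g h
    rw [Ex_succ, Ex_succ]
    have a := ih (fun T => f (insert N T)) (fun T => g (insert N T)) (fun T hT => by
      apply h
      rw [range_add_one]
      exact insert_subset_insert N hT)
    have b := ih f g (fun T hT => h T (hT.trans (range_subset_range.2 (Nat.le_succ N))))
    have c := mul_le_mul_of_nonneg_left a (h0 N)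
    have d := mul_le_mul_of_nonneg_left b (sub_nonneg.2 (h1 N))
    linarith

theorem Ex_nonneg (N : ℕ) (f : Finset ℕ → ℝ) (hf : ∀ T ⊆ range N, 0 ≤ f T) : 0 ≤ Ex α N f := by
  have := Ex_mono h0 h1 N (fun _ => 0) f hf
  rwa [Ex_const] at this

/-- **An inequality of Efron and Stein.** -/
theorem efron_stein (N : ℕ) : ∀ f G : Finset ℕ → ℝ, (∀ T i, |f (insert i T) - f T| ≤ G T) →
    (∀ T, 0 ≤ G T) → (∀ T i, G T ≤ G (insert i T)) →
    Ex α N (fun T => f T ^ 2) - Ex α N f ^ 2 ≤ (∑ i ∈ range N, α i) * Ex α N (fun T => G T ^ 2) := by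
  induction N with
  | zero =>
    intro f G _ _ _
    rw [Ex_zero, Ex_zero, sum_range_zero]
    simp
  | succ N ih =>
    intro f G hf hG0 hG
    set g : Finset ℕ → ℝ := fun T => α N * f (insert N T) + (1 - α N) * f T with hg
    set G' : Finset ℕ → ℝ := fun T => α N * G (insert N T) + (1 - α N) * G T with hG'
    have hc : 0 ≤ 1 - α N := sub_nonneg.2 (h1 N)
    have e1 : Ex α (N + 1) f = Ex α N g := by
      rw [Ex_succ, hg, Ex_add, Ex_mul, Ex_mul]
    have e2 : Ex α (N + 1) (fun T => f T ^ 2) = Ex α N (fun T => g T ^ 2) +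
        Ex α N (fun T => α N * (1 - α N) * (f (insert N T) - f T) ^ 2) := by
      rw [Ex_succ, ← Ex_add, ← Ex_mul, ← Ex_mul, ← Ex_add]
      congr 1
      funext T
      simp only [hg]
      ring
    have hg1 : ∀ T i, |g (insert i T) - g T| ≤ G' T := by
      intro T i
      have a1 := hf (insert N T) i
      have a2 := hf T i
      rw [insert_comm] at a1
      have e : g (insert i T) - g T = α N * (f (insert N (insert i T)) - f (insert N T)) +
          (1 - α N) * (f (insert i T) - f T) := by
        simp only [hg]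
        ring
      rw [e]
      refine (abs_add_le _ _).trans ?_
      rw [abs_mul, abs_mul, abs_of_nonneg (h0 N), abs_of_nonneg hc]
      exact add_le_add (mul_le_mul_of_nonneg_left a1 (h0 N)) (mul_le_mul_of_nonneg_left a2 hc)
    have hG'0 : ∀ T, 0 ≤ G' T := fun T =>
      add_nonneg (mul_nonneg (h0 N) (hG0 _)) (mul_nonneg hc (hG0 _))
    have hG'1 : ∀ T i, G' T ≤ G' (insert i T) := by
      intro T i
      have a1 := hG (insert N T) i
      rw [insert_comm] at a1
      exact add_le_add (mul_le_mul_of_nonneg_left a1 (h0 N)) (mul_le_mul_of_nonneg_left (hG T i) hc)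
    have hI := ih g G' hg1 hG'0 hG'1
    -- Jensen
    have hJ : Ex α N (fun T => G' T ^ 2) ≤ Ex α (N + 1) (fun T => G T ^ 2) := by
      rw [Ex_succ, ← Ex_mul, ← Ex_mul, ← Ex_add]
      apply Ex_mono h0 h1
      intro T _
      simp only [hG']
      nlinarith [mul_nonneg (mul_nonneg (h0 N) hc) (sq_nonneg (G (insert N T) - G T))]
    have hK : Ex α N (fun T => G T ^ 2) ≤ Ex α (N + 1) (fun T => G T ^ 2) := by
      rw [Ex_succ, ← Ex_mul, ← Ex_mul, ← Ex_add]
      apply Ex_mono h0 h1
      intro T _
      have : G T ^ 2 ≤ G (insert N T) ^ 2 := pow_le_pow_left₀ (hG0 T) (hG T N) 2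
      have := mul_le_mul_of_nonneg_left this (h0 N)
      linarith
    have hD : Ex α N (fun T => α N * (1 - α N) * (f (insert N T) - f T) ^ 2) ≤
        α N * Ex α N (fun T => G T ^ 2) := by
      rw [← Ex_mul]
      apply Ex_mono h0 h1
      intro T _
      have a1 : (f (insert N T) - f T) ^ 2 ≤ G T ^ 2 := by
        rw [← sq_abs (f (insert N T) - f T)]
        exact pow_le_pow_left₀ (abs_nonneg _) (hf T N) 2
      calc α N * (1 - α N) * (f (insert N T) - f T) ^ 2 ≤ α N * 1 * (G T ^ 2) := by
            apply mul_le_mul _ a1 (sq_nonneg _) (mul_nonneg (h0 N) zero_le_one)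
            exact mul_le_mul_of_nonneg_left (by linarith [h0 N]) (h0 N)
        _ = _ := by ring
    rw [e1, e2, sum_range_succ]
    have hS : 0 ≤ ∑ i ∈ range N, α i := sum_nonneg fun i _ => h0 i
    have a1 := mul_le_mul_of_nonneg_left hJ hS
    have a2 := mul_le_mul_of_nonneg_left hK (h0 N)
    nlinarith

/-- the second moment of the number of elements -/
theorem Ex_card (N : ℕ) : ∀ c : ℝ, 0 ≤ c → Ex α N (fun T => ((T.card : ℝ) + c) ^ 2) ≤
    ((∑ i ∈ range N, α i) + c) ^ 2 + ∑ i ∈ range N, α i := by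
  induction N with
  | zero =>
    intro c _
    rw [Ex_zero, sum_range_zero]
    simp
  | succ N ih =>
    intro c hc
    rw [Ex_succ, sum_range_succ]
    have a1 : Ex α N (fun T => (((insert N T).card : ℝ) + c) ^ 2) ≤ Ex α N (fun T => ((T.card : ℝ) + (c + 1)) ^ 2) := by
      apply Ex_mono h0 h1
      intro T _
      apply pow_le_pow_left₀ (by positivity)
      have : ((insert N T).card : ℝ) ≤ T.card + 1 := by exact_mod_cast card_insert_le N T
      linarith
    have a2 := ih (c + 1) (by linarith)
    have a3 := ih c hc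
    have hM : 0 ≤ ∑ i ∈ range N, α i := sum_nonneg fun i _ => h0 i
    have b1 := mul_le_mul_of_nonneg_left (a1.trans a2) (h0 N)
    have b2 := mul_le_mul_of_nonneg_left a3 (sub_nonneg.2 (h1 N))
    have b3 := h0 N
    have b4 := h1 N
    nlinarith [sq_nonneg (α N)]

end Pool.Agent.T2H32.TG
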