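import Pool.Agent.T2H32.TG.Thin

set_option autoImplicit false

/-! # Exceptions for thin random sets of primes -/

open MeasureTheory ProbabilityTheory Filter Topology Finset
open scoped ENNReal

namespace Pool.Agent.T2H32.TG

open Pool.Agent.W93.PG (WinP)

variable {Ω : Type*}

/-- the random set of primes -/
def QS (A : ℕ → Set Ω) (ω : Ω) : Set ℕ := {p | p.Prime ∧ ω ∈ A p}

theorem R_eq_zero (A : ℕ → Set Ω) (ω : Ω) (m : ℕ) :
    R A ω m = 0 ↔ ¬ ∃ p ∈ QS A ω, ∃ q ∈ QS A ω, p + q = m := by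
  classical
  unfold R QS
  rw [card_eq_zero, eq_empty_iff_forall_notMem]
  constructor
  · rintro h ⟨p, ⟨hp, hp'⟩, q, ⟨hq, hq'⟩, hpq⟩
    rcases le_total p q with hle | hle
    · apply h p
      have e : m - p = q := by omega
      rw [mem_filter, mem_Icc, e]
      exact ⟨⟨hp.pos, by omega⟩, hp, hq, hp', hq'⟩
    · apply h q
      have e : m - q = p := by omega
      rw [mem_filter, mem_Icc, e]
      exact ⟨⟨hq.pos, by omega⟩, hq, hp, hq', hp'⟩
  · intro h p hp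
    rw [mem_filter, mem_Icc] at hp
    obtain ⟨⟨h1, h2⟩, h3, h4, h5, h6⟩ := hp
    exact h ⟨p, ⟨h3, h5⟩, m - p, ⟨h4, h6⟩, by omega⟩

/-- the number of `n ≤ x` for which `2 n` is not a sum of two members of `Q` -/
noncomputable def exc (Q : Set ℕ) (x : ℕ) : ℕ := {n : ℕ | 1 ≤ n ∧ n ≤ x ∧ ¬ ∃ p ∈ Q, ∃ q ∈ Q, p + q = 2 * n}.ncard

/-- the number of members of `Q` up to `x` -/
noncomputable def cQ (Q : Set ℕ) (x : ℕ) : ℕ := {p : ℕ | p ∈ Q ∧ p ≤ x}.ncard

theorem exc_eq (A : ℕ → Set Ω) (ω : Ω) (x : ℕ) : exc (QS A ω) x = Nk A ω 0 x := by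
  classical
  unfold exc Nk
  rw [← Set.ncard_coe_finset]
  congr 1
  ext n
  simp only [Set.mem_ofPred_eq, coe_filter, mem_Icc]
  rw [R_eq_zero, and_assoc]

theorem cQ_eq (A : ℕ → Set Ω) (ω : Ω) (x : ℕ) : cQ (QS A ω) x = Qc A ω x := by
  classical
  unfold cQ Qc
  rw [← Set.ncard_coe_finset]
  congr 1
  ext p
  simp only [Set.mem_ofPred_eq, coe_filter, mem_Icc]
  unfold QS
  constructor
  · rintro ⟨⟨h1, h2⟩, h3⟩
    exact ⟨⟨h1.pos, h3⟩, h1, h2⟩
  · rintro ⟨⟨h1, h2⟩, h3, h4⟩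
    exact ⟨⟨h3, h4⟩, h2⟩

variable [MeasurableSpace Ω] {P : Measure Ω}

open Classical in
theorem as_exc [IsProbabilityMeasure P] (t : ℕ → ℝ) (h : Sl t) (A : ℕ → Set Ω) (hA : ∀ k, MeasurableSet (A k))
    (hind : iIndepSet A P) (hP : ∀ k, P.real (A k) = al t k) : ∃ K : ℕ,
    ∀ᵐ ω ∂P, ∀ᶠ x : ℕ in atTop, (exc (QS A ω) x : ℝ) ≤ K + ((Icc 1 x).filter (fun n => ¬ WinP (1 / 2) 1 (2 * n))).card +
      ∑ n ∈ Icc 1 x, Real.exp (-(t (⌊√((2 * n : ℕ) : ℝ)⌋₊) * (1 / 24))) + 31 * (x : ℝ) ^ (19 / 20 : ℝ) := by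
  have hPf : (fun i => P.real (A i)) = al t := by funext i; exact hP i
  obtain ⟨n₀, h1⟩ := np_lower
  obtain ⟨m₁, h2⟩ := mu_t t h (1 / 6) (by norm_num)
  refine ⟨n₀ + m₁, ?_⟩
  have hcube : ∀ᶠ x : ℕ in atTop, ((∑ i ∈ range (2 * x + 1), P.real (A i)) + 2) ^ 3 ≤ (x : ℝ) ^ (8 / 5 : ℝ) := by
    have := al_cube t h
    simp only [← hP] at this
    exact this
  filter_upwards [as_Nk (P := P) A hA hind 0 hcube] with ω hω
  filter_upwards [hω] with x hx
  rw [exc_eq]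
  have a1 := (abs_le.1 hx).2
  refine le_trans (by linarith : (Nk A ω 0 x : ℝ) ≤ ∑ n ∈ Icc 1 x, P.real {ω | R A ω (2 * n) = 0} + 31 * (x : ℝ) ^ (19 / 20 : ℝ)) ?_
  apply add_le_add _ le_rfl
  -- termwise
  have a2 : ∀ n ∈ Icc 1 x, P.real {ω | R A ω (2 * n) = 0} ≤ (if n < n₀ + m₁ then (1 : ℝ) else 0) +
      (if ¬ WinP (1 / 2) 1 (2 * n) then (1 : ℝ) else 0) + Real.exp (-(t (⌊√((2 * n : ℕ) : ℝ)⌋₊) * (1 / 24))) := by
    intro n hn
    have b0 : P.real {ω | R A ω (2 * n) = 0} ≤ 1 := measureReal_le_one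
    have b1 := Real.exp_pos (-(t (⌊√((2 * n : ℕ) : ℝ)⌋₊) * (1 / 24)))
    by_cases c1 : n < n₀ + m₁
    · rw [if_pos c1]
      split_ifs <;> linarith
    · rw [if_neg c1]
      by_cases c2 : WinP (1 / 2) 1 (2 * n)
      · rw [if_neg (not_not.2 c2), zero_add, zero_add]
        have c3 := h1 n (by omega) c2
        have c4 := h2 (2 * n) (by omega) c3
        have c5 := R_zero (P := P) A hA hind (2 * n)
        rw [hPf] at c5
        refine c5.trans (Real.exp_le_exp.2 (neg_le_neg ?_))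
        refine le_trans (le_of_eq ?_) c4
        norm_num
      · rw [if_pos c2]
        linarith
  refine (sum_le_sum a2).trans ?_
  rw [sum_add_distrib, sum_add_distrib]
  apply add_le_add _ le_rfl
  apply add_le_add
  · rw [← sum_filter, sum_const, nsmul_eq_mul, mul_one]
    have : ((Icc 1 x).filter (fun n => n < n₀ + m₁)).card ≤ n₀ + m₁ := by
      calc _ ≤ (range (n₀ + m₁)).card := by
            apply card_le_card
            intro n hn
            rw [mem_filter] at hn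
            exact mem_range.2 hn.2
        _ = _ := card_range _
    exact_mod_cast this
  · rw [← sum_filter, sum_const, nsmul_eq_mul, mul_one]

/-- from almost sure statements to existence -/
theorem thin_exists : ∃ C : ℝ, 0 < C ∧ ∀ t : ℕ → ℝ, Sl t → ∀ U : ℕ, ∃ (K : ℕ) (Q : Set ℕ), (∀ p ∈ Q, p.Prime) ∧
    (∀ᶠ x : ℕ in atTop, (cQ Q x : ℝ) ≤ C * √(t x) * √(x : ℝ)) ∧
    ∀ᶠ x : ℕ in atTop, (exc Q x : ℝ) ≤ K + x / Real.log x ^ U +
      ∑ n ∈ Icc 1 x, Real.exp (-(t (⌊√((2 * n : ℕ) : ℝ)⌋₊) * (1 / 24))) + 31 * (x : ℝ) ^ (19 / 20 : ℝ) := by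
  classical
  obtain ⟨C, hC, hsum⟩ := al_sum2
  refine ⟨2 * C, by positivity, fun t h U => ?_⟩
  obtain ⟨Ω, _, P, A, hp, hA, hind, hP⟩ := model t
  obtain ⟨K, hK⟩ := as_exc (P := P) t h A hA hind hP
  obtain ⟨x₀, hx₀⟩ := win_density (1 / 2) (by norm_num) 1 U
  obtain ⟨ω, hω1, hω2⟩ := (hK.and (as_thin (P := P) t h A hA hind hP C (hsum t h))).exists
  refine ⟨K, QS A ω, fun p hp => hp.1, ?_, ?_⟩
  · filter_upwards [hω2] with x hx
    rw [cQ_eq]
    exact hx
  · filter_upwards [hω1, eventually_ge_atTop x₀] with x hx hx'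
    have a1 := hx₀ x hx'
    refine hx.trans ?_
    gcongr

theorem pow_small (c : ℝ) (hc : 0 < c) : ∀ᶠ x : ℕ in atTop, 31 * (x : ℝ) ^ (19 / 20 : ℝ) ≤ c * x := by
  have h1 := (tendsto_natCast_atTop_atTop (R := ℝ)).eventually_ge_atTop ((31 / c) ^ (20 : ℝ))
  filter_upwards [h1, eventually_ge_atTop 1] with x a1 a2
  have hx : (0 : ℝ) < x := by exact_mod_cast a2
  have b1 : ((31 / c) ^ (20 : ℝ)) ^ (1 / 20 : ℝ) ≤ (x : ℝ) ^ (1 / 20 : ℝ) := Real.rpow_le_rpow (by positivity) a1 (by norm_num)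
  rw [← Real.rpow_mul (by positivity)] at b1
  norm_num at b1
  rw [div_le_iff₀ hc] at b1
  have b2 : (x : ℝ) = (x : ℝ) ^ (1 / 20 : ℝ) * (x : ℝ) ^ (19 / 20 : ℝ) := by
    rw [← Real.rpow_add hx]
    norm_num
  calc 31 * (x : ℝ) ^ (19 / 20 : ℝ) ≤ ((x : ℝ) ^ (1 / 20 : ℝ) * c) * (x : ℝ) ^ (19 / 20 : ℝ) :=
        mul_le_mul_of_nonneg_right b1 (by positivity)
    _ = c * ((x : ℝ) ^ (1 / 20 : ℝ) * (x : ℝ) ^ (19 / 20 : ℝ)) := by ring
    _ = c * x := by rw [← b2]

/-- sums of a null sequence -/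
theorem cesaro (f : ℕ → ℝ) (hf1 : ∀ n, f n ≤ 1) (h : Tendsto f atTop (𝓝 0)) (c : ℝ) (hc : 0 < c) :
    ∀ᶠ x : ℕ in atTop, ∑ n ∈ Icc 1 x, f n ≤ c * x := by
  obtain ⟨n₀, hn₀⟩ := eventually_atTop.1 (h.eventually_le_const (show (0 : ℝ) < c / 2 by positivity))
  have h1 := (tendsto_natCast_atTop_atTop (R := ℝ)).eventually_ge_atTop (2 * n₀ / c)
  filter_upwards [h1] with x a1
  rw [div_le_iff₀ hc] at a1
  have a2 : ∑ n ∈ Icc 1 x, f n ≤ ∑ n ∈ Icc 1 x, ((if n < n₀ then (1 : ℝ) else 0) + c / 2) := by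
    apply sum_le_sum
    intro n _
    by_cases c1 : n < n₀
    · rw [if_pos c1]
      linarith [hf1 n]
    · rw [if_neg c1]
      linarith [hn₀ n (by omega)]
  refine a2.trans ?_
  rw [sum_add_distrib, ← sum_filter, sum_const, sum_const, nsmul_eq_mul, nsmul_eq_mul, mul_one, Nat.card_Icc]
  have a3 : ((Icc 1 x).filter (fun n => n < n₀)).card ≤ n₀ := by
    calc _ ≤ (range n₀).card := by
          apply card_le_card
          intro n hn
          rw [mem_filter] at hn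
          exact mem_range.2 hn.2
      _ = _ := card_range _
  have a4 : (((Icc 1 x).filter (fun n => n < n₀)).card : ℝ) ≤ n₀ := by exact_mod_cast a3
  rw [Nat.add_sub_cancel]
  linarith

theorem floor_sqrt_top : Tendsto (fun n : ℕ => ⌊√((2 * n : ℕ) : ℝ)⌋₊) atTop atTop := by
  apply tendsto_nat_floor_atTop.comp
  apply Real.tendsto_sqrt_atTop.comp
  apply tendsto_natCast_atTop_atTop.comp
  exact tendsto_id.const_mul_atTop' (by norm_num)

/-- **Sets of primes of arbitrarily slowly growing multiples of the square root.** -/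
theorem part_two (w : ℕ → ℝ) (hw : Tendsto w atTop atTop) : ∃ Q : Set ℕ, (∀ p ∈ Q, p.Prime) ∧
    (∀ᶠ x : ℕ in atTop, (cQ Q x : ℝ) ≤ w x * √(x : ℝ)) ∧
    Tendsto (fun x : ℕ => (exc Q x : ℝ) / x) atTop (𝓝 0) := by
  classical
  obtain ⟨C, hC, hmain⟩ := thin_exists
  -- the slow function
  set v : ℕ → ℝ := fun y => min ((w y / C) ^ 2) (Real.log y) with hv
  have hlogtop : Tendsto (fun y : ℕ => Real.log y) atTop atTop := Real.tendsto_log_atTop.comp tendsto_natCast_atTop_atTop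
  have hvtop : Tendsto v atTop atTop := by
    rw [tendsto_atTop]
    intro b
    filter_upwards [(hw.atTop_div_const hC).eventually_ge_atTop (max 1 b), hlogtop.eventually_ge_atTop b] with y hy hy2
    simp only [hv]
    have b1 := (le_max_left 1 b).trans hy
    have b2 := (le_max_right 1 b).trans hy
    refine le_min ?_ hy2
    nlinarith
  set T : ℕ → ℕ := fun x => Nat.findGreatest (fun j => ∀ y ≥ x, (j : ℝ) ≤ v y) x with hT
  have hTmono : Monotone T := by
    intro a b hab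
    simp only [hT]
    rcases Nat.eq_zero_or_pos (Nat.findGreatest (fun j => ∀ y ≥ a, (j : ℝ) ≤ v y) a) with h0 | h0
    · rw [h0]
      exact Nat.zero_le _
    · have h1 := Nat.findGreatest_of_ne_zero (P := fun j => ∀ y ≥ a, (j : ℝ) ≤ v y) (n := a) rfl h0.ne'
      apply Nat.le_findGreatest ((Nat.findGreatest_le a).trans hab)
      intro y hy
      exact h1 y (by omega)
  have hTtop : Tendsto (fun x => (T x : ℝ)) atTop atTop := by
    apply tendsto_natCast_atTop_atTop.comp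
    rw [tendsto_atTop_atTop]
    intro J
    obtain ⟨x₁, hx₁⟩ := eventually_atTop.1 (hvtop.eventually_ge_atTop (J : ℝ))
    refine ⟨x₁ + J, fun x hx => ?_⟩
    simp only [hT]
    apply Nat.le_findGreatest (by omega)
    intro y hy
    exact hx₁ y (by omega)
  have hTv : ∀ x, T x ≠ 0 → (T x : ℝ) ≤ v x := by
    intro x h0
    have h1 := Nat.findGreatest_of_ne_zero (P := fun j => ∀ y ≥ x, (j : ℝ) ≤ v y) (n := x) rfl h0
    exact h1 x le_rfl
  set t : ℕ → ℝ := fun x => max 1 (T x : ℝ) with ht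
  have hev : ∀ᶠ x : ℕ in atTop, t x = T x ∧ (T x : ℝ) ≤ v x := by
    filter_upwards [hTtop.eventually_ge_atTop 1] with x hx
    refine ⟨max_eq_right hx, hTv x ?_⟩
    intro h0
    rw [h0] at hx
    norm_num at hx
  have hSl : Sl t := by
    refine ⟨fun x => le_max_left _ _, ?_, ⟨1, one_pos, ?_⟩⟩
    · intro a b hab
      exact max_le_max le_rfl (by exact_mod_cast hTmono hab)
    · filter_upwards [hev] with x hx
      rw [hx.1, one_mul]
      exact hx.2.trans (min_le_right _ _)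
  obtain ⟨K, Q, h1, h2, h3⟩ := hmain t hSl 1
  refine ⟨Q, h1, ?_, ?_⟩
  · filter_upwards [h2, hev, hw.eventually_ge_atTop 0] with x a1 a2 a3
    refine a1.trans (mul_le_mul_of_nonneg_right ?_ (Real.sqrt_nonneg _))
    have b1 : √(t x) ≤ w x / C := by
      rw [Real.sqrt_le_left (by positivity), a2.1]
      exact a2.2.trans (min_le_left _ _)
    rw [le_div_iff₀ hC] at b1
    linarith
  · rw [Metric.tendsto_atTop]
    intro ε hε
    have htt : Tendsto t atTop atTop := tendsto_atTop_mono (fun x => le_max_right _ _) hTtop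
    have hexp : Tendsto (fun n : ℕ => Real.exp (-(t (⌊√((2 * n : ℕ) : ℝ)⌋₊) * (1 / 24)))) atTop (𝓝 0) := by
      apply Real.tendsto_exp_neg_atTop_nhds_zero.comp
      exact (htt.comp floor_sqrt_top).atTop_mul_const (by norm_num)
    have c1 := cesaro _ (fun n => by
      rw [Real.exp_le_one_iff]
      have := hSl.one_le (⌊√((2 * n : ℕ) : ℝ)⌋₊)
      linarith) hexp (ε / 5) (by positivity)
    have c2 := pow_small (ε / 5) (by positivity)
    have c3 := (tendsto_natCast_atTop_atTop (R := ℝ)).eventually_ge_atTop (5 * K / ε)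
    have c4 := hlogtop.eventually_ge_atTop (5 / ε)
    have hall := h3.and (c1.and (c2.and (c3.and (c4.and (eventually_ge_atTop 1)))))
    obtain ⟨x₀, hx₀⟩ := eventually_atTop.1 hall
    refine ⟨x₀, fun x hx => ?_⟩
    obtain ⟨d0, d1, d2, d3, d4, d5⟩ := hx₀ x hx
    have hx0 : (0 : ℝ) < x := by exact_mod_cast d5
    rw [Real.dist_eq, sub_zero, abs_of_nonneg (by positivity), div_lt_iff₀ hx0]
    rw [div_le_iff₀ hε] at d3
    have d6 : (x : ℝ) / Real.log x ^ 1 ≤ ε / 5 * x := by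
      have hlp : 0 < Real.log x := lt_of_lt_of_le (by positivity) d4
      rw [pow_one, div_le_iff₀ hlp]
      rw [div_le_iff₀ hε] at d4
      nlinarith
    have : 0 < ε * x := by positivity
    linarith

end Pool.Agent.T2H32.TG
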