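import Pool.Agent.T2H32.TG.Exc

set_option autoImplicit false

/-! # Thin sets of primes: few exceptions, and no exceptions among the numbers with many representations -/

open MeasureTheory ProbabilityTheory Filter Topology Finset
open scoped ENNReal

namespace Pool.Agent.T2H32.TG

theorem floor_ge (n : ℕ) (y : ℝ) (hy : 3 ≤ y) (h : y ^ 2 ≤ n) : y ≤ (⌊√((2 * n : ℕ) : ℝ)⌋₊ : ℝ) := by
  have h1 := Nat.lt_floor_add_one (√((2 * n : ℕ) : ℝ))
  have h2 : (4 / 3) * y ≤ √((2 * n : ℕ) : ℝ) := by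
    apply Real.le_sqrt_of_sq_le
    push_cast
    nlinarith
  linarith

theorem natlog_mono {a b : ℕ} (h : a ≤ b) : Real.log a ≤ Real.log b := by
  rcases Nat.eq_zero_or_pos a with h0 | h0
  · subst h0
    rw [Nat.cast_zero, Real.log_zero]
    exact Real.log_natCast_nonneg b
  · exact Real.log_le_log (by exact_mod_cast h0) (by exact_mod_cast h)

theorem logtop : Tendsto (fun y : ℕ => Real.log y) atTop atTop := Real.tendsto_log_atTop.comp tendsto_natCast_atTop_atTop

/-- `max 1 (B log log x)` -/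
theorem Sl_ll (B : ℝ) (hB : 0 < B) : Sl (fun x => max 1 (B * Real.log (Real.log x))) := by
  refine ⟨fun x => le_max_left _ _, ?_, ⟨B, hB, ?_⟩⟩
  · intro a b hab
    simp only
    rcases Nat.lt_or_ge a 3 with h | h
    · have h1 : Real.log (Real.log a) ≤ 0 := by
        apply Real.log_nonpos (Real.log_natCast_nonneg a)
        have h2 : Real.log a ≤ Real.log (2 : ℕ) := natlog_mono (by omega)
        have h3 := Real.log_two_lt_d9
        push_cast at h2
        linarith
      rw [max_eq_left (by nlinarith)]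
      exact le_max_left _ _
    · apply max_le_max le_rfl
      apply mul_le_mul_of_nonneg_left _ hB.le
      apply Real.log_le_log
      · apply Real.log_pos
        exact_mod_cast (by omega : 1 < a)
      · exact natlog_mono hab
  · filter_upwards [logtop.eventually_ge_atTop (max 1 (1 / B))] with x hx
    have h1 := (le_max_left _ _).trans hx
    have h2 := (le_max_right _ _).trans hx
    rw [div_le_iff₀ hB] at h2
    apply max_le
    · linarith
    · apply mul_le_mul_of_nonneg_left _ hB.le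
      have := Real.log_le_sub_one_of_pos (show 0 < Real.log (x : ℝ) by linarith)
      linarith

/-- `max 1 (B log x)` -/
theorem Sl_l (B : ℝ) (hB : 0 < B) : Sl (fun x => max 1 (B * Real.log x)) := by
  refine ⟨fun x => le_max_left _ _, ?_, ⟨B, hB, ?_⟩⟩
  · intro a b hab
    simp only
    apply max_le_max le_rfl
    exact mul_le_mul_of_nonneg_left (natlog_mono hab) hB.le
  · filter_upwards [logtop.eventually_ge_atTop (1 / B)] with x hx
    rw [div_le_iff₀ hB] at hx
    apply max_le
    · linarith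
    · exact le_rfl

/-- **Few exceptions.** -/
theorem part_three (A : ℕ) : ∃ (C : ℝ) (Q : Set ℕ), (∀ p ∈ Q, p.Prime) ∧
    (∀ᶠ x : ℕ in atTop, (cQ Q x : ℝ) ≤ C * √((x : ℝ) * Real.log (Real.log x))) ∧
    ∀ᶠ x : ℕ in atTop, (exc Q x : ℝ) ≤ x / Real.log x ^ A := by
  classical
  obtain ⟨C, hC, hmain⟩ := thin_exists
  obtain ⟨B, hB⟩ : ∃ B : ℝ, B = 24 * (A + 1) := ⟨_, rfl⟩
  have hB0 : 0 < B := by rw [hB]; positivity
  obtain ⟨K, Q, h1, h2, h3⟩ := hmain _ (Sl_ll B hB0) (A + 1)
  refine ⟨C * √B, Q, h1, ?_, ?_⟩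
  · have hll : Tendsto (fun x : ℕ => Real.log (Real.log x)) atTop atTop := Real.tendsto_log_atTop.comp logtop
    filter_upwards [h2, hll.eventually_ge_atTop (1 / B)] with x a1 a2
    have a3 := a2
    rw [div_le_iff₀ hB0] at a2
    have a4 : 0 ≤ Real.log (Real.log (x : ℝ)) := by
      have : 0 < 1 / B := by positivity
      linarith
    rw [max_eq_right (by linarith)] at a1
    refine a1.trans (le_of_eq ?_)
    rw [Real.sqrt_mul hB0.le, Real.sqrt_mul (Nat.cast_nonneg x)]
    ring
  · have e1 : ∀ᶠ x : ℕ in atTop, ∑ n ∈ Icc 1 x, Real.exp (-((fun x : ℕ => max 1 (B * Real.log (Real.log x)))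
        (⌊√((2 * n : ℕ) : ℝ)⌋₊) * (1 / 24))) ≤ √(x : ℝ) + x * (4 ^ (A + 1) / Real.log x ^ (A + 1)) := by
      filter_upwards [eventually_ge_atTop 81, logtop.eventually_ge_atTop 8] with x hx hlx
      have hxr : (81 : ℝ) ≤ x := by exact_mod_cast hx
      have hs0 : 0 ≤ √(x : ℝ) := Real.sqrt_nonneg _
      have hs9 : 9 ≤ √(x : ℝ) := Real.le_sqrt_of_sq_le (by linarith)
      have hb : ∀ n ∈ Icc 1 x, Real.exp (-((fun x : ℕ => max 1 (B * Real.log (Real.log x)))
        (⌊√((2 * n : ℕ) : ℝ)⌋₊) * (1 / 24))) ≤ (if (n : ℝ) ≤ √(x : ℝ) then (1 : ℝ) else 0) + 4 ^ (A + 1) / Real.log x ^ (A + 1) := by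
        intro n _
        have b0 : (0 : ℝ) ≤ 4 ^ (A + 1) / Real.log x ^ (A + 1) := by positivity
        have b1 : Real.exp (-((fun x : ℕ => max 1 (B * Real.log (Real.log x)))
          (⌊√((2 * n : ℕ) : ℝ)⌋₊) * (1 / 24))) ≤ 1 := by
          rw [Real.exp_le_one_iff]
          have := (Sl_ll B hB0).one_le (⌊√((2 * n : ℕ) : ℝ)⌋₊)
          simp only at this ⊢
          linarith
        by_cases c : (n : ℝ) ≤ √(x : ℝ)
        · rw [if_pos c]
          linarith
        · rw [if_neg c, zero_add]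
          push Not at c
          have hq : 3 ≤ √(√(x : ℝ)) := Real.le_sqrt_of_sq_le (by linarith)
          have c1 := floor_ge n (√(√(x : ℝ))) hq (by rw [Real.sq_sqrt hs0]; exact c.le)
          have c2 : Real.log x / 4 ≤ Real.log (⌊√((2 * n : ℕ) : ℝ)⌋₊ : ℝ) := by
            have := Real.log_le_log (by linarith) c1
            rw [Real.log_sqrt hs0, Real.log_sqrt (by linarith)] at this
            linarith
          have c3 : 0 < Real.log x / 4 := by linarith
          have c4 : Real.log (Real.log x / 4) ≤ Real.log (Real.log (⌊√((2 * n : ℕ) : ℝ)⌋₊ : ℝ)) := Real.log_le_log c3 c2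
          calc Real.exp (-((fun x : ℕ => max 1 (B * Real.log (Real.log x))) (⌊√((2 * n : ℕ) : ℝ)⌋₊) * (1 / 24)))
              ≤ Real.exp (-(B * Real.log (Real.log x / 4) * (1 / 24))) := by
                apply Real.exp_le_exp.2
                apply neg_le_neg
                apply mul_le_mul_of_nonneg_right _ (by norm_num)
                exact (mul_le_mul_of_nonneg_left c4 hB0.le).trans (le_max_right _ _)
            _ = 4 ^ (A + 1) / Real.log x ^ (A + 1) := by
                have : -(B * Real.log (Real.log x / 4) * (1 / 24)) = -(((A + 1 : ℕ) : ℝ) * Real.log (Real.log x / 4)) := by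
                  rw [hB]
                  push_cast
                  ring
                rw [this, ← Real.log_pow, Real.exp_neg, Real.exp_log (by positivity), div_pow, inv_div]
      refine (sum_le_sum hb).trans ?_
      rw [sum_add_distrib, ← sum_filter, sum_const, sum_const, nsmul_eq_mul, nsmul_eq_mul, mul_one, Nat.card_Icc, Nat.add_sub_cancel]
      apply add_le_add _ le_rfl
      have : ((Icc 1 x).filter (fun n : ℕ => (n : ℝ) ≤ √(x : ℝ))).card ≤ ⌊√(x : ℝ)⌋₊ := by
        calc _ ≤ (Icc 1 ⌊√(x : ℝ)⌋₊).card := by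
              apply card_le_card
              intro n hn
              rw [mem_filter, mem_Icc] at hn
              rw [mem_Icc]
              exact ⟨hn.1.1, Nat.le_floor hn.2⟩
          _ = _ := by rw [Nat.card_Icc, Nat.add_sub_cancel]
      calc (((Icc 1 x).filter (fun n : ℕ => (n : ℝ) ≤ √(x : ℝ))).card : ℝ) ≤ (⌊√(x : ℝ)⌋₊ : ℝ) := by exact_mod_cast this
        _ ≤ √(x : ℝ) := Nat.floor_le hs0
    -- the small terms
    have e2 := (log_pow_small (4 * (K + 32)) (1 / 20) (by norm_num) (A : ℝ)).eventually_le_const (show (0 : ℝ) < 1 by norm_num)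
    filter_upwards [h3, e1, e2, eventually_ge_atTop 3, logtop.eventually_ge_atTop (4 + 4 * 4 ^ (A + 1))] with x a1 a2 a3 a4 a5
    have hx : (3 : ℝ) ≤ x := by exact_mod_cast a4
    have hx0 : (0 : ℝ) < x := by linarith
    have h40 : (0 : ℝ) < 4 ^ (A + 1) := by positivity
    have hL : 0 < Real.log (x : ℝ) := by linarith
    have hLA : 0 < Real.log (x : ℝ) ^ A := by positivity
    refine a1.trans ?_
    have b1 : (x : ℝ) / Real.log x ^ (A + 1) ≤ (1 / 4) * (x / Real.log x ^ A) := by
      rw [pow_succ, ← div_div, div_le_iff₀ hL]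
      have : 0 ≤ x / Real.log (x : ℝ) ^ A := by positivity
      nlinarith
    have b2 : x * (4 ^ (A + 1) / Real.log (x : ℝ) ^ (A + 1)) ≤ (1 / 4) * (x / Real.log x ^ A) := by
      have : x * (4 ^ (A + 1) / Real.log (x : ℝ) ^ (A + 1)) = 4 ^ (A + 1) * (x / Real.log x ^ A) / Real.log x := by
        rw [pow_succ (Real.log (x : ℝ))]
        field_simp
      rw [this, div_le_iff₀ hL]
      have : 0 ≤ x / Real.log (x : ℝ) ^ A := by positivity
      nlinarith
    have b3 : (K : ℝ) + √(x : ℝ) + 31 * (x : ℝ) ^ (19 / 20 : ℝ) ≤ (1 / 4) * (x / Real.log x ^ A) := by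
      have d1 : (1 : ℝ) ≤ (x : ℝ) ^ (19 / 20 : ℝ) := Real.one_le_rpow (by linarith) (by norm_num)
      have d2 : √(x : ℝ) ≤ (x : ℝ) ^ (19 / 20 : ℝ) := by
        rw [Real.sqrt_eq_rpow]
        exact Real.rpow_le_rpow_of_exponent_le (by linarith) (by norm_num)
      have d3 : (K : ℝ) + √(x : ℝ) + 31 * (x : ℝ) ^ (19 / 20 : ℝ) ≤ (K + 32) * (x : ℝ) ^ (19 / 20 : ℝ) := by
        have : (0 : ℝ) ≤ K := Nat.cast_nonneg K
        nlinarith
      refine d3.trans ?_
      rw [Real.rpow_natCast, div_le_one (by positivity)] at a3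
      have d4 : (x : ℝ) = (x : ℝ) ^ (1 / 20 : ℝ) * (x : ℝ) ^ (19 / 20 : ℝ) := by
        rw [← Real.rpow_add hx0]
        norm_num
      rw [← mul_div_assoc, le_div_iff₀ hLA]
      calc (K + 32) * (x : ℝ) ^ (19 / 20 : ℝ) * Real.log x ^ A = (1 / 4) * ((4 * (K + 32) * Real.log x ^ A) * (x : ℝ) ^ (19 / 20 : ℝ)) := by ring
        _ ≤ (1 / 4) * ((x : ℝ) ^ (1 / 20 : ℝ) * (x : ℝ) ^ (19 / 20 : ℝ)) := by
            apply mul_le_mul_of_nonneg_left _ (by norm_num)
            exact mul_le_mul_of_nonneg_right a3 (by positivity)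
        _ = 1 / 4 * x := by rw [← d4]
    have b4 : 0 ≤ x / Real.log (x : ℝ) ^ A := by positivity
    linarith

/-- the number of ordered representations of `m` as a sum of two primes -/
def g2 (m : ℕ) : ℕ := ((range (m + 1)).filter (fun p => p.Prime ∧ (m - p).Prime)).card

theorem g2_le (n : ℕ) : g2 (2 * n) ≤ 2 * np (2 * n) + 1 := by
  classical
  unfold g2 np
  set I := (range (2 * n)).filter (IP (2 * n)) with hI
  have hsub : (range (2 * n + 1)).filter (fun p => p.Prime ∧ (2 * n - p).Prime) ⊆ (I ∪ I.image (fun p => 2 * n - p)) ∪ {n} := by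
    intro p hp
    rw [mem_filter, mem_range] at hp
    obtain ⟨h1, h2, h3⟩ := hp
    rw [mem_union, mem_union, mem_image, mem_singleton]
    have h4 := h2.pos
    have h5 := h3.pos
    rcases lt_trichotomy p n with h | h | h
    · left; left
      rw [hI, mem_filter, mem_range]
      exact ⟨by omega, h2, h3, by omega⟩
    · exact Or.inr h
    · left; right
      refine ⟨2 * n - p, ?_, by omega⟩
      rw [hI, mem_filter, mem_range]
      refine ⟨by omega, h3, ?_, by omega⟩
      have : 2 * n - (2 * n - p) = p := by omega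
      rw [this]
      exact h2
  calc _ ≤ _ := card_le_card hsub
    _ ≤ (I ∪ I.image (fun p => 2 * n - p)).card + 1 := by
        refine (card_union_le _ _).trans ?_
        rw [card_singleton]
    _ ≤ (I.card + I.card) + 1 := by
        gcongr
        exact (card_union_le _ _).trans (Nat.add_le_add_left card_image_le _)
    _ = _ := by ring

/-- **No exceptions among the numbers with many representations.** -/
theorem part_four (δ : ℝ) (hδ : 0 < δ) : ∃ (C : ℝ) (Q : Set ℕ), (∀ p ∈ Q, p.Prime) ∧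
    (∀ᶠ x : ℕ in atTop, (cQ Q x : ℝ) ≤ C * √((x : ℝ) * Real.log x)) ∧
    ∀ n : ℕ, 1 ≤ n → δ * (((2 * n : ℕ) : ℝ) / Real.log ((2 * n : ℕ) : ℝ) ^ 2) ≤ g2 (2 * n) →
      ∃ p ∈ Q, ∃ q ∈ Q, p + q = 2 * n := by
  classical
  obtain ⟨C, hC, hsum⟩ := al_sum2
  obtain ⟨B, hB⟩ : ∃ B : ℝ, B = 64 / δ := ⟨_, rfl⟩
  have hB0 : 0 < B := by rw [hB]; positivity
  obtain ⟨t, ht⟩ : ∃ t : ℕ → ℝ, t = fun x : ℕ => max 1 (B * Real.log x) := ⟨_, rfl⟩
  have hSl : Sl t := by rw [ht]; exact Sl_l B hB0
  obtain ⟨Ω, _, P, A, hp, hA, hind, hP⟩ := model t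
  have hPf : (fun i => P.real (A i)) = al t := by funext i; exact hP i
  obtain ⟨m₁, h2⟩ := mu_t t hSl (δ / 4) (by positivity)
  -- many representations
  obtain ⟨m₂, hm₂⟩ : ∃ m₂ : ℕ, ∀ m : ℕ, m₂ ≤ m → 1 ≤ δ / 2 * ((m : ℝ) / Real.log m ^ 2) := by
    have := (log_pow_small (2 / δ) 1 (by norm_num) 2).eventually_le_const (show (0 : ℝ) < 1 by norm_num)
    obtain ⟨m₂, h⟩ := eventually_atTop.1 (this.and (eventually_ge_atTop 3))
    refine ⟨m₂, fun m hm => ?_⟩
    obtain ⟨h3, h4⟩ := h m hm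
    have hm0 : (3 : ℝ) ≤ m := by exact_mod_cast h4
    have hl : 0 < Real.log (m : ℝ) := Real.log_pos (by linarith)
    rw [Real.rpow_one, div_le_one (by linarith)] at h3
    have e1 : Real.log (m : ℝ) ^ (2 : ℝ) = Real.log m ^ 2 := by
      rw [← Real.rpow_natCast]
      norm_num
    rw [e1, div_mul_eq_mul_div, div_le_iff₀ hδ] at h3
    rw [← mul_div_assoc, le_div_iff₀ (by positivity)]
    linarith
  obtain ⟨G, hG⟩ : ∃ G : ℕ → Prop, G = fun n => δ * (((2 * n : ℕ) : ℝ) / Real.log ((2 * n : ℕ) : ℝ) ^ 2) ≤ g2 (2 * n) := ⟨_, rfl⟩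
  have hprob : ∀ n : ℕ, m₁ + m₂ + 16 ≤ n → G n → P.real {ω | R A ω (2 * n) = 0} ≤ 1 / (n : ℝ) ^ 2 := by
    intro n hn hGn
    rw [hG] at hGn
    have a1 := hm₂ (2 * n) (by omega)
    have a2 : (g2 (2 * n) : ℝ) ≤ 2 * np (2 * n) + 1 := by exact_mod_cast g2_le n
    have a3 := h2 (2 * n) (by omega) (by
      linarith)
    have a4 := R_zero (P := P) A hA hind (2 * n)
    rw [hPf] at a4
    have hn16 : (16 : ℝ) ≤ n := by exact_mod_cast (by omega : 16 ≤ n)
    have hn0 : (0 : ℝ) < n := by linarith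
    have hs : 4 ≤ √(n : ℝ) := Real.le_sqrt_of_sq_le (by linarith)
    have a5 := floor_ge n (√(n : ℝ)) (by linarith) (by rw [Real.sq_sqrt hn0.le])
    have a6 : Real.log n / 2 ≤ Real.log (⌊√((2 * n : ℕ) : ℝ)⌋₊ : ℝ) := by
      have := Real.log_le_log (by linarith) a5
      rwa [Real.log_sqrt hn0.le] at this
    have a7 : B * (Real.log n / 2) ≤ t (⌊√((2 * n : ℕ) : ℝ)⌋₊) := by
      rw [ht]
      exact (mul_le_mul_of_nonneg_left a6 hB0.le).trans (le_max_right _ _)
    have a8 : 2 * Real.log n ≤ mu (al t) (2 * n) := by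
      refine le_trans (le_of_eq ?_) ((mul_le_mul_of_nonneg_right a7 (show 0 ≤ δ / 4 / 4 by positivity)).trans a3)
      rw [hB]
      field_simp
      ring
    refine a4.trans ((Real.exp_le_exp.2 (neg_le_neg a8)).trans (le_of_eq ?_))
    rw [Real.exp_neg, show 2 * Real.log (n : ℝ) = ((2 : ℕ) : ℝ) * Real.log n by norm_num, ← Real.log_pow,
      Real.exp_log (by positivity), one_div]
  -- Borel–Cantelli
  have hBC : ∀ᵐ ω ∂P, ∀ᶠ n : ℕ in atTop, ¬ (G n ∧ R A ω (2 * n) = 0) := by
    have hsum : ∑' n : ℕ, P {ω | G n ∧ R A ω (2 * n) = 0} ≠ ∞ := by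
      have hb : ∀ n : ℕ, P {ω | G n ∧ R A ω (2 * n) = 0} ≤
          ENNReal.ofReal (if n < m₁ + m₂ + 16 then 1 else 1 / (n : ℝ) ^ 2) := by
        intro n
        by_cases hn : n < m₁ + m₂ + 16
        · rw [if_pos hn, ENNReal.ofReal_one]
          exact prob_le_one
        · rw [if_neg hn]
          by_cases hGn : G n
          · have e : {ω | G n ∧ R A ω (2 * n) = 0} = {ω | R A ω (2 * n) = 0} := by
              ext ω
              simp only [Set.mem_ofPred_eq, hGn, true_and]
            rw [e, ← ofReal_measureReal]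
            exact ENNReal.ofReal_le_ofReal (hprob n (by omega) hGn)
          · have e : {ω | G n ∧ R A ω (2 * n) = 0} = ∅ := by
              ext ω
              simp only [Set.mem_ofPred_eq, hGn, false_and, Set.mem_empty_iff_false]
            rw [e, measure_empty]
            exact zero_le
      refine ne_top_of_le_ne_top ?_ (ENNReal.tsum_le_tsum hb)
      have hs : Summable (fun n : ℕ => if n < m₁ + m₂ + 16 then (1 : ℝ) else 1 / (n : ℝ) ^ 2) := by
        have h3 : Summable (fun n : ℕ => 1 / (n : ℝ) ^ 2) := Real.summable_one_div_nat_pow.2 (by norm_num)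
        refine (summable_congr_cofinite ?_).2 h3
        rw [Filter.EventuallyEq, Filter.eventually_cofinite]
        refine (Set.finite_Iio (m₁ + m₂ + 16)).subset fun j hj => ?_
        by_contra h
        exact hj (if_neg h)
      exact hs.tsum_ofReal_ne_top
    have h4 := measure_limsup_atTop_eq_zero hsum
    rw [limsup_eq_iInf_iSup_of_nat] at h4
    have h5 := measure_eq_zero_iff_ae_notMem.1 h4
    filter_upwards [h5] with ω hω
    simp only [Set.iInf_eq_iInter, Set.iSup_eq_iUnion, Set.mem_iInter, Set.mem_iUnion,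
      Set.mem_ofPred_eq, not_forall, not_exists] at hω
    obtain ⟨n, hn⟩ := hω
    exact eventually_atTop.2 ⟨n, fun j hj => hn j hj⟩
  obtain ⟨ω, hω1, hω2⟩ := (hBC.and (as_thin (P := P) t hSl A hA hind hP C (hsum t hSl))).exists
  obtain ⟨N, hN⟩ := eventually_atTop.1 hω1
  refine ⟨2 * C * √B + 1, QS A ω ∪ {p | p.Prime ∧ p ≤ 2 * N}, ?_, ?_, ?_⟩
  · rintro p (hp | hp)
    · exact hp.1
    · exact hp.1
  · filter_upwards [hω2, logtop.eventually_ge_atTop (max 1 (1 / B)), eventually_ge_atTop ((2 * N + 1) ^ 2)] with x a1 a2 a3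
    have b1 := (le_max_left _ _).trans a2
    have b2 := (le_max_right _ _).trans a2
    rw [div_le_iff₀ hB0] at b2
    have c1 : cQ (QS A ω ∪ {p | p.Prime ∧ p ≤ 2 * N}) x ≤ Qc A ω x + (2 * N + 1) := by
      rw [← cQ_eq]
      unfold cQ
      have hfin : {p : ℕ | p ∈ QS A ω ∧ p ≤ x}.Finite := (Set.finite_Iic x).subset fun p hp => hp.2
      have hfin2 : ((range (2 * N + 1) : Finset ℕ) : Set ℕ).Finite := Finset.finite_toSet _
      calc _ ≤ ({p : ℕ | p ∈ QS A ω ∧ p ≤ x} ∪ ((range (2 * N + 1) : Finset ℕ) : Set ℕ)).ncard := by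
            apply Set.ncard_le_ncard _ (hfin.union hfin2)
            rintro p ⟨hp | hp, hpx⟩
            · exact Or.inl ⟨hp, hpx⟩
            · right
              rw [mem_coe, mem_range]
              have := hp.2
              omega
        _ ≤ _ := by
            refine (Set.ncard_union_le _ _).trans ?_
            rw [Set.ncard_coe_finset, card_range]
    have c2 : (cQ (QS A ω ∪ {p | p.Prime ∧ p ≤ 2 * N}) x : ℝ) ≤ Qc A ω x + (2 * N + 1) := by exact_mod_cast c1
    have c3 : t x = B * Real.log x := by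
      rw [ht]
      exact max_eq_right (by linarith)
    rw [c3] at a1
    have c4 : ((2 * N + 1 : ℕ) : ℝ) ≤ √(x : ℝ) := by
      apply Real.le_sqrt_of_sq_le
      exact_mod_cast a3
    push_cast at c4
    have c5 : √(x : ℝ) ≤ √((x : ℝ) * Real.log x) := by
      apply Real.sqrt_le_sqrt
      have : (0 : ℝ) ≤ x := Nat.cast_nonneg x
      nlinarith
    have c6 : 2 * C * √(B * Real.log x) * √(x : ℝ) = 2 * C * √B * √((x : ℝ) * Real.log x) := by
      rw [Real.sqrt_mul hB0.le, Real.sqrt_mul (Nat.cast_nonneg x)]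
      ring
    rw [c6] at a1
    linarith
  · intro n hn1 hGn
    rcases Nat.lt_or_ge n N with h | h
    · have hpos : 0 < g2 (2 * n) := by
        by_contra hcon
        have h0 : g2 (2 * n) = 0 := by omega
        rw [h0, Nat.cast_zero] at hGn
        have hl : 0 < Real.log ((2 * n : ℕ) : ℝ) := Real.log_pos (by exact_mod_cast (by omega : 1 < 2 * n))
        have : 0 < δ * (((2 * n : ℕ) : ℝ) / Real.log ((2 * n : ℕ) : ℝ) ^ 2) := by
          have : (0 : ℝ) < ((2 * n : ℕ) : ℝ) := by exact_mod_cast (by omega : 0 < 2 * n)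
          positivity
        linarith
      obtain ⟨p, hp⟩ := card_pos.1 hpos
      rw [mem_filter, mem_range] at hp
      obtain ⟨h1, h2, h3⟩ := hp
      exact ⟨p, Or.inr ⟨h2, by omega⟩, 2 * n - p, Or.inr ⟨h3, by omega⟩, by omega⟩
    · have h1 := hN n h
      have h2 : R A ω (2 * n) ≠ 0 := fun h0 => h1 ⟨by rw [hG]; exact hGn, h0⟩
      have h3 : ∃ p ∈ QS A ω, ∃ q ∈ QS A ω, p + q = 2 * n := by
        by_contra hcon
        exact h2 ((R_eq_zero A ω (2 * n)).2 hcon)
      obtain ⟨p, hp, q, hq, hpq⟩ := h3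
      exact ⟨p, Or.inl hp, q, Or.inl hq, hpq⟩

end Pool.Agent.T2H32.TG
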