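import Pool.Agent.T2H32.TG.Cnt

set_option autoImplicit false

/-! # The law of the number of representations -/

open MeasureTheory ProbabilityTheory Filter Topology Finset
open scoped ENNReal

namespace Pool.Agent.T2H32.TG

/-- `i` and `m - i` are primes, `i < m - i` -/
def IP (m i : ℕ) : Prop := i.Prime ∧ (m - i).Prime ∧ 2 * i < m

instance (m : ℕ) : DecidablePred (IP m) := fun i => by unfold IP; infer_instance

/-- the probability that `i` and `m - i` are chosen -/
def bb (α : ℕ → ℝ) (m i : ℕ) : ℝ := if IP m i then α i * α (m - i) else 0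

/-- the expected number of representations with `p < q` -/
def mu (α : ℕ → ℝ) (m : ℕ) : ℝ := ∑ i ∈ range m, bb α m i

theorem bb_nonneg (α : ℕ → ℝ) (h0 : ∀ i, 0 ≤ α i) (m i : ℕ) : 0 ≤ bb α m i := by
  unfold bb
  split_ifs
  · exact mul_nonneg (h0 _) (h0 _)
  · exact le_rfl

theorem bb_le (α : ℕ → ℝ) (h0 : ∀ i, 0 ≤ α i) (h1 : ∀ i, α i ≤ 1) (m i : ℕ) : bb α m i ≤ 1 := by
  unfold bb
  split_ifs
  · exact mul_le_one₀ (h1 _) (h0 _) (h1 _)
  · exact zero_le_one

theorem law_zero_le (b : ℕ → ℝ) (h0 : ∀ i, 0 ≤ b i) (h1 : ∀ i, b i ≤ 1) (N : ℕ) :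
    0 ≤ law b N 0 ∧ law b N 0 ≤ Real.exp (-∑ i ∈ range N, b i) := by
  induction N with
  | zero =>
    unfold law
    rw [Ex_zero]
    simp
  | succ N ih =>
    rw [law_zero, sum_range_succ, neg_add, Real.exp_add]
    have a1 : 1 - b N ≤ Real.exp (-b N) := by
      have := Real.add_one_le_exp (-b N)
      linarith
    have a2 := sub_nonneg.2 (h1 N)
    refine ⟨mul_nonneg a2 ih.1, ?_⟩
    rw [mul_comm (Real.exp (-∑ i ∈ range N, b i))]
    exact mul_le_mul a1 ih.2 ih.1 (Real.exp_pos _).le

variable {Ω : Type*}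

open Classical in
/-- the events that `i` and `m - i` are chosen -/
noncomputable def BP (A : ℕ → Set Ω) (m i : ℕ) : Set Ω := if IP m i then A i ∩ A (m - i) else ∅

theorem R_of_notMem (A : ℕ → Set Ω) (ω : Ω) (m : ℕ) (h : ω ∉ A (m / 2)) : (pick (BP A m) m ω).card = R A ω m := by
  classical
  unfold R
  congr 1
  ext p
  rw [mem_pick, mem_filter, mem_Icc]
  unfold BP
  constructor
  · rintro ⟨h1, h2⟩
    split_ifs at h2 with h3
    · obtain ⟨h4, h5, h6⟩ := h3
      have := h4.one_lt
      exact ⟨⟨by omega, by omega⟩, h4, h5, h2.1, h2.2⟩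
    · exact absurd h2 (Set.notMem_empty _)
  · rintro ⟨⟨h1, h2⟩, h3, h4, h5, h6⟩
    have h7 : 2 * p < m := by
      rcases Nat.lt_or_ge (2 * p) m with h7 | h7
      · exact h7
      · exfalso
        apply h
        have : m / 2 = p := by omega
        rw [this]
        exact h5
    rw [if_pos ⟨h3, h4, h7⟩]
    exact ⟨by omega, h5, h6⟩

theorem pick_le_R (A : ℕ → Set Ω) (ω : Ω) (m : ℕ) (h : R A ω m = 0) : (pick (BP A m) m ω).card = 0 := by
  classical
  rw [card_eq_zero, eq_empty_iff_forall_notMem]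
  intro p hp
  rw [mem_pick] at hp
  unfold BP at hp
  obtain ⟨h1, h2⟩ := hp
  split_ifs at h2 with h3
  · obtain ⟨h4, h5, h6⟩ := h3
    unfold R at h
    rw [card_eq_zero, eq_empty_iff_forall_notMem] at h
    have := h4.one_lt
    exact h p (mem_filter.2 ⟨mem_Icc.2 ⟨by omega, by omega⟩, h4, h5, h2.1, h2.2⟩)
  · exact absurd h2 (Set.notMem_empty _)

variable [MeasurableSpace Ω] {P : Measure Ω}

theorem real_card [IsProbabilityMeasure P] (A : ℕ → Set Ω) (hA : ∀ k, MeasurableSet (A k))
    (hind : iIndepSet A P) (m k : ℕ) :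
    MeasurableSet {ω | (pick (BP A m) m ω).card = k} ∧
    P.real {ω | (pick (BP A m) m ω).card = k} = law (bb (fun i => P.real (A i)) m) m k := by
  classical
  obtain ⟨h1, h2⟩ := pairs_indep (P := P) A hind m (IP m) (fun i hi => hi.2.2) (BP A m)
    (fun i hi => by unfold BP; rw [if_pos hi]) (fun i hi => by unfold BP; rw [if_neg hi]) hA
  have hm : ∀ i, MeasurableSet (BP A m i) := by
    intro i
    unfold BP
    split_ifs
    · exact (hA i).inter (hA _)
    · exact MeasurableSet.empty
  refine ⟨measurable_pick (P := P) (BP A m) hm h1 m (fun T => T.card = k), ?_⟩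
  rw [real_prop (P := P) (BP A m) hm h1 m (fun T => T.card = k)]
  have e : (fun i => P.real (BP A m i)) = bb (fun i => P.real (A i)) m := by
    funext i
    unfold bb
    split_ifs with h
    · rw [h2 i h]
    · unfold BP
      rw [if_neg h, measureReal_empty]
  rw [e]
  unfold law
  congr 1
  funext T
  split_ifs <;> rfl

theorem R_zero [IsProbabilityMeasure P] (A : ℕ → Set Ω) (hA : ∀ k, MeasurableSet (A k))
    (hind : iIndepSet A P) (m : ℕ) :
    P.real {ω | R A ω m = 0} ≤ Real.exp (-mu (fun i => P.real (A i)) m) := by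
  have h0 : ∀ i, 0 ≤ P.real (A i) := fun i => measureReal_nonneg
  have h1 : ∀ i, P.real (A i) ≤ 1 := fun i => measureReal_le_one
  have a1 : P.real {ω | R A ω m = 0} ≤ P.real {ω | (pick (BP A m) m ω).card = 0} :=
    measureReal_mono (fun ω h => pick_le_R A ω m h)
  rw [(real_card (P := P) A hA hind m 0).2] at a1
  exact a1.trans (law_zero_le _ (bb_nonneg _ h0 m) (bb_le _ h0 h1 m) m).2

theorem R_law [IsProbabilityMeasure P] (A : ℕ → Set Ω) (hA : ∀ k, MeasurableSet (A k))
    (hind : iIndepSet A P) (m k : ℕ) :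
    |P.real {ω | R A ω m = k} - pz k (mu (fun i => P.real (A i)) m)| ≤
      2 * ∑ i ∈ range m, bb (fun i => P.real (A i)) m i ^ 2 + P.real (A (m / 2)) := by
  have h0 : ∀ i, 0 ≤ P.real (A i) := fun i => measureReal_nonneg
  have h1 : ∀ i, P.real (A i) ≤ 1 := fun i => measureReal_le_one
  have a1 := law_poisson _ (bb_nonneg _ h0 m) (bb_le _ h0 h1 m) m k
  rw [← (real_card (P := P) A hA hind m k).2] at a1
  have a2 : P.real {ω | R A ω m = k} ≤ P.real {ω | (pick (BP A m) m ω).card = k} + P.real (A (m / 2)) := by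
    refine (measureReal_mono (s₂ := {ω | (pick (BP A m) m ω).card = k} ∪ A (m / 2)) ?_).trans (measureReal_union_le _ _)
    intro ω hω
    by_cases h : ω ∈ A (m / 2)
    · exact Or.inr h
    · left
      have := R_of_notMem A ω m h
      simp only [Set.mem_ofPred_eq] at hω ⊢
      rw [this]
      exact hω
  have a3 : P.real {ω | (pick (BP A m) m ω).card = k} ≤ P.real {ω | R A ω m = k} + P.real (A (m / 2)) := by
    refine (measureReal_mono (s₂ := {ω | R A ω m = k} ∪ A (m / 2)) ?_).trans (measureReal_union_le _ _)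
    intro ω hω
    by_cases h : ω ∈ A (m / 2)
    · exact Or.inr h
    · left
      have := R_of_notMem A ω m h
      simp only [Set.mem_ofPred_eq] at hω ⊢
      rw [← this]
      exact hω
  unfold mu
  rw [abs_le] at a1 ⊢
  constructor <;> linarith [a1.1, a1.2]

end Pool.Agent.T2H32.TG
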