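import Mathlib
import Pool.Agent.Helper923.PNT

set_option autoImplicit false

/-! # Partial summation; the sum of `log p / √p` -/

open Filter Topology Finset

namespace Pool.Agent.T2H32.TG

theorem abel (d φ : ℕ → ℝ) (a : ℕ) (ε K : ℝ) : ∀ b : ℕ, a < b →
    (∀ i, a < i → i < b → φ (i + 1) ≤ φ i) → (∀ i, a < i → i ≤ b → 0 ≤ φ i) →
    (∀ n, a < n → n ≤ b → |∑ i ∈ Ioc a n, d i| ≤ ε * ((n : ℝ) - a) + K) →
    |∑ i ∈ Ioc a b, d i * φ i| ≤ ε * ∑ i ∈ Ioc a b, φ i + K * φ (a + 1) := by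
  have main : ∀ b : ℕ, a < b →
    (∀ i, a < i → i < b → φ (i + 1) ≤ φ i) → (∀ i, a < i → i ≤ b → 0 ≤ φ i) →
    (∀ n, a < n → n ≤ b → |∑ i ∈ Ioc a n, d i| ≤ ε * ((n : ℝ) - a) + K) →
    |∑ i ∈ Ioc a b, d i * φ i - (∑ i ∈ Ioc a b, d i) * φ b| ≤
      ε * (∑ i ∈ Ioc a b, φ i - ((b : ℝ) - a) * φ b) + K * (φ (a + 1) - φ b) := by
    intro b
    induction b with
    | zero => intro h; omega
    | succ b ih =>
      intro hab h1 h2 h3
      have e : Ioc a (b + 1) = insert (b + 1) (Ioc a b) := by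
        ext j
        simp only [mem_Ioc, mem_insert]
        omega
      have hn : b + 1 ∉ Ioc a b := by simp
      rcases Nat.lt_or_ge a b with hb | hb
      · have a1 := ih hb (fun i hi hi' => h1 i hi (by omega)) (fun i hi hi' => h2 i hi (by omega))
          (fun n hn hn' => h3 n hn (by omega))
        have a2 := h3 b hb (by omega)
        have a3 := h1 b hb (by omega)
        rw [e, sum_insert hn, sum_insert hn, sum_insert hn]
        have e2 : d (b + 1) * φ (b + 1) + ∑ i ∈ Ioc a b, d i * φ i - (d (b + 1) + ∑ i ∈ Ioc a b, d i) * φ (b + 1) =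
            (∑ i ∈ Ioc a b, d i * φ i - (∑ i ∈ Ioc a b, d i) * φ b) + (∑ i ∈ Ioc a b, d i) * (φ b - φ (b + 1)) := by
          ring
        rw [e2]
        refine (abs_add_le _ _).trans ?_
        rw [abs_mul, abs_of_nonneg (sub_nonneg.2 a3)]
        have a4 := mul_le_mul_of_nonneg_right a2 (sub_nonneg.2 a3)
        push_cast
        nlinarith
      · have hba : b = a := by omega
        subst hba
        rw [e, Ioc_self, insert_empty_eq, sum_singleton, sum_singleton, sum_singleton]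
        push_cast
        rw [show d (b + 1) * φ (b + 1) - d (b + 1) * φ (b + 1) = 0 by ring, abs_zero]
        nlinarith
  intro b hab h1 h2 h3
  have a1 := main b hab h1 h2 h3
  have a2 := h3 b hab le_rfl
  have a3 := h2 b hab le_rfl
  have a4 := mul_le_mul_of_nonneg_right a2 a3
  rw [← abs_of_nonneg a3, ← abs_mul, abs_of_nonneg a3] at a4
  have a5 : |∑ i ∈ Ioc a b, d i * φ i| ≤ |∑ i ∈ Ioc a b, d i * φ i - (∑ i ∈ Ioc a b, d i) * φ b| +
      |(∑ i ∈ Ioc a b, d i) * φ b| := by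
    have := abs_add_le (∑ i ∈ Ioc a b, d i * φ i - (∑ i ∈ Ioc a b, d i) * φ b) ((∑ i ∈ Ioc a b, d i) * φ b)
    rwa [sub_add_cancel] at this
  nlinarith

/-- `log p / √p` at primes -/
noncomputable def lp (p : ℕ) : ℝ := if p.Prime then Real.log p / √(p : ℝ) else 0

theorem lp_nonneg (p : ℕ) : 0 ≤ lp p := by
  unfold lp
  split_ifs
  · exact div_nonneg (Real.log_natCast_nonneg p) (Real.sqrt_nonneg _)
  · exact le_rfl

/-- the sum of `log p / √p` over the primes `p ≤ x` -/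
noncomputable def SL (x : ℕ) : ℝ := ∑ p ∈ Ioc 0 x, lp p

theorem SL_mono {x y : ℕ} (h : x ≤ y) : SL x ≤ SL y :=
  sum_le_sum_of_subset_of_nonneg (Ioc_subset_Ioc_right h) fun _ _ _ => lp_nonneg _

theorem SL_nonneg (x : ℕ) : 0 ≤ SL x := sum_nonneg fun _ _ => lp_nonneg _

theorem theta_sum (n : ℕ) : ∑ i ∈ Ioc 0 n, (if i.Prime then Real.log i else 0) = Chebyshev.theta n := by
  rw [← sum_filter]
  unfold Chebyshev.theta
  rw [Nat.floor_natCast]

theorem theta_lim : Tendsto (fun n : ℕ => Chebyshev.theta n / n) atTop (𝓝 1) := by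
  have h1 : Tendsto (fun n : ℕ => Chebyshev.psi (n : ℝ) / n) atTop (𝓝 1) :=
    Pool.Agent.Helper923.PNT.psi_div_tendsto.comp tendsto_natCast_atTop_atTop
  have h2 : Tendsto (fun n : ℕ => 2 * (Real.log n / √(n : ℝ))) atTop (𝓝 0) := by
    have h3 : Tendsto (fun x : ℝ => Real.log x / x ^ (1 / 2 : ℝ)) atTop (𝓝 0) :=
      (isLittleO_log_rpow_atTop (by norm_num)).tendsto_div_nhds_zero
    have h4 := (h3.comp tendsto_natCast_atTop_atTop).const_mul 2
    rw [mul_zero] at h4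
    refine h4.congr fun n => ?_
    simp only [Function.comp]
    rw [Real.sqrt_eq_rpow]
  have h5 : Tendsto (fun n : ℕ => Chebyshev.psi (n : ℝ) / n - 2 * (Real.log n / √(n : ℝ))) atTop (𝓝 1) := by
    simpa using h1.sub h2
  refine tendsto_of_tendsto_of_tendsto_of_le_of_le' h5 h1 ?_ ?_
  · filter_upwards [eventually_ge_atTop 1] with n hn
    have hn0 : (1 : ℝ) ≤ n := by exact_mod_cast hn
    have a1 := Chebyshev.psi_sub_theta_le hn0
    have hs : √(n : ℝ) * √(n : ℝ) = n := Real.mul_self_sqrt (by linarith)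
    have hs0 : 0 < √(n : ℝ) := Real.sqrt_pos.2 (by linarith)
    have e : 2 * (Real.log n / √(n : ℝ)) = (2 * √(n : ℝ) * Real.log n) / n := by
      rw [eq_div_iff (by linarith)]
      calc 2 * (Real.log n / √(n : ℝ)) * n = 2 * (Real.log n / √(n : ℝ)) * (√(n : ℝ) * √(n : ℝ)) := by rw [hs]
        _ = 2 * √(n : ℝ) * Real.log n := by field_simp
    rw [e, ← sub_div]
    apply div_le_div_of_nonneg_right _ (by linarith)
    linarith
  · filter_upwards [eventually_ge_atTop 1] with n hn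
    have hn0 : (1 : ℝ) ≤ n := by exact_mod_cast hn
    exact div_le_div_of_nonneg_right (Chebyshev.theta_le_psi n) (by linarith)

theorem sqrt_sum (x : ℕ) : 2 * √((x : ℝ) + 1) - 2 ≤ ∑ i ∈ Ioc 0 x, 1 / √(i : ℝ) ∧ ∑ i ∈ Ioc 0 x, 1 / √(i : ℝ) ≤ 2 * √(x : ℝ) := by
  induction x with
  | zero => simp
  | succ x ih =>
    have e : Ioc 0 (x + 1) = insert (x + 1) (Ioc 0 x) := by
      ext j
      simp only [mem_Ioc, mem_insert]
      omega
    have hn : x + 1 ∉ Ioc 0 x := by simp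
    rw [e, sum_insert hn]
    push_cast
    have hx : (0 : ℝ) ≤ x := Nat.cast_nonneg x
    have s0 := Real.mul_self_sqrt hx
    have s1 := Real.mul_self_sqrt (show (0 : ℝ) ≤ x + 1 by linarith)
    have s2 := Real.mul_self_sqrt (show (0 : ℝ) ≤ x + 1 + 1 by linarith)
    have p0 := Real.sqrt_nonneg (x : ℝ)
    have p1 : 0 < √((x : ℝ) + 1) := Real.sqrt_pos.2 (by linarith)
    have p2 : 0 < √((x : ℝ) + 1 + 1) := Real.sqrt_pos.2 (by linarith)
    have m1 : √(x : ℝ) ≤ √((x : ℝ) + 1) := Real.sqrt_le_sqrt (by linarith)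
    have m2 : √((x : ℝ) + 1) ≤ √((x : ℝ) + 1 + 1) := Real.sqrt_le_sqrt (by linarith)
    have q1 : 1 / √((x : ℝ) + 1) ≤ 2 * √((x : ℝ) + 1) - 2 * √(x : ℝ) := by
      rw [div_le_iff₀ p1]
      nlinarith [sq_nonneg (√((x : ℝ) + 1) - √(x : ℝ))]
    have q2 : 2 * √((x : ℝ) + 1 + 1) - 2 * √((x : ℝ) + 1) ≤ 1 / √((x : ℝ) + 1) := by
      rw [le_div_iff₀ p1]
      nlinarith [sq_nonneg (√((x : ℝ) + 1 + 1) - √((x : ℝ) + 1))]
    constructor
    · linarith [ih.1]
    · linarith [ih.2]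

theorem SL_approx (ε : ℝ) (hε : 0 < ε) : ∃ K : ℝ, 0 ≤ K ∧ ∀ x : ℕ, 0 < x →
    |SL x - ∑ i ∈ Ioc 0 x, 1 / √(i : ℝ)| ≤ ε * (2 * √(x : ℝ)) + K := by
  have h1 := theta_lim
  rw [Metric.tendsto_atTop] at h1
  obtain ⟨n0, h2⟩ := h1 ε hε
  refine ⟨Chebyshev.theta n0 + n0, add_nonneg (Chebyshev.theta_nonneg _) (Nat.cast_nonneg _), fun x hx => ?_⟩
  have hK : (0 : ℝ) ≤ Chebyshev.theta n0 + n0 := add_nonneg (Chebyshev.theta_nonneg _) (Nat.cast_nonneg _)
  have a1 := abel (fun i => (if i.Prime then Real.log i else 0) - 1) (fun i => 1 / √(i : ℝ)) 0 ε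
    (Chebyshev.theta n0 + n0) x hx (fun i hi _ => by
      apply one_div_le_one_div_of_le (Real.sqrt_pos.2 (by exact_mod_cast hi))
      apply Real.sqrt_le_sqrt
      push_cast
      linarith) (fun i hi _ => by positivity) (fun n hn _ => by
      rw [sum_sub_distrib, theta_sum, sum_const, Nat.card_Ioc, nsmul_eq_mul, mul_one, Nat.sub_zero, Nat.cast_zero, sub_zero]
      have hn0 : (0 : ℝ) < n := by exact_mod_cast hn
      rcases Nat.lt_or_ge n n0 with h3 | h3
      · have b1 : Chebyshev.theta n ≤ Chebyshev.theta n0 := Chebyshev.theta_mono (by exact_mod_cast h3.le)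
        have b2 := Chebyshev.theta_nonneg (n : ℝ)
        have b3 : (n : ℝ) ≤ n0 := by exact_mod_cast h3.le
        have b4 := Chebyshev.theta_nonneg (n0 : ℝ)
        rw [abs_le]
        constructor <;> nlinarith
      · have b1 := (h2 n h3).le
        rw [Real.dist_eq] at b1
        have b2 : |Chebyshev.theta n - n| = |Chebyshev.theta n / n - 1| * n := by
          rw [← abs_of_pos hn0, ← abs_mul, abs_of_pos hn0]
          congr 1
          field_simp
        rw [b2]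
        have := mul_le_mul_of_nonneg_right b1 hn0.le
        linarith)
  have e : SL x - ∑ i ∈ Ioc 0 x, 1 / √(i : ℝ) = ∑ i ∈ Ioc 0 x, ((if i.Prime then Real.log i else 0) - 1) * (1 / √(i : ℝ)) := by
    unfold SL
    rw [← sum_sub_distrib]
    refine sum_congr rfl fun i _ => ?_
    unfold lp
    split_ifs <;> ring
  rw [e]
  refine a1.trans ?_
  have a2 := mul_le_mul_of_nonneg_left (sqrt_sum x).2 hε.le
  simp only [zero_add, Nat.cast_one, Real.sqrt_one, div_one, mul_one]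
  linarith

theorem SL_lim : Tendsto (fun x : ℕ => SL x / √(x : ℝ)) atTop (𝓝 2) := by
  rw [Metric.tendsto_atTop]
  intro ε hε
  obtain ⟨K, hK, h⟩ := SL_approx (ε / 8) (by positivity)
  obtain ⟨n1, hn1⟩ := exists_nat_gt (((K + 2) * (4 / ε)) ^ 2)
  refine ⟨n1 + 1, fun x hx => ?_⟩
  have hx0 : 0 < x := by omega
  have hxr : (0 : ℝ) < x := by exact_mod_cast hx0
  have hs0 : 0 < √(x : ℝ) := Real.sqrt_pos.2 hxr
  have a1 := h x hx0
  have a2 := sqrt_sum x
  have a3 : √(x : ℝ) ≤ √((x : ℝ) + 1) := Real.sqrt_le_sqrt (by linarith)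
  have a4 : (K + 2) * (4 / ε) < √(x : ℝ) := by
    apply Real.lt_sqrt_of_sq_lt
    refine hn1.trans ?_
    exact_mod_cast (by omega : n1 < x)
  have a5 : K + 2 < √(x : ℝ) * (ε / 4) := by
    have := mul_lt_mul_of_pos_right a4 (show 0 < ε / 4 by positivity)
    have e : (K + 2) * (4 / ε) * (ε / 4) = K + 2 := by field_simp
    rwa [e] at this
  rw [Real.dist_eq]
  have e : SL x / √(x : ℝ) - 2 = (SL x - 2 * √(x : ℝ)) / √(x : ℝ) := by
    field_simp
  rw [e, abs_div, abs_of_pos hs0, div_lt_iff₀ hs0]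
  rw [abs_le] at a1
  rw [abs_lt]
  constructor <;> nlinarith [a1.1, a1.2, a2.1, a2.2]

/-- a bound for all `x` -/
theorem SL_bound : ∃ C : ℝ, 0 < C ∧ ∀ x : ℕ, SL x ≤ C * √(x : ℝ) := by
  obtain ⟨K, hK, h⟩ := SL_approx 1 one_pos
  refine ⟨K + 4, by linarith, fun x => ?_⟩
  rcases Nat.eq_zero_or_pos x with hx | hx
  · subst hx
    unfold SL
    simp
  · have a1 := h x hx
    have a2 := sqrt_sum x
    rw [abs_le] at a1
    have hxr : (1 : ℝ) ≤ x := by exact_mod_cast hx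
    have a3 : 1 ≤ √(x : ℝ) := by rw [Real.one_le_sqrt]; exact hxr
    nlinarith [a1.2, a2.2]

end Pool.Agent.T2H32.TG
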