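import Pool.Agent.T2H32.TG.Low
import Pool.Agent.T2H32.TG.PS
import Pool.Agent.W93.PG6

set_option autoImplicit false

/-! # Almost all even numbers have the predicted numbers of Goldbach pairs in all windows -/

open Filter Topology Finset

namespace Pool.Agent.T2H32.TG

open Pool.Agent.W93.PG (WinP pg_windows cnt)
open Pool.Agent.W93.RD (Str pw val)
open Pool.Agent.H560R3.GB (sing)

theorem bin (m : ℕ) : ∀ k : ℕ, ∑ j ∈ range k, (m / 2 ^ j % 2) * 2 ^ j = m % 2 ^ k := by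
  intro k
  induction k with
  | zero => simp [Nat.mod_one]
  | succ k ih =>
    rw [sum_range_succ, ih, Nat.mod_pow_succ]
    ring

open Classical in
theorem win_density (ε : ℝ) (hε : 0 < ε) (A U : ℕ) : ∃ x₀ : ℕ, ∀ x : ℕ, x₀ ≤ x →
    (((Icc 1 x).filter (fun n => ¬ WinP ε A (2 * n))).card : ℝ) ≤ x / Real.log x ^ U := by
  obtain ⟨k₀, h⟩ := pg_windows 2 2 1 A (U + 1) 0 (by norm_num) (1 / 2) ε (by norm_num) hε (WinP ε A)
    (fun m _ _ h => h)
  refine ⟨2 ^ (k₀ + 4), fun x hx => ?_⟩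
  have hx16 : 16 ≤ x := by
    refine le_trans ?_ hx
    calc 16 = 2 ^ 4 := by norm_num
      _ ≤ 2 ^ (k₀ + 4) := Nat.pow_le_pow_right (by norm_num) (by omega)
  obtain ⟨k, hk⟩ : ∃ k, k = Nat.log 2 (2 * x) + 1 := ⟨_, rfl⟩
  have hk1 : 2 * x < 2 ^ k := by rw [hk]; exact Nat.lt_pow_succ_log_self (by norm_num) _
  have hk2 : 2 ^ k ≤ 4 * x := by
    rw [hk, pow_succ]
    have := Nat.pow_log_le_self 2 (show 2 * x ≠ 0 by omega)
    omega
  have hk3 : k₀ + 4 < k := by
    have h1 : 2 ^ (k₀ + 4) < 2 ^ k := by omega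
    exact (Nat.pow_lt_pow_iff_right (by norm_num)).1 h1
  obtain ⟨S, hS⟩ : ∃ S, S = (Icc 1 x).filter (fun n => ¬ WinP ε A (2 * n)) := ⟨_, rfl⟩
  rw [← hS]
  obtain ⟨dig, hdig⟩ : ∃ dig : ℕ → (Fin k → ℕ), dig = fun (n : ℕ) (j : Fin k) => (2 * n) / 2 ^ (j : ℕ) % 2 := ⟨_, rfl⟩
  have hval : ∀ n ∈ Icc 1 x, val 2 (dig n) = 2 * n := by
    intro n hn
    rw [mem_Icc] at hn
    unfold Pool.Agent.W93.RD.val
    rw [hdig]
    rw [Fin.sum_univ_eq_sum_range (fun j => (2 * n) / 2 ^ j % 2 * 2 ^ j), bin]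
    exact Nat.mod_eq_of_lt (by omega)
  have hmem : ∀ n ∈ Icc 1 x, dig n ∈ Str 2 k := by
    intro n _
    unfold Str
    rw [Fintype.mem_piFinset]
    intro j
    rw [hdig, mem_range]
    exact Nat.mod_lt _ (by norm_num)
  have h1 := h k (by omega) (fun _ _ => 1 / 2) (fun _ _ _ => by norm_num) (fun _ _ _ => by norm_num)
    (fun _ _ => by rw [sum_const, card_range, nsmul_eq_mul]; norm_num) 0 (by simp)
    (fun d => 0 < (0 : ℤ) + (val 2 d : ℤ) ∧ 2 ∣ (0 : ℤ) + (val 2 d : ℤ) ∧ ¬ WinP ε A ((0 : ℤ) + (val 2 d : ℤ)).toNat)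
    (Classical.decPred _) (fun d _ hd => hd)
  have h2 : (S.card : ℝ) * (1 / 2) ^ k ≤ 1 / (k : ℝ) ^ (U + 1) := by
    refine le_trans ?_ h1
    have hinj : Set.InjOn dig (S : Set ℕ) := by
      intro n hn n' hn' he
      have a1 := hval n (mem_filter.1 (hS ▸ hn)).1
      have a2 := hval n' (mem_filter.1 (hS ▸ hn')).1
      rw [he] at a1
      omega
    have e1 : (S.card : ℝ) * (1 / 2) ^ k = ∑ d ∈ S.image dig, (1 / 2 : ℝ) ^ k := by
      rw [sum_const, card_image_of_injOn hinj, nsmul_eq_mul]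
    rw [e1]
    have hsub : S.image dig ⊆ Str 2 k := by
      intro d hd
      obtain ⟨n, hn, rfl⟩ := mem_image.1 hd
      exact hmem n (mem_filter.1 (hS ▸ hn)).1
    refine le_trans (le_of_eq (sum_congr rfl fun d hd => ?_)) (sum_le_sum_of_subset_of_nonneg hsub fun d _ _ => ?_)
    · obtain ⟨n, hn, rfl⟩ := mem_image.1 hd
      have hn' := mem_filter.1 (hS ▸ hn)
      have a1 := hval n hn'.1
      have a2 := (mem_Icc.1 hn'.1).1
      rw [if_pos]
      · unfold pw
        rw [prod_const, card_univ, Fintype.card_fin]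
      · rw [a1]
        refine ⟨by push_cast; omega, ⟨n, by push_cast; ring⟩, ?_⟩
        have e2 : ((0 : ℤ) + ((2 * n : ℕ) : ℤ)).toNat = 2 * n := by rw [zero_add, Int.toNat_natCast]
        rw [e2]
        exact hn'.2
    · split_ifs
      · unfold pw
        positivity
      · exact le_rfl
  have hkr : (4 : ℝ) ≤ k := by exact_mod_cast (by omega : 4 ≤ k)
  have hk0 : (0 : ℝ) < k := by linarith
  have hxr : (16 : ℝ) ≤ x := by exact_mod_cast hx16
  have hlog0 : 0 < Real.log x := Real.log_pos (by linarith)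
  have hlog : Real.log x ≤ k := by
    have a1 : (x : ℝ) ≤ (2 : ℝ) ^ k := by exact_mod_cast (by omega : x ≤ 2 ^ k)
    have a2 := Real.log_le_log (by linarith) a1
    rw [Real.log_pow] at a2
    have a3 : Real.log 2 ≤ 1 := by
      have := Real.log_two_lt_d9
      linarith
    nlinarith
  have h3 : (S.card : ℝ) ≤ 2 ^ k * (1 / (k : ℝ) ^ (U + 1)) := by
    have a1 := mul_le_mul_of_nonneg_left h2 (show (0 : ℝ) ≤ 2 ^ k by positivity)
    have a2 : (2 : ℝ) ^ k * ((S.card : ℝ) * (1 / 2) ^ k) = S.card := by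
      rw [one_div, inv_pow]
      field_simp
    rwa [a2] at a1
  have h4 : ((2 : ℝ) ^ k) ≤ 4 * x := by exact_mod_cast hk2
  calc (S.card : ℝ) ≤ 2 ^ k * (1 / (k : ℝ) ^ (U + 1)) := h3
    _ ≤ (4 * x) * (1 / (k : ℝ) ^ (U + 1)) := mul_le_mul_of_nonneg_right h4 (by positivity)
    _ = (x / (k : ℝ) ^ U) * (4 / k) := by rw [pow_succ]; field_simp
    _ ≤ (x / (k : ℝ) ^ U) * 1 := by
        apply mul_le_mul_of_nonneg_left _ (by positivity)
        rw [div_le_one hk0]
        exact hkr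
    _ = x / (k : ℝ) ^ U := mul_one _
    _ ≤ x / Real.log x ^ U := by
        apply div_le_div_of_nonneg_left (by linarith) (by positivity)
        exact pow_le_pow_left₀ hlog0.le hlog U

/-- the number of pairs -/
def np (m : ℕ) : ℕ := ((range m).filter (IP m)).card

theorem np_eq (n : ℕ) (hn : 1 ≤ n) : np (2 * n) = cnt (2 * n) 0 (n - 1) := by
  unfold np cnt
  congr 1
  ext i
  rw [mem_filter, mem_filter, mem_range, mem_Ioc]
  unfold IP
  constructor
  · rintro ⟨_, h2, h3, h4⟩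
    exact ⟨⟨h2.pos, by omega⟩, h2, h3⟩
  · rintro ⟨⟨h1, h2⟩, h3, h4⟩
    exact ⟨by omega, h3, h4, by omega⟩

theorem log_large (C : ℝ) : ∃ m₀ : ℕ, ∀ m : ℕ, m₀ ≤ m → C ≤ Real.log m := by
  have h := (Real.tendsto_log_atTop.comp tendsto_natCast_atTop_atTop).eventually_ge_atTop C
  exact eventually_atTop.1 h

theorem np_lower : ∃ n₀ : ℕ, ∀ n : ℕ, n₀ ≤ n → WinP (1 / 2) 1 (2 * n) →
    (1 / 6) * (((2 * n : ℕ) : ℝ) / Real.log ((2 * n : ℕ) : ℝ) ^ 2) ≤ np (2 * n) := by
  obtain ⟨m₀, hm₀⟩ := log_large 4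
  refine ⟨m₀ + 16, fun n hn hW => ?_⟩
  rw [np_eq n (by omega)]
  obtain ⟨L, hL⟩ : ∃ L, L = Real.log ((2 * n : ℕ) : ℝ) := ⟨_, rfl⟩
  have hL3 : 4 ≤ L := by rw [hL]; exact hm₀ _ (by omega)
  have hnr : (16 : ℝ) ≤ n := by exact_mod_cast (by omega : 16 ≤ n)
  have h1 : ((n - 1 : ℕ) : ℝ) = (n : ℝ) - 1 := by
    rw [Nat.cast_sub (by omega)]
    simp
  have a1 := hW 0 (n - 1) (by omega) (by omega) (by
    rw [← hL, pow_one, h1, Nat.cast_zero, sub_zero, div_le_iff₀ (by linarith)]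
    push_cast
    nlinarith)
  rw [← hL, h1, Nat.cast_zero, sub_zero] at a1
  have a2 := Pool.Agent.W93.GB.one_le_sing (2 * n)
  have a3 := (abs_le.1 a1).1
  rw [← hL]
  have a4 : (n - 1 : ℝ) / L ^ 2 ≤ sing (2 * n) * ((n : ℝ) - 1) / L ^ 2 := by
    apply div_le_div_of_nonneg_right _ (by positivity)
    nlinarith
  have a5 : (1 / 3 : ℝ) * (((2 * n : ℕ) : ℝ) / L ^ 2) ≤ (n - 1 : ℝ) / L ^ 2 := by
    rw [← mul_div_assoc]
    apply div_le_div_of_nonneg_right _ (by positivity)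
    push_cast
    linarith
  linarith

/-- lower bound for the expected number of representations -/
theorem mu_lower (α : ℕ → ℝ) (h0 : ∀ i, 0 ≤ α i) (t0 : ℝ) (ht0 : 0 ≤ t0) (m : ℕ) (hm : 1 ≤ m)
    (hα : ∀ p : ℕ, p.Prime → √(m : ℝ) < p → p < m → √t0 * (Real.log p / √(p : ℝ)) ≤ α p) :
    t0 * (Real.log m ^ 2 / (2 * m)) * ((np m : ℝ) - √(m : ℝ) - 1) ≤ mu α m := by
  classical
  have hmr : (1 : ℝ) ≤ m := by exact_mod_cast hm
  have hs : √(m : ℝ) * √(m : ℝ) = m := Real.mul_self_sqrt (by linarith)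
  have hs1 : 1 ≤ √(m : ℝ) := by rw [Real.one_le_sqrt]; exact hmr
  have hlm : 0 ≤ Real.log m := Real.log_nonneg hmr
  have hlog : Real.log (√(m : ℝ)) = Real.log m / 2 := by rw [Real.log_sqrt (by linarith)]
  obtain ⟨T, hT⟩ : ∃ T : Finset ℕ, T = ((range m).filter (IP m)).filter (fun i : ℕ => √(m : ℝ) < (i : ℝ)) := ⟨_, rfl⟩
  have c1 : (np m : ℝ) - √(m : ℝ) - 1 ≤ T.card := by
    have d1 : np m ≤ T.card + (((range m).filter (IP m)).filter (fun i : ℕ => ¬ √(m : ℝ) < (i : ℝ))).card := by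
      unfold np
      rw [hT, card_filter_add_card_filter_not]
    have d2 : (((range m).filter (IP m)).filter (fun i : ℕ => ¬ √(m : ℝ) < (i : ℝ))).card ≤ ⌊√(m : ℝ)⌋₊ + 1 := by
      calc _ ≤ (range (⌊√(m : ℝ)⌋₊ + 1)).card := by
            apply card_le_card
            intro i hi
            rw [mem_filter] at hi
            rw [mem_range, Nat.lt_succ_iff]
            exact Nat.le_floor (not_lt.1 hi.2)
        _ = _ := card_range _
    have d3 : (⌊√(m : ℝ)⌋₊ : ℝ) ≤ √(m : ℝ) := Nat.floor_le (by linarith)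
    have d4 : (np m : ℝ) ≤ T.card + (⌊√(m : ℝ)⌋₊ + 1) := by exact_mod_cast d1.trans (Nat.add_le_add_left d2 _)
    linarith
  have c2 : ∀ i ∈ T, t0 * (Real.log m ^ 2 / (2 * m)) ≤ bb α m i := by
    intro i hi
    rw [hT, mem_filter, mem_filter, mem_range] at hi
    obtain ⟨⟨him, hI⟩, hsi⟩ := hi
    unfold bb
    rw [if_pos hI]
    obtain ⟨hp, hq, h2i⟩ := hI
    have hir : (0 : ℝ) < i := by linarith
    have hqr : ((m - i : ℕ) : ℝ) = (m : ℝ) - i := by rw [Nat.cast_sub (by omega)]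
    have h2r : 2 * (i : ℝ) < m := by exact_mod_cast h2i
    have hsq : √(m : ℝ) < ((m - i : ℕ) : ℝ) := by rw [hqr]; linarith
    have e1 := hα i hp hsi him
    have e2 := hα (m - i) hq hsq (by have := hp.pos; omega)
    have hq0 : (0 : ℝ) < ((m - i : ℕ) : ℝ) := by linarith
    have l1 : Real.log m / 2 ≤ Real.log i := by
      rw [← hlog]
      exact Real.log_le_log (by linarith) hsi.le
    have l2 : Real.log m / 2 ≤ Real.log ((m - i : ℕ) : ℝ) := by
      rw [← hlog]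
      exact Real.log_le_log (by linarith) hsq.le
    have r1 : 0 < √(i : ℝ) := Real.sqrt_pos.2 hir
    have r2 : 0 < √((m - i : ℕ) : ℝ) := Real.sqrt_pos.2 hq0
    have r3 : √(i : ℝ) * √((m - i : ℕ) : ℝ) ≤ m / 2 := by
      rw [← Real.sqrt_mul hir.le, Real.sqrt_le_left (by positivity), hqr]
      nlinarith [sq_nonneg ((m : ℝ) - 2 * i)]
    calc t0 * (Real.log m ^ 2 / (2 * m)) = t0 * ((Real.log m / 2) * (Real.log m / 2) / (m / 2)) := by
          field_simp
      _ ≤ t0 * ((Real.log i * Real.log ((m - i : ℕ) : ℝ)) / (√(i : ℝ) * √((m - i : ℕ) : ℝ))) := by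
          apply mul_le_mul_of_nonneg_left _ ht0
          apply div_le_div₀
          · exact mul_nonneg (by linarith) (by linarith)
          · exact mul_le_mul l1 l2 (by linarith) (by linarith)
          · positivity
          · exact r3
      _ = (√t0 * (Real.log i / √(i : ℝ))) * (√t0 * (Real.log ((m - i : ℕ) : ℝ) / √((m - i : ℕ) : ℝ))) := by
          have : √t0 * √t0 = t0 := Real.mul_self_sqrt ht0
          calc _ = (√t0 * √t0) * ((Real.log i * Real.log ((m - i : ℕ) : ℝ)) / (√(i : ℝ) * √((m - i : ℕ) : ℝ))) := by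
                rw [this]
            _ = _ := by field_simp
      _ ≤ α i * α (m - i) := by
          apply mul_le_mul e1 e2 _ (h0 i)
          have : 0 ≤ Real.log ((m - i : ℕ) : ℝ) := by linarith
          positivity
  have c3 : (T.card : ℝ) * (t0 * (Real.log m ^ 2 / (2 * m))) ≤ mu α m := by
    unfold mu
    calc (T.card : ℝ) * (t0 * (Real.log m ^ 2 / (2 * m))) = ∑ i ∈ T, t0 * (Real.log m ^ 2 / (2 * m)) := by
          rw [sum_const, nsmul_eq_mul]
      _ ≤ ∑ i ∈ T, bb α m i := sum_le_sum c2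
      _ ≤ ∑ i ∈ range m, bb α m i := by
          apply sum_le_sum_of_subset_of_nonneg
          · rw [hT]
            exact (filter_subset _ _).trans (filter_subset _ _)
          · intro i _ _
            exact bb_nonneg α h0 m i
  refine le_trans ?_ c3
  rw [mul_comm]
  apply mul_le_mul_of_nonneg_right c1
  positivity

end Pool.Agent.T2H32.TG
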