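import Pool.Agent.T2H32.TG.Arc
import Pool.Agent.T2H32.TG.Exc2

set_option autoImplicit false

/-! # The expected number of representations for the weights `a log p / √p` -/

open MeasureTheory ProbabilityTheory Filter Topology Finset
open scoped ENNReal

namespace Pool.Agent.T2H32.TG

open Pool.Agent.W93.PG (WinP cnt)
open Pool.Agent.H560R3.GB (sing)

/-- the probability that `p` is chosen -/
noncomputable def am (a : ℝ) (p : ℕ) : ℝ := min 1 (a * lp p)

theorem am_nonneg (a : ℝ) (ha : 0 ≤ a) (p : ℕ) : 0 ≤ am a p := le_min zero_le_one (mul_nonneg ha (lp_nonneg p))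

theorem am_le_one (a : ℝ) (p : ℕ) : am a p ≤ 1 := min_le_left _ _

theorem am_le (a : ℝ) (p : ℕ) : am a p ≤ a * lp p := min_le_right _ _

theorem lp_le (p : ℕ) : lp p ≤ Real.log p / √(p : ℝ) := by
  unfold lp
  split_ifs
  · exact le_rfl
  · exact div_nonneg (Real.log_natCast_nonneg p) (Real.sqrt_nonneg _)

theorem am_eq (a : ℝ) (ha : 0 ≤ a) : ∀ᶠ p : ℕ in atTop, am a p = a * lp p := by
  have h2 := (log_pow_small a (1 / 2) (by norm_num) 1).eventually_le_const (show (0 : ℝ) < 1 by norm_num)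
  filter_upwards [h2] with p hp
  apply min_eq_right
  rw [Real.rpow_one, ← Real.sqrt_eq_rpow] at hp
  calc a * lp p ≤ a * (Real.log p / √(p : ℝ)) := mul_le_mul_of_nonneg_left (lp_le p) ha
    _ = a * Real.log p / √(p : ℝ) := by ring
    _ ≤ 1 := hp

theorem range_Ioc (f : ℕ → ℝ) (h0 : f 0 = 0) (x : ℕ) : ∑ i ∈ range (x + 1), f i = ∑ i ∈ Ioc 0 x, f i := by
  rw [sum_range_eq_add_Ico _ (by omega), h0, zero_add]
  apply sum_congr _ fun _ _ => rfl
  ext j
  simp only [mem_Ico, mem_Ioc]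
  omega

theorem am_zero (a : ℝ) : am a 0 = 0 := by simp [am, lp]

theorem am_sum : ∃ C : ℝ, 0 < C ∧ ∀ a : ℝ, 0 ≤ a → ∀ x : ℕ, ∑ i ∈ range (x + 1), am a i ≤ a * C * √(x : ℝ) := by
  obtain ⟨C, hC, h1⟩ := SL_bound
  refine ⟨C, hC, fun a ha x => ?_⟩
  rw [range_Ioc _ (am_zero a)]
  calc ∑ i ∈ Ioc 0 x, am a i ≤ ∑ i ∈ Ioc 0 x, a * lp i := sum_le_sum fun i _ => am_le a i
    _ = a * SL x := by rw [← mul_sum]; rfl
    _ ≤ a * (C * √(x : ℝ)) := mul_le_mul_of_nonneg_left (h1 x) ha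
    _ = _ := by ring

theorem am_lim (a : ℝ) (ha : 0 ≤ a) : Tendsto (fun x : ℕ => (∑ i ∈ range (x + 1), am a i) / √(x : ℝ)) atTop (𝓝 (2 * a)) := by
  obtain ⟨p₀, hp₀⟩ := eventually_atTop.1 (am_eq a ha)
  have h1 : ∀ x : ℕ, p₀ ≤ x → ∑ i ∈ range (x + 1), am a i = a * SL x - (a * SL p₀ - ∑ i ∈ Ioc 0 p₀, am a i) := by
    intro x hx
    rw [range_Ioc _ (am_zero a)]
    induction x, hx using Nat.le_induction with
    | base => ring
    | succ x hx ih =>
      have e : Ioc 0 (x + 1) = insert (x + 1) (Ioc 0 x) := by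
        ext j
        simp only [mem_Ioc, mem_insert]
        omega
      have hn : x + 1 ∉ Ioc 0 x := by simp
      have e2 : SL (x + 1) = lp (x + 1) + SL x := by
        unfold SL
        rw [e, sum_insert hn]
      rw [e, sum_insert hn, ih, e2, hp₀ (x + 1) (by omega)]
      ring
  have h2 : Tendsto (fun x : ℕ => a * (SL x / √(x : ℝ)) - (a * SL p₀ - ∑ i ∈ Ioc 0 p₀, am a i) / √(x : ℝ)) atTop (𝓝 (a * 2 - 0)) := by
    apply (SL_lim.const_mul a).sub
    apply Tendsto.div_atTop tendsto_const_nhds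
    exact Real.tendsto_sqrt_atTop.comp tendsto_natCast_atTop_atTop
  rw [sub_zero, mul_comm a 2] at h2
  refine h2.congr' ?_
  filter_upwards [eventually_ge_atTop p₀] with x hx
  rw [h1 x hx]
  ring

/-- sums over pairs -/
theorem conv_bound (α : ℕ → ℝ) (h0 : ∀ i, 0 ≤ α i) (x : ℕ) (Y : ℕ → ℕ) (Y0 : ℕ) (hY : ∀ n ∈ Icc 1 x, Y n ≤ Y0) :
    ∑ n ∈ Icc 1 x, ∑ i ∈ range (Y n), bb α (2 * n) i ≤ (∑ i ∈ range Y0, α i) * ∑ j ∈ range (2 * x + 1), α j := by
  classical
  calc ∑ n ∈ Icc 1 x, ∑ i ∈ range (Y n), bb α (2 * n) i ≤ ∑ n ∈ Icc 1 x, ∑ i ∈ range Y0, (if i ≤ 2 * n then α i * α (2 * n - i) else 0) := by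
        apply sum_le_sum
        intro n hn
        refine (sum_le_sum_of_subset_of_nonneg (range_subset_range.2 (hY n hn)) fun i _ _ => bb_nonneg α h0 _ i).trans ?_
        apply sum_le_sum
        intro i _
        unfold bb
        by_cases h : IP (2 * n) i
        · rw [if_pos h, if_pos (by have := h.2.2; omega)]
        · rw [if_neg h]
          split_ifs
          · exact mul_nonneg (h0 _) (h0 _)
          · exact le_rfl
    _ = ∑ i ∈ range Y0, α i * ∑ n ∈ Icc 1 x, (if i ≤ 2 * n then α (2 * n - i) else 0) := by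
        rw [sum_comm]
        refine sum_congr rfl fun i _ => ?_
        rw [mul_sum]
        refine sum_congr rfl fun n _ => ?_
        split_ifs <;> simp
    _ ≤ ∑ i ∈ range Y0, α i * ∑ j ∈ range (2 * x + 1), α j := by
        apply sum_le_sum
        intro i _
        apply mul_le_mul_of_nonneg_left _ (h0 i)
        rw [← sum_filter]
        have hinj : Set.InjOn (fun n => 2 * n - i) (((Icc 1 x).filter (fun n => i ≤ 2 * n) : Finset ℕ) : Set ℕ) := by
          intro n hn n' hn' he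
          have h1 := (mem_filter.1 (mem_coe.1 hn)).2
          have h2 := (mem_filter.1 (mem_coe.1 hn')).2
          simp only at he
          omega
        rw [← sum_image (f := α) (g := fun n => 2 * n - i) hinj]
        apply sum_le_sum_of_subset_of_nonneg
        · intro j hj
          obtain ⟨n, hn, rfl⟩ := mem_image.1 hj
          rw [mem_filter, mem_Icc] at hn
          rw [mem_range]
          omega
        · intro j _ _
          exact h0 j
    _ = _ := by rw [sum_mul]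

/-- the pairs with both members large -/
theorem mu_large (a : ℝ) (ha : 0 < a) (δ : ℝ) (hδ : 0 < δ) (hδ1 : δ ≤ 1 / 8) : ∃ n₀ : ℕ, ∀ n : ℕ, n₀ ≤ n → WinP (δ ^ 2) 1 (2 * n) →
    |∑ i ∈ Ioc ⌊2 * δ * n⌋₊ (n - 1), bb (am a) (2 * n) i - Real.pi * a ^ 2 / 2 * sing (2 * n)| ≤
      (Real.arccos (1 - 3 * δ) + 8 * δ) * (a ^ 2 * sing (2 * n)) ∧ ⌊2 * δ * n⌋₊ ≤ n - 1 := by
  obtain ⟨p₀, hp₀⟩ := eventually_atTop.1 (am_eq a ha.le)
  obtain ⟨m₀, hm₀⟩ := log_large (2 / δ + 2 * |Real.log δ| / δ)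
  obtain ⟨n₁, hn₁⟩ := exists_nat_ge (((p₀ : ℝ) + 2) / δ)
  refine ⟨m₀ + n₁ + 16, fun n hn hW => ?_⟩
  have hn16 : (16 : ℝ) ≤ n := by exact_mod_cast (by omega : 16 ≤ n)
  have hn0 : (0 : ℝ) < n := by linarith
  have hn1r : ((p₀ : ℝ) + 2) / δ ≤ n := hn₁.trans (by exact_mod_cast (by omega : n₁ ≤ n))
  rw [div_le_iff₀ hδ] at hn1r
  have hLlow := hm₀ (2 * n) (by omega)
  obtain ⟨L, hL⟩ : ∃ L, L = Real.log ((2 * n : ℕ) : ℝ) := ⟨_, rfl⟩
  rw [← hL] at hLlow
  have hLa : 2 / δ ≤ L := by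
    have : 0 ≤ 2 * |Real.log δ| / δ := by positivity
    linarith
  have hLb : 2 * |Real.log δ| / δ ≤ L := by
    have : 0 ≤ 2 / δ := by positivity
    linarith
  rw [div_le_iff₀ hδ] at hLa hLb
  have hL0 : 0 < L := by nlinarith
  obtain ⟨y, hy⟩ : ∃ y, y = ⌊2 * δ * n⌋₊ := ⟨_, rfl⟩
  rw [← hy]
  have hy1 : (y : ℝ) ≤ 2 * δ * n := by rw [hy]; exact Nat.floor_le (by positivity)
  have hy2 : 2 * δ * n < (y : ℝ) + 1 := by rw [hy]; exact Nat.lt_floor_add_one _
  have hp0 : (0 : ℝ) ≤ p₀ := Nat.cast_nonneg _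
  have hy3 : δ * n ≤ y := by nlinarith
  have hyp : p₀ ≤ y := by
    have : (p₀ : ℝ) ≤ y := by nlinarith
    exact_mod_cast this
  have hy4 : 1 ≤ y := by
    have : (1 : ℝ) ≤ y := by nlinarith
    exact_mod_cast this
  have hc : ((n - 1 : ℕ) : ℝ) = n - 1 := by rw [Nat.cast_sub (by omega)]; simp
  have hyn : y + 1 ≤ n - 1 := by
    have : (y : ℝ) + 1 ≤ ((n - 1 : ℕ) : ℝ) := by rw [hc]; nlinarith
    exact_mod_cast this
  refine ⟨?_, by omega⟩
  obtain ⟨s, hs⟩ : ∃ s, s = sing (2 * n) := ⟨_, rfl⟩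
  have hs1 : 1 ≤ s := by rw [hs]; exact Pool.Agent.W93.GB.one_le_sing (2 * n)
  have hps := pair_sum n y (δ ^ 2) (by positivity) hy4 hyn (fun z h1 h2 => by
    have := hW 0 z (by omega) (by omega) (by
      rw [← hL, pow_one, Nat.cast_zero, sub_zero, div_le_iff₀ hL0]
      have hz : (y : ℝ) ≤ z := by exact_mod_cast h1
      push_cast
      nlinarith)
    rw [Nat.cast_zero, sub_zero] at this
    exact this)
  obtain ⟨hΦ1, hΦ2⟩ := ph_total n y (by omega) (by omega)
  rw [← hL, ← hs] at hps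
  rw [← hs]
  obtain ⟨Φ, hΦ⟩ : ∃ Φ, Φ = ∑ i ∈ Ioc y (n - 1), ph n i := ⟨_, rfl⟩
  obtain ⟨W, hWd⟩ : ∃ W, W = ∑ i ∈ Ioc y (n - 1), (if IP (2 * n) i then ph n i else 0) := ⟨_, rfl⟩
  rw [← hΦ, ← hWd] at hps
  rw [← hΦ] at hΦ1 hΦ2
  -- the error
  have e1 : 2 * δ ^ 2 * (s / L ^ 2) * (n / √((y : ℝ) * n)) ≤ 2 * δ * (s / L ^ 2) := by
    have b1 : √δ * n ≤ √((y : ℝ) * n) := by
      apply Real.le_sqrt_of_sq_le
      rw [mul_pow, Real.sq_sqrt hδ.le]
      nlinarith
    have b2 : 0 < √δ := Real.sqrt_pos.2 hδ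
    have b3 : (n : ℝ) / √((y : ℝ) * n) ≤ 1 / √δ := by
      rw [div_le_div_iff₀ (by positivity) b2]
      linarith
    have b4 : δ ≤ √δ := Real.le_sqrt_of_sq_le (by nlinarith)
    have b5 : 1 / √δ ≤ 1 / δ := one_div_le_one_div_of_le hδ b4
    calc 2 * δ ^ 2 * (s / L ^ 2) * (n / √((y : ℝ) * n)) ≤ 2 * δ ^ 2 * (s / L ^ 2) * (1 / δ) :=
          mul_le_mul_of_nonneg_left (b3.trans b5) (by positivity)
      _ = 2 * δ * (s / L ^ 2) := by field_simp
  have e2 := abs_le.1 (hps.trans e1)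
  have hπ := Real.pi_lt_four
  -- `L² W` is near `s Φ`
  have e3 : L ^ 2 * W ≤ s * (Φ + 2 * δ) := by
    have : W ≤ s / L ^ 2 * Φ + 2 * δ * (s / L ^ 2) := by linarith [e2.2]
    calc L ^ 2 * W ≤ L ^ 2 * (s / L ^ 2 * Φ + 2 * δ * (s / L ^ 2)) := mul_le_mul_of_nonneg_left this (by positivity)
      _ = s * (Φ + 2 * δ) := by field_simp
  have e4 : s * (Φ - 2 * δ) ≤ L ^ 2 * W := by
    have : s / L ^ 2 * Φ - 2 * δ * (s / L ^ 2) ≤ W := by linarith [e2.1]
    calc s * (Φ - 2 * δ) = L ^ 2 * (s / L ^ 2 * Φ - 2 * δ * (s / L ^ 2)) := by field_simp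
      _ ≤ L ^ 2 * W := mul_le_mul_of_nonneg_left this (by positivity)
  -- termwise
  have hterm : ∀ i ∈ Ioc y (n - 1), (1 - δ) * (a ^ 2 * L ^ 2 * (if IP (2 * n) i then ph n i else 0)) ≤ bb (am a) (2 * n) i ∧
      bb (am a) (2 * n) i ≤ a ^ 2 * L ^ 2 * (if IP (2 * n) i then ph n i else 0) := by
    intro i hi
    rw [mem_Ioc] at hi
    unfold bb
    by_cases h : IP (2 * n) i
    · rw [if_pos h, if_pos h]
      obtain ⟨h1, h2, h3⟩ := h
      rw [hp₀ i (by omega), hp₀ (2 * n - i) (by omega)]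
      unfold lp
      rw [if_pos h1, if_pos h2]
      have hir : (0 : ℝ) < i := by exact_mod_cast h1.pos
      have hin : (i : ℝ) < n := by exact_mod_cast (by omega : i < n)
      have hq : ((2 * n - i : ℕ) : ℝ) = 2 * n - i := by
        rw [Nat.cast_sub (by omega)]
        push_cast
        ring
      have hiy : (y : ℝ) + 1 ≤ i := by exact_mod_cast (by omega : y + 1 ≤ i)
      have l1 : Real.log i ≤ L := by
        rw [hL]
        apply Real.log_le_log hir
        push_cast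
        linarith
      have l2 : Real.log ((2 * n - i : ℕ) : ℝ) ≤ L := by
        rw [hL, hq]
        push_cast
        apply Real.log_le_log (by linarith)
        linarith
      have l3 : (1 - δ / 2) * L ≤ Real.log i := by
        have h2n0 : (0 : ℝ) < ((2 * n : ℕ) : ℝ) := by
          push_cast
          linarith
        have c1 : Real.log (δ * ((2 * n : ℕ) : ℝ)) ≤ Real.log i := by
          apply Real.log_le_log (mul_pos hδ h2n0)
          push_cast
          nlinarith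
        rw [Real.log_mul hδ.ne' h2n0.ne', ← hL] at c1
        have c2 := neg_abs_le (Real.log δ)
        linarith
      have l4 : (1 - δ / 2) * L ≤ Real.log ((2 * n - i : ℕ) : ℝ) := by
        have c1 : Real.log n ≤ Real.log ((2 * n - i : ℕ) : ℝ) := by
          rw [hq]
          apply Real.log_le_log hn0
          linarith
        have c2 : L = Real.log 2 + Real.log n := by
          rw [hL]
          push_cast
          rw [Real.log_mul (by norm_num) hn0.ne']
        have c3 := Real.log_two_lt_d9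
        nlinarith
      have hδL : 0 ≤ (1 - δ / 2) * L := by
        apply mul_nonneg _ hL0.le
        linarith
      have e5 : a * (Real.log i / √(i : ℝ)) * (a * (Real.log ((2 * n - i : ℕ) : ℝ) / √((2 * n - i : ℕ) : ℝ))) =
          a ^ 2 * (Real.log i * Real.log ((2 * n - i : ℕ) : ℝ)) * ph n i := by
        unfold ph
        rw [Real.sqrt_mul hir.le, hq]
        have : 0 < √(i : ℝ) := Real.sqrt_pos.2 hir
        have : 0 < √(2 * (n : ℝ) - i) := Real.sqrt_pos.2 (by linarith)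
        field_simp
      rw [e5]
      have hph : 0 ≤ ph n i := by unfold ph; positivity
      have f1 : Real.log i * Real.log ((2 * n - i : ℕ) : ℝ) ≤ L ^ 2 := by
        rw [sq]
        exact mul_le_mul l1 l2 (hδL.trans l4) hL0.le
      have f2 : (1 - δ) * L ^ 2 ≤ Real.log i * Real.log ((2 * n - i : ℕ) : ℝ) := by
        have := mul_le_mul l3 l4 hδL (hδL.trans l3)
        refine le_trans ?_ this
        nlinarith [sq_nonneg (δ * L)]
      constructor
      · calc (1 - δ) * (a ^ 2 * L ^ 2 * ph n i) = a ^ 2 * ((1 - δ) * L ^ 2) * ph n i := by ring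
          _ ≤ _ := mul_le_mul_of_nonneg_right (mul_le_mul_of_nonneg_left f2 (by positivity)) hph
      · exact mul_le_mul_of_nonneg_right (mul_le_mul_of_nonneg_left f1 (by positivity)) hph
    · rw [if_neg h, if_neg h]
      simp
  have g1 : ∑ i ∈ Ioc y (n - 1), bb (am a) (2 * n) i ≤ a ^ 2 * (L ^ 2 * W) := by
    refine (sum_le_sum fun i hi => (hterm i hi).2).trans (le_of_eq ?_)
    rw [hWd, mul_sum, mul_sum]
    exact sum_congr rfl fun i _ => by ring
  have g2 : (1 - δ) * (a ^ 2 * (L ^ 2 * W)) ≤ ∑ i ∈ Ioc y (n - 1), bb (am a) (2 * n) i := by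
    refine le_trans (le_of_eq ?_) (sum_le_sum fun i hi => (hterm i hi).1)
    rw [hWd, mul_sum, mul_sum, mul_sum]
    exact sum_congr rfl fun i _ => by ring
  have ha2 : 0 < a ^ 2 := by positivity
  have hρ0 : 0 ≤ Real.arccos (1 - 3 * δ) := Real.arccos_nonneg _
  have hρ : Real.arccos (1 - ((y : ℝ) + 1) / n) ≤ Real.arccos (1 - 3 * δ) := by
    apply Real.arccos_le_arccos
    have : ((y : ℝ) + 1) / n ≤ 3 * δ := by
      rw [div_le_iff₀ hn0]
      nlinarith
    linarith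
  have g3 := mul_le_mul_of_nonneg_left e3 ha2.le
  have g4 := mul_le_mul_of_nonneg_left e4 ha2.le
  have has : 0 < a ^ 2 * s := by positivity
  rw [abs_le]
  constructor
  · -- lower bound
    have k1 : (1 - δ) * (a ^ 2 * (s * (Φ - 2 * δ))) ≤ ∑ i ∈ Ioc y (n - 1), bb (am a) (2 * n) i :=
      (mul_le_mul_of_nonneg_left g4 (by linarith)).trans g2
    have k2 : a ^ 2 * s * (Φ - 4 * δ) ≤ (1 - δ) * (a ^ 2 * (s * (Φ - 2 * δ))) := by
      have : Φ - 4 * δ ≤ (1 - δ) * (Φ - 2 * δ) := by nlinarith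
      have := mul_le_mul_of_nonneg_left this has.le
      linarith
    have k3 : a ^ 2 * s * (Real.pi / 2 - Real.arccos (1 - 3 * δ) - 4 * δ) ≤ a ^ 2 * s * (Φ - 4 * δ) :=
      mul_le_mul_of_nonneg_left (by linarith) has.le
    have k4 : 0 ≤ a ^ 2 * s * δ := by positivity
    nlinarith
  · have k1 : a ^ 2 * (s * (Φ + 2 * δ)) ≤ a ^ 2 * s * (Real.pi / 2 + 2 * δ) := by
      have := mul_le_mul_of_nonneg_left (show Φ + 2 * δ ≤ Real.pi / 2 + 2 * δ by linarith) has.le
      linarith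
    have k4 : 0 ≤ a ^ 2 * s * δ := by positivity
    have k5 : 0 ≤ Real.arccos (1 - 3 * δ) * (a ^ 2 * s) := by positivity
    nlinarith

end Pool.Agent.T2H32.TG
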