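import Pool.Agent.T2H32.TG.PL

set_option autoImplicit false

/-! # The Poisson law for the number of representations by a random set of primes -/

open MeasureTheory ProbabilityTheory Filter Topology Finset
open scoped ENNReal

namespace Pool.Agent.T2H32.TG

open Pool.Agent.W93.PG (WinP cnt)
open Pool.Agent.H560R3.GB (sing)

/-- the part of `mu` from the small primes -/
noncomputable def smp (a δ : ℝ) (n : ℕ) : ℝ := ∑ i ∈ range (⌊2 * δ * n⌋₊ + 1), bb (am a) (2 * n) i

theorem mu_split (a : ℝ) (y n : ℕ) (h : y ≤ n - 1) :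
    mu (am a) (2 * n) = ∑ i ∈ range (y + 1), bb (am a) (2 * n) i + ∑ i ∈ Ioc y (n - 1), bb (am a) (2 * n) i := by
  classical
  unfold mu
  rcases Nat.eq_zero_or_pos n with h0 | h0
  · subst h0
    have hy : y = 0 := by omega
    subst hy
    simp only [mul_zero, range_zero, sum_empty, zero_add, range_one, sum_singleton, Nat.zero_sub, Ioc_self, add_zero]
    unfold bb
    rw [if_neg]
    rintro ⟨h1, _, _⟩
    exact Nat.not_prime_zero h1
  · have e : range (2 * n) = (range (y + 1) ∪ Ioc y (n - 1)) ∪ Ico n (2 * n) := by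
      ext j
      simp only [mem_range, mem_union, mem_Ioc, mem_Ico]
      omega
    have hd1 : Disjoint (range (y + 1) ∪ Ioc y (n - 1)) (Ico n (2 * n)) := by
      rw [disjoint_left]
      intro j hj hj'
      simp only [mem_range, mem_union, mem_Ioc, mem_Ico] at hj hj'
      omega
    have hd2 : Disjoint (range (y + 1)) (Ioc y (n - 1)) := by
      rw [disjoint_left]
      intro j hj hj'
      simp only [mem_range, mem_Ioc] at hj hj'
      omega
    rw [e, sum_union hd1, sum_union hd2]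
    have : ∑ i ∈ Ico n (2 * n), bb (am a) (2 * n) i = 0 := by
      apply sum_eq_zero
      intro i hi
      rw [mem_Ico] at hi
      unfold bb
      rw [if_neg]
      rintro ⟨_, _, h3⟩
      omega
    rw [this, add_zero]

/-- squares -/
theorem bb_sq (a : ℝ) (ha : 0 < a) (η : ℝ) (hη : 0 < η) : ∃ n₀ : ℕ, ∀ n : ℕ, n₀ ≤ n →
    ∑ i ∈ range (2 * n), bb (am a) (2 * n) i ^ 2 ≤ η * mu (am a) (2 * n) := by
  have h2 := (log_pow_small (4 * a) (1 / 2) (by norm_num) 1).eventually_le_const hη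
  obtain ⟨n₀, hn₀⟩ := eventually_atTop.1 (h2.and (eventually_ge_atTop 3))
  refine ⟨n₀, fun n hn => ?_⟩
  obtain ⟨h3, h4⟩ := hn₀ n hn
  unfold mu
  rw [mul_sum]
  apply sum_le_sum
  intro i hi
  rw [mem_range] at hi
  have hb0 := bb_nonneg (am a) (am_nonneg a ha.le) (2 * n) i
  rw [sq]
  apply mul_le_mul_of_nonneg_right _ hb0
  unfold bb
  split_ifs with h
  · obtain ⟨h5, h6, h7⟩ := h
    have hn3 : (3 : ℝ) ≤ n := by exact_mod_cast h4
    have hn0 : (0 : ℝ) < n := by linarith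
    have hq : (n : ℝ) ≤ ((2 * n - i : ℕ) : ℝ) := by exact_mod_cast (by omega : n ≤ 2 * n - i)
    have hq2 : ((2 * n - i : ℕ) : ℝ) ≤ 2 * n := by exact_mod_cast (by omega : 2 * n - i ≤ 2 * n)
    have hlog : 0 < Real.log (n : ℝ) := Real.log_pos (by linarith)
    have a1 : am a (2 * n - i) ≤ a * (Real.log ((2 * n - i : ℕ) : ℝ) / √((2 * n - i : ℕ) : ℝ)) :=
      (am_le a _).trans (mul_le_mul_of_nonneg_left (lp_le _) ha.le)
    have a2 : Real.log ((2 * n - i : ℕ) : ℝ) ≤ 2 * Real.log n := by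
      have b1 := Real.log_le_log (by linarith) hq2
      rw [Real.log_mul (by norm_num) hn0.ne'] at b1
      have b2 : Real.log 2 ≤ Real.log n := Real.log_le_log (by norm_num) (by linarith)
      linarith
    have hs : 0 < √(n : ℝ) := Real.sqrt_pos.2 hn0
    have a3 : Real.log ((2 * n - i : ℕ) : ℝ) / √((2 * n - i : ℕ) : ℝ) ≤ 2 * Real.log n / √(n : ℝ) := by
      apply div_le_div₀ (by positivity) a2 hs (Real.sqrt_le_sqrt hq)
    rw [Real.rpow_one, ← Real.sqrt_eq_rpow] at h3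
    have a4 : am a (2 * n - i) ≤ η := by
      refine a1.trans ((mul_le_mul_of_nonneg_left a3 ha.le).trans ?_)
      have : a * (2 * Real.log n / √(n : ℝ)) ≤ 4 * a * Real.log n / √(n : ℝ) := by
        rw [← mul_div_assoc]
        apply div_le_div_of_nonneg_right _ hs.le
        nlinarith [mul_pos ha hlog]
      exact this.trans h3
    calc am a i * am a (2 * n - i) ≤ 1 * η := mul_le_mul (am_le_one a i) a4 (am_nonneg a ha.le _) zero_le_one
      _ = η := one_mul η
  · exact hη.le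

/-- the small number in the comparison -/
noncomputable def hh (δ : ℝ) : ℝ := 2 * √δ + 2 * (Real.arccos (1 - 3 * δ) + 10 * δ)

theorem hh_small (ε : ℝ) (hε : 0 < ε) : ∃ δ : ℝ, 0 < δ ∧ δ ≤ 1 / 8 ∧ hh δ < ε ∧ Real.arccos (1 - 3 * δ) + 8 * δ ≤ 1 / 2 := by
  have hc : Continuous hh := by
    unfold hh
    have h1 : Continuous fun δ : ℝ => Real.arccos (1 - 3 * δ) := Real.continuous_arccos.comp (by fun_prop)
    exact (continuous_const.mul Real.continuous_sqrt).add (continuous_const.mul (h1.add (by fun_prop)))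
  have h0 : hh 0 = 0 := by
    unfold hh
    simp
  have h1 := hc.tendsto 0
  rw [h0, Metric.tendsto_nhds_nhds] at h1
  obtain ⟨r, hr, h2⟩ := h1 (min ε 1) (lt_min hε one_pos)
  refine ⟨min (r / 2) (1 / 8), by positivity, min_le_right _ _, ?_, ?_⟩
  all_goals
    obtain ⟨d, hd⟩ : ∃ d, d = min (r / 2) (1 / 8) := ⟨_, rfl⟩
    have hd0 : 0 < d := by rw [hd]; positivity
    have hdr : d < r := by
      have : d ≤ r / 2 := by rw [hd]; exact min_le_left _ _
      linarith
    have h3 := h2 (x := d) (by rw [Real.dist_eq, sub_zero, abs_of_pos hd0]; exact hdr)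
    rw [Real.dist_eq, sub_zero] at h3
    have h4 := (le_abs_self _).trans_lt h3
    rw [← hd]
  · exact h4.trans_le (min_le_left _ _)
  · have h5 := h4.trans_le (min_le_right _ _)
    unfold hh at h5
    have : 0 ≤ √d := Real.sqrt_nonneg _
    linarith

variable {Ω : Type*} [MeasurableSpace Ω] {P : Measure Ω}

/-- comparison in the mean with the Poisson probabilities -/
theorem mean_pois [IsProbabilityMeasure P] (a : ℝ) (ha : 0 < a) (A : ℕ → Set Ω) (hA : ∀ k, MeasurableSet (A k))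
    (hind : iIndepSet A P) (hP : ∀ k, P.real (A k) = am a k) (k : ℕ) (ε : ℝ) (hε : 0 < ε) :
    ∀ᶠ x : ℕ in atTop, ∑ n ∈ Icc 1 x, |P.real {ω | R A ω (2 * n) = k} - pz k (Real.pi * a ^ 2 / 2 * sing (2 * n))| ≤ ε * x := by
  classical
  have hPf : (fun i => P.real (A i)) = am a := by funext i; exact hP i
  obtain ⟨C, hC, hsum⟩ := am_sum
  obtain ⟨δ, hδ, hδ1, hδ2, hδ3⟩ := hh_small (ε / (2 * (a * C) ^ 2)) (by positivity)
  obtain ⟨n₁, h1⟩ := mu_large a ha δ hδ hδ1
  obtain ⟨n₂, h2⟩ := bb_sq a ha δ hδ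
  obtain ⟨n₃, h3⟩ := win_density (δ ^ 2) (by positivity) 1 1
  obtain ⟨ρ, hρ⟩ : ∃ ρ, ρ = Real.arccos (1 - 3 * δ) + 8 * δ := ⟨_, rfl⟩
  have hρ0 : 0 ≤ ρ := by
    rw [hρ]
    have := Real.arccos_nonneg (1 - 3 * δ)
    positivity
  obtain ⟨lam, hlam⟩ : ∃ lam, lam = Real.pi * a ^ 2 / 2 := ⟨_, rfl⟩
  have hlam0 : 0 < lam := by rw [hlam]; positivity
  rw [← hlam]
  obtain ⟨N0, hN0⟩ : ∃ N0, N0 = n₁ + n₂ := ⟨_, rfl⟩
  -- termwise
  have hterm : ∀ n : ℕ, |P.real {ω | R A ω (2 * n) = k} - pz k (lam * sing (2 * n))| ≤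
      (if n < N0 then (1 : ℝ) else 0) + (if ¬ WinP (δ ^ 2) 1 (2 * n) then (1 : ℝ) else 0) + am a n + smp a δ n +
      (ρ + 2 * δ) * mu (am a) (2 * n) := by
    intro n
    have hs1 : 1 ≤ sing (2 * n) := Pool.Agent.W93.GB.one_le_sing (2 * n)
    have c0 : |P.real {ω | R A ω (2 * n) = k} - pz k (lam * sing (2 * n))| ≤ 1 := by
      have b1 : 0 ≤ P.real {ω | R A ω (2 * n) = k} := measureReal_nonneg
      have b2 : P.real {ω | R A ω (2 * n) = k} ≤ 1 := measureReal_le_one
      have b3 := pz_nonneg k (lam * sing (2 * n)) (by positivity)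
      have b4 := pz_le_one k (lam * sing (2 * n)) (by positivity)
      rw [abs_le]
      constructor <;> linarith
    have c1 : 0 ≤ am a n := am_nonneg a ha.le n
    have c2 : 0 ≤ smp a δ n := sum_nonneg fun i _ => bb_nonneg _ (am_nonneg a ha.le) _ i
    have c3 : 0 ≤ mu (am a) (2 * n) := sum_nonneg fun i _ => bb_nonneg _ (am_nonneg a ha.le) _ i
    have c4 : 0 ≤ (ρ + 2 * δ) * mu (am a) (2 * n) := by positivity
    by_cases d1 : n < N0
    · rw [if_pos d1]
      split_ifs <;> linarith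
    · rw [if_neg d1]
      by_cases d2 : WinP (δ ^ 2) 1 (2 * n)
      · rw [if_neg (not_not.2 d2), zero_add, zero_add]
        obtain ⟨e1, e2⟩ := h1 n (by omega) d2
        have e3 := h2 n (by omega)
        have e4 := R_law (P := P) A hA hind (2 * n) k
        rw [hPf, hP, Nat.mul_div_cancel_left n (by norm_num : 0 < 2)] at e4
        have e5 := mu_split a _ n e2
        rw [← hlam, ← hρ] at e1
        have e6 : |mu (am a) (2 * n) - lam * sing (2 * n)| ≤ smp a δ n + ρ * (a ^ 2 * sing (2 * n)) := by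
          have : mu (am a) (2 * n) - lam * sing (2 * n) = smp a δ n +
              (∑ i ∈ Ioc ⌊2 * δ * n⌋₊ (n - 1), bb (am a) (2 * n) i - lam * sing (2 * n)) := by
            rw [e5]
            unfold smp
            ring
          rw [this]
          refine (abs_add_le _ _).trans ?_
          rw [abs_of_nonneg c2]
          linarith
        have e7 : a ^ 2 * sing (2 * n) ≤ mu (am a) (2 * n) := by
          have f1 := (abs_le.1 e1).1
          have f2 : ρ * (a ^ 2 * sing (2 * n)) ≤ 1 / 2 * (a ^ 2 * sing (2 * n)) := by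
            apply mul_le_mul_of_nonneg_right _ (by positivity)
            rw [hρ]
            exact hδ3
          have f3 : lam * sing (2 * n) = Real.pi / 2 * (a ^ 2 * sing (2 * n)) := by rw [hlam]; ring
          have f4 := Real.pi_gt_three
          have f5 : 0 < a ^ 2 * sing (2 * n) := by positivity
          have f6 : ∑ i ∈ Ioc ⌊2 * δ * n⌋₊ (n - 1), bb (am a) (2 * n) i ≤ mu (am a) (2 * n) := by
            rw [e5]
            have : 0 ≤ ∑ i ∈ range (⌊2 * δ * n⌋₊ + 1), bb (am a) (2 * n) i := c2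
            linarith
          nlinarith
        have e8 := pz_lip k (mu (am a) (2 * n)) (lam * sing (2 * n)) c3 (by positivity)
        have e9 : |P.real {ω | R A ω (2 * n) = k} - pz k (lam * sing (2 * n))| ≤
            |P.real {ω | R A ω (2 * n) = k} - pz k (mu (am a) (2 * n))| + |pz k (mu (am a) (2 * n)) - pz k (lam * sing (2 * n))| := by
          have := abs_add_le (P.real {ω | R A ω (2 * n) = k} - pz k (mu (am a) (2 * n))) (pz k (mu (am a) (2 * n)) - pz k (lam * sing (2 * n)))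
          rwa [sub_add_sub_cancel] at this
        have e10 := mul_le_mul_of_nonneg_left e7 hρ0
        linarith
      · rw [if_pos d2]
        linarith
  -- the sums
  have hall : ∀ᶠ x : ℕ in atTop, (N0 : ℝ) + x / Real.log x ^ 1 + a * C * √(x : ℝ) ≤ ε / 2 * x := by
    have g1 := logtop.eventually_ge_atTop (6 / ε)
    have g2 := (tendsto_natCast_atTop_atTop (R := ℝ)).eventually_ge_atTop (6 * N0 / ε)
    have g3 := (tendsto_natCast_atTop_atTop (R := ℝ)).eventually_ge_atTop ((6 * (a * C) / ε) ^ 2)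
    filter_upwards [g1, g2, g3, eventually_ge_atTop 1] with x a1 a2 a3 a4
    have hx0 : (0 : ℝ) < x := by exact_mod_cast a4
    have b1 : (N0 : ℝ) ≤ ε / 6 * x := by
      rw [div_le_iff₀ hε] at a2
      linarith
    have b2 : (x : ℝ) / Real.log x ^ 1 ≤ ε / 6 * x := by
      have hl : 0 < Real.log (x : ℝ) := lt_of_lt_of_le (by positivity) a1
      rw [pow_one, div_le_iff₀ hl]
      rw [div_le_iff₀ hε] at a1
      nlinarith
    have b3 : a * C * √(x : ℝ) ≤ ε / 6 * x := by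
      have c1 : 6 * (a * C) / ε ≤ √(x : ℝ) := Real.le_sqrt_of_sq_le a3
      rw [div_le_iff₀ hε] at c1
      have c2 : √(x : ℝ) * √(x : ℝ) = x := Real.mul_self_sqrt hx0.le
      have c3 : 0 ≤ √(x : ℝ) := Real.sqrt_nonneg _
      nlinarith
    linarith
  filter_upwards [hall, eventually_ge_atTop n₃, eventually_ge_atTop 1] with x hx1 hx2 hx3
  have hxr : (1 : ℝ) ≤ x := by exact_mod_cast hx3
  have hx0 : (0 : ℝ) < x := by linarith
  refine (sum_le_sum fun n _ => hterm n).trans ?_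
  rw [sum_add_distrib, sum_add_distrib, sum_add_distrib, sum_add_distrib, ← mul_sum]
  have s1 : ∑ n ∈ Icc 1 x, (if n < N0 then (1 : ℝ) else 0) ≤ N0 := by
    rw [← sum_filter, sum_const, nsmul_eq_mul, mul_one]
    have : ((Icc 1 x).filter (fun n => n < N0)).card ≤ N0 := by
      calc _ ≤ (range N0).card := by
            apply card_le_card
            intro n hn
            rw [mem_filter] at hn
            exact mem_range.2 hn.2
        _ = _ := card_range _
    exact_mod_cast this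
  have s2 : ∑ n ∈ Icc 1 x, (if ¬ WinP (δ ^ 2) 1 (2 * n) then (1 : ℝ) else 0) ≤ x / Real.log x ^ 1 := by
    rw [← sum_filter, sum_const, nsmul_eq_mul, mul_one]
    exact h3 x hx2
  have s3 : ∑ n ∈ Icc 1 x, am a n ≤ a * C * √(x : ℝ) := by
    refine le_trans ?_ (hsum a ha.le x)
    apply sum_le_sum_of_subset_of_nonneg
    · intro j hj
      rw [mem_Icc] at hj
      rw [mem_range]
      omega
    · intro j _ _
      exact am_nonneg a ha.le j
  have hs2x : ∑ i ∈ range (2 * x + 1), am a i ≤ a * C * (√2 * √(x : ℝ)) := by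
    have := hsum a ha.le (2 * x)
    rw [Nat.cast_mul, Nat.cast_ofNat, Real.sqrt_mul (by norm_num)] at this
    exact this
  have hs2x0 : 0 ≤ ∑ i ∈ range (2 * x + 1), am a i := sum_nonneg fun i _ => am_nonneg a ha.le i
  have hsq2 : √(2 : ℝ) * √2 = 2 := Real.mul_self_sqrt (by norm_num)
  have hsqx : √(x : ℝ) * √(x : ℝ) = x := Real.mul_self_sqrt hx0.le
  have s4 : ∑ n ∈ Icc 1 x, smp a δ n ≤ (a * C) ^ 2 * (2 * √δ) * x := by
    unfold smp
    have t1 := conv_bound (am a) (am_nonneg a ha.le) x (fun n => ⌊2 * δ * n⌋₊ + 1) (⌊2 * δ * x⌋₊ + 1) (fun n hn => by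
      rw [mem_Icc] at hn
      apply Nat.succ_le_succ
      apply Nat.floor_le_floor
      have : (n : ℝ) ≤ x := by exact_mod_cast hn.2
      nlinarith)
    refine t1.trans ?_
    have t2 : ∑ i ∈ range (⌊2 * δ * x⌋₊ + 1), am a i ≤ a * C * (√2 * √δ * √(x : ℝ)) := by
      refine (hsum a ha.le _).trans ?_
      apply mul_le_mul_of_nonneg_left _ (by positivity)
      rw [← Real.sqrt_mul (by norm_num), ← Real.sqrt_mul (by positivity)]
      apply Real.sqrt_le_sqrt
      exact Nat.floor_le (by positivity)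
    calc (∑ i ∈ range (⌊2 * δ * x⌋₊ + 1), am a i) * ∑ j ∈ range (2 * x + 1), am a j
        ≤ (a * C * (√2 * √δ * √(x : ℝ))) * (a * C * (√2 * √(x : ℝ))) :=
          mul_le_mul t2 hs2x hs2x0 (by positivity)
      _ = (a * C) ^ 2 * ((√2 * √2) * √δ) * (√(x : ℝ) * √(x : ℝ)) := by ring
      _ = (a * C) ^ 2 * (2 * √δ) * x := by rw [hsq2, hsqx]
  have s5 : ∑ n ∈ Icc 1 x, mu (am a) (2 * n) ≤ (a * C) ^ 2 * 2 * x := by
    unfold mu
    have t1 := conv_bound (am a) (am_nonneg a ha.le) x (fun n => 2 * n) (2 * x + 1) (fun n hn => by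
      rw [mem_Icc] at hn
      omega)
    refine t1.trans ?_
    calc (∑ i ∈ range (2 * x + 1), am a i) * ∑ j ∈ range (2 * x + 1), am a j
        ≤ (a * C * (√2 * √(x : ℝ))) * (a * C * (√2 * √(x : ℝ))) :=
          mul_le_mul hs2x hs2x hs2x0 (by positivity)
      _ = (a * C) ^ 2 * (√2 * √2) * (√(x : ℝ) * √(x : ℝ)) := by ring
      _ = (a * C) ^ 2 * 2 * x := by rw [hsq2, hsqx]
  have s6 : (ρ + 2 * δ) * ∑ n ∈ Icc 1 x, mu (am a) (2 * n) ≤ (ρ + 2 * δ) * ((a * C) ^ 2 * 2 * x) :=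
    mul_le_mul_of_nonneg_left s5 (by positivity)
  have s7 : (a * C) ^ 2 * (2 * √δ) * x + (ρ + 2 * δ) * ((a * C) ^ 2 * 2 * x) ≤ ε / 2 * x := by
    have t1 : (a * C) ^ 2 * (2 * √δ) * x + (ρ + 2 * δ) * ((a * C) ^ 2 * 2 * x) = (a * C) ^ 2 * hh δ * x := by
      unfold hh
      rw [hρ]
      ring
    rw [t1]
    apply mul_le_mul_of_nonneg_right _ hx0.le
    have haC : 0 < (a * C) ^ 2 := by positivity
    have := mul_lt_mul_of_pos_left hδ2 haC
    refine this.le.trans (le_of_eq ?_)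
    field_simp
  linarith

omit [MeasurableSpace Ω] in
theorem R_ncard (A : ℕ → Set Ω) (ω : Ω) (m : ℕ) :
    {p : ℕ | p ∈ QS A ω ∧ m - p ∈ QS A ω ∧ 2 * p ≤ m}.ncard = R A ω m := by
  classical
  unfold R QS
  rw [← Set.ncard_coe_finset]
  congr 1
  ext p
  simp only [Set.mem_ofPred_eq, coe_filter, mem_Icc]
  constructor
  · rintro ⟨⟨h1, h2⟩, ⟨h3, h4⟩, h5⟩
    exact ⟨⟨h1.pos, by omega⟩, h1, h3, h2, h4⟩
  · rintro ⟨⟨h1, h2⟩, h3, h4, h5, h6⟩
    exact ⟨⟨h3, h5⟩, ⟨h4, h6⟩, by omega⟩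

omit [MeasurableSpace Ω] in
theorem Qc_eq_S (A : ℕ → Set Ω) (ω : Ω) (h : ∀ k : ℕ, ¬ k.Prime → ω ∉ A k) (x : ℕ) :
    (Qc A ω x : ℝ) = Pool.Agent.T2H32.CM.S A (x + 1) ω := by
  classical
  unfold Qc Pool.Agent.T2H32.CM.S
  rw [card_filter]
  push_cast
  rw [range_Ioc _ (Set.indicator_of_notMem (h 0 Nat.not_prime_zero) _)]
  apply sum_congr
  · ext j
    simp only [mem_Icc, mem_Ioc]
    omega
  · intro p _
    by_cases hp : ω ∈ A p
    · rw [Set.indicator_of_mem hp, if_pos]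
      refine ⟨?_, hp⟩
      by_contra hcon
      exact h p hcon hp
    · rw [Set.indicator_of_notMem hp, if_neg (fun h => hp h.2)]

/-- **The Poisson law.** -/
theorem part_one (lam : ℝ) (hlam : 0 < lam) : ∃ Q : Set ℕ, (∀ p ∈ Q, p.Prime) ∧
    Tendsto (fun x : ℕ => (cQ Q x : ℝ) / √(x : ℝ)) atTop (𝓝 (√(8 * lam / Real.pi))) ∧
    ∃ r : ℕ → ℕ, (∀ m, r m = {p : ℕ | p ∈ Q ∧ m - p ∈ Q ∧ 2 * p ≤ m}.ncard) ∧
    ∀ k : ℕ, Tendsto (fun x : ℕ => (({n : ℕ | 1 ≤ n ∧ n ≤ x ∧ r (2 * n) = k}.ncard : ℝ) -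
      ∑ n ∈ Icc 1 x, pz k (lam * sing (2 * n))) / x) atTop (𝓝 0) := by
  classical
  obtain ⟨a, haeq⟩ : ∃ a, a = √(2 * lam / Real.pi) := ⟨_, rfl⟩
  have ha : 0 < a := by rw [haeq]; exact Real.sqrt_pos.2 (by positivity)
  have ha2 : Real.pi * a ^ 2 / 2 = lam := by
    rw [haeq, Real.sq_sqrt (by positivity)]
    field_simp
  have ha3 : 2 * a = √(8 * lam / Real.pi) := by
    rw [haeq, show 8 * lam / Real.pi = 2 ^ 2 * (2 * lam / Real.pi) by ring, Real.sqrt_mul (by norm_num),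
      Real.sqrt_sq (by norm_num)]
  obtain ⟨Ω, i, P, A, hA, hind, hP⟩ := Pool.Agent.T2H32.CM.exists_indep (am a) (am_nonneg a ha.le) (am_le_one a)
  have hprob : IsProbabilityMeasure P := hind.isProbabilityMeasure
  obtain ⟨C, hC, hsum⟩ := am_sum
  -- the counting function of the set
  have hS : ∀ᵐ ω ∂P, Tendsto (fun n => Pool.Agent.T2H32.CM.S A n ω / ∑ i ∈ range n, am a i) atTop (𝓝 1) := by
    have e : Pool.Agent.T2H32.CM.mS P A = fun n => ∑ i ∈ range n, am a i := by
      funext n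
      unfold Pool.Agent.T2H32.CM.mS
      exact sum_congr rfl fun i _ => hP i
    have h1 := Pool.Agent.T2H32.CM.slln (P := P) A hA
      (fun k l hkl => (Pool.Agent.T2H32.GB.pair_indep (P := P) A hA hind k l hkl.ne).le) (by
      rw [e]
      have hl := am_lim a ha.le
      have h2 : Tendsto (fun x : ℕ => (∑ i ∈ range (x + 1), am a i) / √(x : ℝ) * √(x : ℝ)) atTop atTop := by
        apply hl.pos_mul_atTop (by positivity)
        exact (Real.tendsto_sqrt_atTop).comp tendsto_natCast_atTop_atTop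
      have h3 : Tendsto (fun x : ℕ => ∑ i ∈ range (x + 1), am a i) atTop atTop := by
        refine h2.congr' ?_
        filter_upwards [eventually_ge_atTop 1] with x hx
        have hs : 0 < √(x : ℝ) := Real.sqrt_pos.2 (by exact_mod_cast hx)
        rw [div_mul_cancel₀ _ hs.ne']
      exact (tendsto_add_atTop_iff_nat 1).1 h3)
    simp only [e] at h1
    exact h1
  -- the counts
  have hcube : ∀ᶠ x : ℕ in atTop, ((∑ i ∈ range (2 * x + 1), P.real (A i)) + 2) ^ 3 ≤ (x : ℝ) ^ (8 / 5 : ℝ) := by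
    have h1 := (tendsto_natCast_atTop_atTop (R := ℝ)).eventually_ge_atTop (((2 * a * C + 2) ^ 3) ^ (10 : ℝ))
    filter_upwards [h1, eventually_ge_atTop 1] with x a1 a2
    have hx1 : (1 : ℝ) ≤ x := by exact_mod_cast a2
    have hx0 : (0 : ℝ) < x := by linarith
    have b0 : ∑ i ∈ range (2 * x + 1), P.real (A i) = ∑ i ∈ range (2 * x + 1), am a i := sum_congr rfl fun i _ => hP i
    rw [b0]
    have b1 := hsum a ha.le (2 * x)
    have b2 : √((2 * x : ℕ) : ℝ) ≤ 2 * √(x : ℝ) := by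
      rw [Real.sqrt_le_left (by positivity), mul_pow, Real.sq_sqrt hx0.le]
      push_cast
      linarith
    have b3 : 1 ≤ √(x : ℝ) := by rw [Real.one_le_sqrt]; exact hx1
    have b4 : (∑ i ∈ range (2 * x + 1), am a i) + 2 ≤ (2 * a * C + 2) * √(x : ℝ) := by
      have : a * C * √((2 * x : ℕ) : ℝ) ≤ a * C * (2 * √(x : ℝ)) := mul_le_mul_of_nonneg_left b2 (by positivity)
      nlinarith
    have b5 : 0 ≤ ∑ i ∈ range (2 * x + 1), am a i := sum_nonneg fun i _ => am_nonneg a ha.le i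
    have b6 : ((2 * a * C + 2) ^ 3) ≤ (x : ℝ) ^ (1 / 10 : ℝ) := by
      have := Real.rpow_le_rpow (by positivity) a1 (show (0 : ℝ) ≤ 1 / 10 by norm_num)
      rw [← Real.rpow_mul (by positivity)] at this
      norm_num at this
      exact this
    calc ((∑ i ∈ range (2 * x + 1), am a i) + 2) ^ 3 ≤ ((2 * a * C + 2) * √(x : ℝ)) ^ 3 := pow_le_pow_left₀ (by linarith) b4 3
      _ = (2 * a * C + 2) ^ 3 * √(x : ℝ) ^ 3 := by rw [mul_pow]
      _ ≤ (x : ℝ) ^ (1 / 10 : ℝ) * √(x : ℝ) ^ 3 := mul_le_mul_of_nonneg_right b6 (by positivity)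
      _ = (x : ℝ) ^ (8 / 5 : ℝ) := by
          rw [Real.sqrt_eq_rpow, ← Real.rpow_natCast, ← Real.rpow_mul hx0.le, ← Real.rpow_add hx0]
          norm_num
  have hN : ∀ᵐ ω ∂P, ∀ k : ℕ, ∀ᶠ x : ℕ in atTop,
      |(Nk A ω k x : ℝ) - ∑ n ∈ Icc 1 x, P.real {ω | R A ω (2 * n) = k}| ≤ 31 * (x : ℝ) ^ (19 / 20 : ℝ) := by
    rw [ae_all_iff]
    intro k
    exact as_Nk (P := P) A hA hind k hcube
  have hnp : ∀ᵐ ω ∂P, ∀ k : ℕ, ¬ k.Prime → ω ∉ A k := by
    rw [ae_all_iff]
    intro k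
    by_cases hk : k.Prime
    · exact Eventually.of_forall fun ω h => absurd hk h
    · have h0 : P.real (A k) = 0 := by
        rw [hP k]
        unfold am lp
        rw [if_neg hk, mul_zero]
        exact min_eq_right zero_le_one
      have h1 : P (A k) = 0 := by
        rw [measureReal_def, ENNReal.toReal_eq_zero_iff] at h0
        exact h0.resolve_right (measure_ne_top P _)
      filter_upwards [measure_eq_zero_iff_ae_notMem.1 h1] with ω hω _
      exact hω
  obtain ⟨ω, hω1, hω2, hω3⟩ := (hS.and (hN.and hnp)).exists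
  refine ⟨QS A ω, fun p hp => hp.1, ?_, fun m => {p : ℕ | p ∈ QS A ω ∧ m - p ∈ QS A ω ∧ 2 * p ≤ m}.ncard, fun m => rfl, fun k => ?_⟩
  · -- asymptotics of the counting function
    have h1 : Tendsto (fun x : ℕ => Pool.Agent.T2H32.CM.S A (x + 1) ω / ∑ i ∈ range (x + 1), am a i) atTop (𝓝 1) :=
      hω1.comp (tendsto_add_atTop_nat 1)
    have h2 := h1.mul (am_lim a ha.le)
    rw [one_mul, ha3] at h2
    refine h2.congr' ?_
    have h3 := (am_lim a ha.le).eventually_const_lt (show (0 : ℝ) < 2 * a by positivity)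
    filter_upwards [h3] with x hx
    have h4 : ∑ i ∈ range (x + 1), am a i ≠ 0 := by
      intro h0
      rw [h0, zero_div] at hx
      exact lt_irrefl _ hx
    rw [cQ_eq, Qc_eq_S A ω hω3]
    field_simp
  · rw [Metric.tendsto_atTop]
    intro ε hε
    have c1 := mean_pois (P := P) a ha A hA hind hP k (ε / 4) (by positivity)
    have c2 := pow_small (ε / 4) (by positivity)
    rw [ha2] at c1
    obtain ⟨x₀, hx₀⟩ := eventually_atTop.1 ((hω2 k).and (c1.and (c2.and (eventually_ge_atTop 1))))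
    refine ⟨x₀, fun x hx => ?_⟩
    obtain ⟨d1, d2, d3, d4⟩ := hx₀ x hx
    have hx0 : (0 : ℝ) < x := by exact_mod_cast d4
    have e1 : {n : ℕ | 1 ≤ n ∧ n ≤ x ∧ {p : ℕ | p ∈ QS A ω ∧ 2 * n - p ∈ QS A ω ∧ 2 * p ≤ 2 * n}.ncard = k}.ncard = Nk A ω k x := by
      unfold Nk
      rw [← Set.ncard_coe_finset]
      congr 1
      ext n
      simp only [Set.mem_ofPred_eq, coe_filter, mem_Icc]
      rw [R_ncard, and_assoc]
    rw [Real.dist_eq, sub_zero, abs_div, abs_of_pos hx0, div_lt_iff₀ hx0]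
    simp only
    rw [e1]
    have e2 : |(Nk A ω k x : ℝ) - ∑ n ∈ Icc 1 x, pz k (lam * sing (2 * n))| ≤
        |(Nk A ω k x : ℝ) - ∑ n ∈ Icc 1 x, P.real {ω | R A ω (2 * n) = k}| +
        ∑ n ∈ Icc 1 x, |P.real {ω | R A ω (2 * n) = k} - pz k (lam * sing (2 * n))| := by
      have f1 := abs_add_le ((Nk A ω k x : ℝ) - ∑ n ∈ Icc 1 x, P.real {ω | R A ω (2 * n) = k})
        (∑ n ∈ Icc 1 x, P.real {ω | R A ω (2 * n) = k} - ∑ n ∈ Icc 1 x, pz k (lam * sing (2 * n)))
      rw [sub_add_sub_cancel] at f1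
      refine f1.trans (add_le_add le_rfl ?_)
      rw [← sum_sub_distrib]
      exact abs_sum_le_sum_abs _ _
    have : 0 < ε * x := by positivity
    linarith

end Pool.Agent.T2H32.TG
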