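import Pool.Agent.T2H32.TG.Br

set_option autoImplicit false

/-! # The number of independent rare events is nearly Poisson -/

open MeasureTheory ProbabilityTheory Filter Topology Finset
open scoped ENNReal

namespace Pool.Agent.T2H32.TG

/-- Poisson probabilities -/
noncomputable def pz (k : ℕ) (x : ℝ) : ℝ := Real.exp (-x) * x ^ k / (k.factorial : ℝ)

theorem pz_nonneg (k : ℕ) (x : ℝ) (hx : 0 ≤ x) : 0 ≤ pz k x := by unfold pz; positivity

theorem pz_le_one (k : ℕ) (x : ℝ) (hx : 0 ≤ x) : pz k x ≤ 1 := by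
  have h1 := Real.pow_div_factorial_le_exp x hx k
  unfold pz
  calc Real.exp (-x) * x ^ k / (k.factorial : ℝ) = Real.exp (-x) * (x ^ k / (k.factorial : ℝ)) := by ring
    _ ≤ Real.exp (-x) * Real.exp x := mul_le_mul_of_nonneg_left h1 (Real.exp_pos _).le
    _ = 1 := by rw [← Real.exp_add]; simp

theorem pz_zero (x : ℝ) : pz 0 x = Real.exp (-x) := by simp [pz]

theorem deriv_zero (x : ℝ) : HasDerivAt (pz 0) (-pz 0 x) x := by
  have h : HasDerivAt (fun x : ℝ => Real.exp (-x)) (Real.exp (-x) * (-1)) x :=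
    (hasDerivAt_neg x).exp
  have e : pz 0 = fun x : ℝ => Real.exp (-x) := by funext x; exact pz_zero x
  rw [e]
  convert h using 1
  ring

theorem deriv_succ (k : ℕ) (x : ℝ) : HasDerivAt (pz (k + 1)) (pz k x - pz (k + 1) x) x := by
  have h1 : HasDerivAt (fun x : ℝ => Real.exp (-x)) (Real.exp (-x) * (-1)) x :=
    (hasDerivAt_neg x).exp
  have h2 : HasDerivAt (fun x : ℝ => x ^ (k + 1)) (((k + 1 : ℕ) : ℝ) * x ^ k) x := by
    simpa using hasDerivAt_pow (k + 1) x
  have h3 := (h1.mul h2).div_const ((k + 1).factorial : ℝ)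
  have e : pz (k + 1) = fun x : ℝ => Real.exp (-x) * x ^ (k + 1) / ((k + 1).factorial : ℝ) := rfl
  rw [e]
  refine h3.congr_deriv ?_
  unfold pz
  rw [Nat.factorial_succ]
  have h4 : ((k.factorial : ℕ) : ℝ) ≠ 0 := by positivity
  have h5 : ((k : ℝ) + 1) ≠ 0 := by positivity
  push_cast
  field_simp
  ring

/-- Lipschitz -/
theorem pz_lip (k : ℕ) (x y : ℝ) (hx : 0 ≤ x) (hy : 0 ≤ y) : |pz k x - pz k y| ≤ |x - y| := by
  have hc : Convex ℝ (Set.Ici (0 : ℝ)) := convex_Ici 0
  rcases k with _ | k
  · have := Convex.norm_image_sub_le_of_norm_hasDerivWithin_le (f := pz 0) (f' := fun x => -pz 0 x) (C := 1)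
      (s := Set.Ici (0 : ℝ)) (x := y) (y := x) (fun t _ => (deriv_zero t).hasDerivWithinAt)
      (fun t ht => by
        rw [Real.norm_eq_abs, abs_neg, abs_of_nonneg (pz_nonneg 0 t ht)]
        exact pz_le_one 0 t ht) hc hy hx
    simpa using this
  · have := Convex.norm_image_sub_le_of_norm_hasDerivWithin_le (f := pz (k + 1))
      (f' := fun x => pz k x - pz (k + 1) x) (C := 1)
      (s := Set.Ici (0 : ℝ)) (x := y) (y := x) (fun t _ => (deriv_succ k t).hasDerivWithinAt)
      (fun t ht => by
        rw [Real.norm_eq_abs, abs_le]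
        have a1 := pz_nonneg k t ht
        have a2 := pz_le_one k t ht
        have a3 := pz_nonneg (k + 1) t ht
        have a4 := pz_le_one (k + 1) t ht
        constructor <;> linarith) hc hy hx
    simpa using this

theorem taylor_zero (x b : ℝ) (hx : 0 ≤ x) (hb : 0 ≤ b) : |pz 0 (x + b) - (1 - b) * pz 0 x| ≤ 2 * b ^ 2 := by
  have hc : Convex ℝ (Set.Icc (0 : ℝ) b) := convex_Icc 0 b
  have hd : ∀ t ∈ Set.Icc (0 : ℝ) b, HasDerivWithinAt (fun t => pz 0 (x + t) + t * pz 0 x)
      (-pz 0 (x + t) + pz 0 x) (Set.Icc (0 : ℝ) b) t := by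
    intro t _
    have h1 : HasDerivAt (fun t => pz 0 (x + t)) (-pz 0 (x + t)) t := by
      have := (deriv_zero (x + t)).comp_const_add x t
      simpa using this
    have h2 : HasDerivAt (fun t : ℝ => t * pz 0 x) (pz 0 x) t := by
      simpa using (hasDerivAt_id t).mul_const (pz 0 x)
    exact (h1.add h2).hasDerivWithinAt
  have := Convex.norm_image_sub_le_of_norm_hasDerivWithin_le (C := b) (x := 0) (y := b) hd
    (fun t ht => by
      have h3 := pz_lip 0 (x + t) x (by linarith [ht.1]) hx
      rw [Real.norm_eq_abs, show -pz 0 (x + t) + pz 0 x = -(pz 0 (x + t) - pz 0 x) by ring, abs_neg]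
      refine h3.trans ?_
      rw [show x + t - x = t by ring, abs_of_nonneg ht.1]
      exact ht.2) hc ⟨le_rfl, hb⟩ ⟨hb, le_rfl⟩
  simp only [Real.norm_eq_abs, add_zero, zero_mul, sub_zero] at this
  rw [show pz 0 (x + b) + b * pz 0 x - pz 0 x = pz 0 (x + b) - (1 - b) * pz 0 x by ring, abs_of_nonneg hb] at this
  nlinarith [sq_nonneg b]

theorem taylor_succ (k : ℕ) (x b : ℝ) (hx : 0 ≤ x) (hb : 0 ≤ b) :
    |pz (k + 1) (x + b) - ((1 - b) * pz (k + 1) x + b * pz k x)| ≤ 2 * b ^ 2 := by
  have hc : Convex ℝ (Set.Icc (0 : ℝ) b) := convex_Icc 0 b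
  have hd : ∀ t ∈ Set.Icc (0 : ℝ) b, HasDerivWithinAt (fun t => pz (k + 1) (x + t) - t * (pz k x - pz (k + 1) x))
      ((pz k (x + t) - pz (k + 1) (x + t)) - (pz k x - pz (k + 1) x)) (Set.Icc (0 : ℝ) b) t := by
    intro t _
    have h1 : HasDerivAt (fun t => pz (k + 1) (x + t)) (pz k (x + t) - pz (k + 1) (x + t)) t := by
      have := (deriv_succ k (x + t)).comp_const_add x t
      simpa using this
    have h2 : HasDerivAt (fun t : ℝ => t * (pz k x - pz (k + 1) x)) (pz k x - pz (k + 1) x) t := by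
      simpa using (hasDerivAt_id t).mul_const (pz k x - pz (k + 1) x)
    exact (h1.sub h2).hasDerivWithinAt
  have := Convex.norm_image_sub_le_of_norm_hasDerivWithin_le (C := 2 * b) (x := 0) (y := b) hd
    (fun t ht => by
      have h3 := pz_lip k (x + t) x (by linarith [ht.1]) hx
      have h4 := pz_lip (k + 1) (x + t) x (by linarith [ht.1]) hx
      rw [show x + t - x = t by ring, abs_of_nonneg ht.1] at h3 h4
      rw [Real.norm_eq_abs, show pz k (x + t) - pz (k + 1) (x + t) - (pz k x - pz (k + 1) x) =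
        (pz k (x + t) - pz k x) - (pz (k + 1) (x + t) - pz (k + 1) x) by ring]
      refine (abs_sub _ _).trans ?_
      linarith [ht.2]) hc ⟨le_rfl, hb⟩ ⟨hb, le_rfl⟩
  simp only [Real.norm_eq_abs, add_zero, zero_mul, sub_zero] at this
  rw [show pz (k + 1) (x + b) - b * (pz k x - pz (k + 1) x) - pz (k + 1) x =
    pz (k + 1) (x + b) - ((1 - b) * pz (k + 1) x + b * pz k x) by ring, abs_of_nonneg hb] at this
  nlinarith

/-- the law of the number of events that occur -/
noncomputable def law (b : ℕ → ℝ) (N k : ℕ) : ℝ := Ex b N (fun T => if T.card = k then 1 else 0)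

theorem law_zero (b : ℕ → ℝ) (N : ℕ) : law b (N + 1) 0 = (1 - b N) * law b N 0 := by
  unfold law
  rw [Ex_succ]
  have : Ex b N (fun T => if (insert N T).card = 0 then (1 : ℝ) else 0) = Ex b N (fun _ => 0) := by
    apply Ex_congr
    intro T _
    rw [if_neg (card_ne_zero_of_mem (mem_insert_self N T))]
  rw [this, Ex_const]
  ring

theorem law_succ (b : ℕ → ℝ) (N k : ℕ) : law b (N + 1) (k + 1) = (1 - b N) * law b N (k + 1) + b N * law b N k := by
  unfold law
  rw [Ex_succ]
  have : Ex b N (fun T => if (insert N T).card = k + 1 then (1 : ℝ) else 0) =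
      Ex b N (fun T => if T.card = k then (1 : ℝ) else 0) := by
    apply Ex_congr
    intro T hT
    have hN : N ∉ T := fun h => notMem_range_self (hT h)
    rw [card_insert_of_notMem hN]
    simp only [Nat.add_right_cancel_iff]
  rw [this]
  ring

theorem law_poisson (b : ℕ → ℝ) (h0 : ∀ i, 0 ≤ b i) (h1 : ∀ i, b i ≤ 1) (N : ℕ) :
    ∀ k, |law b N k - pz k (∑ i ∈ range N, b i)| ≤ 2 * ∑ i ∈ range N, b i ^ 2 := by
  induction N with
  | zero =>
    intro k
    rw [sum_range_zero, sum_range_zero, mul_zero]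
    unfold law pz
    rw [Ex_zero, card_empty]
    rcases k with _ | k
    · simp
    · rw [if_neg (Nat.succ_ne_zero k).symm]
      simp
  | succ N ih =>
    intro k
    have hx : 0 ≤ ∑ i ∈ range N, b i := sum_nonneg fun i _ => h0 i
    have hc := sub_nonneg.2 (h1 N)
    rw [sum_range_succ, sum_range_succ]
    rcases k with _ | k
    · rw [law_zero]
      have a1 := taylor_zero _ (b N) hx (h0 N)
      have a2 := ih 0
      have e : (1 - b N) * law b N 0 - pz 0 (∑ i ∈ range N, b i + b N) =
          (1 - b N) * (law b N 0 - pz 0 (∑ i ∈ range N, b i)) -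
          (pz 0 (∑ i ∈ range N, b i + b N) - (1 - b N) * pz 0 (∑ i ∈ range N, b i)) := by ring
      rw [e]
      refine (abs_sub _ _).trans ?_
      rw [abs_mul, abs_of_nonneg hc]
      have a3 := mul_le_mul_of_nonneg_left a2 hc
      have a4 : 0 ≤ b N * ∑ i ∈ range N, b i ^ 2 := mul_nonneg (h0 N) (sum_nonneg fun i _ => sq_nonneg _)
      linarith
    · rw [law_succ]
      have a1 := taylor_succ k _ (b N) hx (h0 N)
      have a2 := ih k
      have a2' := ih (k + 1)
      have e : (1 - b N) * law b N (k + 1) + b N * law b N k - pz (k + 1) (∑ i ∈ range N, b i + b N) =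
          ((1 - b N) * (law b N (k + 1) - pz (k + 1) (∑ i ∈ range N, b i)) +
          b N * (law b N k - pz k (∑ i ∈ range N, b i))) -
          (pz (k + 1) (∑ i ∈ range N, b i + b N) - ((1 - b N) * pz (k + 1) (∑ i ∈ range N, b i) +
            b N * pz k (∑ i ∈ range N, b i))) := by ring
      rw [e]
      refine (abs_sub _ _).trans ?_
      have a3 : |(1 - b N) * (law b N (k + 1) - pz (k + 1) (∑ i ∈ range N, b i)) +
          b N * (law b N k - pz k (∑ i ∈ range N, b i))| ≤ 2 * ∑ i ∈ range N, b i ^ 2 := by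
        refine (abs_add_le _ _).trans ?_
        rw [abs_mul, abs_mul, abs_of_nonneg hc, abs_of_nonneg (h0 N)]
        have b1 := mul_le_mul_of_nonneg_left a2' hc
        have b2 := mul_le_mul_of_nonneg_left a2 (h0 N)
        linarith
      linarith

variable {Ω : Type*} [MeasurableSpace Ω] {P : Measure Ω}

/-- pairs of independent events, and empty events -/
theorem pairs_indep [IsProbabilityMeasure P] (A : ℕ → Set Ω)
    (hind : iIndepSet A P) (m : ℕ) (I : ℕ → Prop) (hI : ∀ i, I i → 2 * i < m) (B : ℕ → Set Ω)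
    (hB1 : ∀ i, I i → B i = A i ∩ A (m - i)) (hB0 : ∀ i, ¬ I i → B i = ∅) (hA : ∀ k, MeasurableSet (A k)) :
    iIndepSet B P ∧ ∀ i, I i → P.real (B i) = P.real (A i) * P.real (A (m - i)) := by
  classical
  have hmeas : ∀ i, MeasurableSet (B i) := by
    intro i
    by_cases h : I i
    · rw [hB1 i h]; exact (hA i).inter (hA _)
    · rw [hB0 i h]; exact MeasurableSet.empty
  have hprod := (iIndepSet_iff_meas_biInter hA).1 hind
  have key : ∀ S : Finset ℕ, (∀ i ∈ S, I i) → P (⋂ i ∈ S, B i) = ∏ i ∈ S, (P (A i) * P (A (m - i))) := by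
    intro S hS
    have hd : Disjoint S (S.image (fun i => m - i)) := by
      rw [disjoint_left]
      intro i hi hi'
      obtain ⟨j, hj, hji⟩ := mem_image.1 hi'
      have a1 := hI i (hS i hi)
      have a2 := hI j (hS j hj)
      omega
    have hinj : Set.InjOn (fun i => m - i) (S : Set ℕ) := by
      intro i hi j hj hij
      have a1 := hI i (hS i hi)
      have a2 := hI j (hS j hj)
      simp only at hij
      omega
    have e : ⋂ i ∈ S, B i = ⋂ i ∈ S ∪ S.image (fun i => m - i), A i := by
      ext ω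
      simp only [Set.mem_iInter, mem_union, mem_image]
      constructor
      · rintro h i (hi | ⟨j, hj, rfl⟩)
        · have := h i hi
          rw [hB1 i (hS i hi)] at this
          exact this.1
        · have := h j hj
          rw [hB1 j (hS j hj)] at this
          exact this.2
      · intro h i hi
        rw [hB1 i (hS i hi)]
        exact ⟨h i (Or.inl hi), h (m - i) (Or.inr ⟨i, hi, rfl⟩)⟩
    rw [e, hprod, prod_union hd, prod_image hinj, ← prod_mul_distrib]
  have hone : ∀ i, I i → P (B i) = P (A i) * P (A (m - i)) := by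
    intro i hi
    have := key {i} (by simpa using hi)
    simpa using this
  refine ⟨?_, ?_⟩
  · rw [iIndepSet_iff_meas_biInter hmeas]
    intro S
    by_cases h : ∀ i ∈ S, I i
    · rw [key S h]
      exact prod_congr rfl fun i hi => (hone i (h i hi)).symm
    · push Not at h
      obtain ⟨i, hi, hIi⟩ := h
      have e1 : ⋂ i ∈ S, B i = ∅ := by
        rw [Set.eq_empty_iff_forall_notMem]
        intro ω hω
        simp only [Set.mem_iInter] at hω
        have := hω i hi
        rw [hB0 i hIi] at this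
        exact this
      rw [e1, measure_empty]
      symm
      apply prod_eq_zero hi
      rw [hB0 i hIi, measure_empty]
  · intro i hi
    rw [measureReal_def, hone i hi, ENNReal.toReal_mul]
    rfl

end Pool.Agent.T2H32.TG
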