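import Pool.Agent.T2H32.GM.FL
import Pool.Agent.T2H32.CM.Cop
import Pool.Agent.W93.GB1

set_option autoImplicit false

/-! # A positive proportion of the even numbers has a nearly minimal singular series -/

open Filter Topology Finset

namespace Pool.Agent.T2H32.TG

open Pool.Agent.H560R3.GB (sing C₂)
open Pool.Agent.W93.GB (dv C2_pos C2_half sing_eq one_le_dv one_le_prod_dv)
open Pool.Agent.T2H32.BF (V V_pos mertens)
open Pool.Agent.T2H32.GM (totient_primorial)

theorem sing_ge (n : ℕ) : 2 * C₂ ≤ sing n := by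
  rw [sing_eq]
  have h1 := C2_pos
  have h2 := one_le_prod_dv (n.primeFactors.filter (fun p => 2 < p)) (fun p hp => (mem_filter.1 hp).2)
  nlinarith

/-- the sum of `1 / (q - 2)` over the prime factors `q > w` -/
noncomputable def fw (w n : ℕ) : ℝ := ∑ q ∈ n.primeFactors.filter (fun q => w < q), 1 / ((q : ℝ) - 2)

theorem sing_le (w n : ℕ) (hw : 2 ≤ w) (hn : n ≠ 0) (h : n.Coprime (primorial w)) :
    sing (2 * n) ≤ 2 * C₂ * Real.exp (fw w n) := by
  rw [sing_eq]
  have h1 := C2_pos
  apply mul_le_mul_of_nonneg_left _ (by positivity)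
  have hsub : (2 * n).primeFactors.filter (fun p => 2 < p) ⊆ n.primeFactors.filter (fun q => w < q) := by
    intro q hq
    rw [mem_filter, Nat.mem_primeFactors] at hq
    obtain ⟨⟨h2, h3, h4⟩, h5⟩ := hq
    have h6 : q ∣ n := by
      rcases (Nat.Prime.dvd_mul h2).1 h3 with h | h
      · exact absurd (Nat.le_of_dvd (by norm_num) h) (by omega)
      · exact h
    rw [mem_filter, Nat.mem_primeFactors]
    refine ⟨⟨h2, h6, hn⟩, ?_⟩
    by_contra hcon
    have h7 : q ∣ primorial w := (Nat.Prime.dvd_primorial_iff h2).2 (by omega)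
    exact Nat.not_coprime_of_dvd_of_dvd h2.one_lt h6 h7 h
  have hdv : ∀ q : ℕ, 2 < q → dv q ≤ Real.exp (1 / ((q : ℝ) - 2)) := by
    intro q hq
    have h8 : (3 : ℝ) ≤ q := by exact_mod_cast hq
    have e : dv q = 1 / ((q : ℝ) - 2) + 1 := by
      unfold dv
      have : (q : ℝ) - 2 ≠ 0 := by linarith
      field_simp
      ring
    rw [e]
    exact Real.add_one_le_exp _
  have hw2 : ∀ q ∈ n.primeFactors.filter (fun q => w < q), 2 < q := fun q hq => lt_of_le_of_lt hw (mem_filter.1 hq).2
  calc ∏ p ∈ (2 * n).primeFactors.filter (fun p => 2 < p), dv p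
      ≤ ∏ p ∈ n.primeFactors.filter (fun q => w < q), dv p := by
        rw [← prod_sdiff hsub]
        have g1 : 1 ≤ ∏ p ∈ (n.primeFactors.filter (fun q => w < q)) \ ((2 * n).primeFactors.filter (fun p => 2 < p)), dv p :=
          one_le_prod_dv _ (fun p hp => hw2 p (Finset.mem_sdiff.1 hp).1)
        have g2 : 1 ≤ ∏ p ∈ (2 * n).primeFactors.filter (fun p => 2 < p), dv p :=
          one_le_prod_dv _ (fun p hp => (mem_filter.1 hp).2)
        nlinarith
    _ ≤ ∏ p ∈ n.primeFactors.filter (fun q => w < q), Real.exp (1 / ((p : ℝ) - 2)) := by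
        apply Finset.prod_le_prod
        · intro q hq
          exact zero_le_one.trans (one_le_dv q (hw2 q hq))
        · intro q hq
          exact hdv q (hw2 q hq)
    _ = Real.exp (fw w n) := by rw [← Real.exp_sum]; rfl

theorem tele (w : ℕ) (hw : 2 ≤ w) (x : ℕ) (hx : w ≤ x) :
    ∑ q ∈ Ioc w x, 1 / (((q : ℝ) - 1) * ((q : ℝ) - 2)) = 1 / ((w : ℝ) - 1) - 1 / ((x : ℝ) - 1) := by
  induction x, hx using Nat.le_induction with
  | base => simp
  | succ x hx ih =>
    have e : Ioc w (x + 1) = insert (x + 1) (Ioc w x) := by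
      ext j
      simp only [mem_Ioc, mem_insert]
      omega
    rw [e, sum_insert (by simp), ih]
    have h1 : (2 : ℝ) ≤ x := by exact_mod_cast (by omega : 2 ≤ x)
    push_cast
    have h2 : (x : ℝ) - 1 ≠ 0 := by linarith
    have h3 : (x : ℝ) ≠ 0 := by linarith
    have e1 : (x : ℝ) + 1 - 1 = x := by ring
    have e2 : (x : ℝ) + 1 - 2 = x - 1 := by ring
    rw [e1, e2]
    field_simp
    ring

theorem fw_sum (w : ℕ) (hw : 2 ≤ w) (x : ℕ) : ∑ n ∈ Icc 1 x, fw w n ≤ x * (1 / ((w : ℝ) - 1)) := by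
  classical
  have hwr : (2 : ℝ) ≤ w := by exact_mod_cast hw
  rcases Nat.lt_or_ge x w with hxw | hxw
  · have : ∑ n ∈ Icc 1 x, fw w n = 0 := by
      apply sum_eq_zero
      intro n hn
      unfold fw
      apply sum_eq_zero
      intro q hq
      rw [mem_filter, Nat.mem_primeFactors] at hq
      rw [mem_Icc] at hn
      have := Nat.le_of_dvd (by omega) hq.1.2.1
      omega
    rw [this]
    apply mul_nonneg (Nat.cast_nonneg x)
    apply one_div_nonneg.2
    linarith
  · have h1 : ∀ n ∈ Icc 1 x, fw w n ≤ ∑ q ∈ Ioc w x, (if q ∣ n then 1 / ((q : ℝ) - 2) else 0) := by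
      intro n hn
      rw [mem_Icc] at hn
      unfold fw
      rw [← sum_filter]
      apply sum_le_sum_of_subset_of_nonneg
      · intro q hq
        rw [mem_filter, Nat.mem_primeFactors] at hq
        rw [mem_filter, mem_Ioc]
        exact ⟨⟨hq.2, (Nat.le_of_dvd (by omega) hq.1.2.1).trans hn.2⟩, hq.1.2.1⟩
      · intro q hq _
        rw [mem_filter, mem_Ioc] at hq
        have : (w : ℝ) + 1 ≤ q := by exact_mod_cast hq.1.1
        apply one_div_nonneg.2
        linarith
    refine (sum_le_sum h1).trans ?_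
    rw [sum_comm]
    have h2 : ∀ q ∈ Ioc w x, ∑ n ∈ Icc 1 x, (if q ∣ n then 1 / ((q : ℝ) - 2) else 0) ≤ x * (1 / (((q : ℝ) - 1) * ((q : ℝ) - 2))) := by
      intro q hq
      rw [mem_Ioc] at hq
      have hq3 : (w : ℝ) + 1 ≤ q := by exact_mod_cast hq.1
      have hq2 : 0 < (q : ℝ) - 2 := by linarith
      rw [← sum_filter, sum_const, nsmul_eq_mul]
      have h3 : ((Icc 1 x).filter (fun n => q ∣ n)).card = x / q := by
        rw [← Nat.Ioc_filter_dvd_card_eq_div x q]
        congr 1
      rw [h3]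
      have h4 : ((x / q : ℕ) : ℝ) ≤ x / q := Nat.cast_div_le
      have h5 : (x : ℝ) / q ≤ x / ((q : ℝ) - 1) := by
        apply div_le_div_of_nonneg_left (Nat.cast_nonneg x) (by linarith) (by linarith)
      calc ((x / q : ℕ) : ℝ) * (1 / ((q : ℝ) - 2)) ≤ (x / ((q : ℝ) - 1)) * (1 / ((q : ℝ) - 2)) :=
            mul_le_mul_of_nonneg_right (h4.trans h5) (by positivity)
        _ = x * (1 / (((q : ℝ) - 1) * ((q : ℝ) - 2))) := by
            have : (q : ℝ) - 1 ≠ 0 := by linarith
            field_simp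
    refine (sum_le_sum h2).trans ?_
    rw [← mul_sum, tele w hw x hxw]
    apply mul_le_mul_of_nonneg_left _ (Nat.cast_nonneg x)
    have : 0 ≤ 1 / ((x : ℝ) - 1) := by
      apply one_div_nonneg.2
      have : (w : ℝ) ≤ x := by exact_mod_cast hxw
      linarith
    linarith

open Classical in
theorem small_sing (η : ℝ) (hη : 0 < η) : ∃ κ : ℝ, 0 < κ ∧ ∃ x₀ : ℕ, ∀ x : ℕ, x₀ ≤ x →
    κ * x ≤ ((Ioc (x / 2) x).filter (fun n => sing (2 * n) ≤ 2 * C₂ * Real.exp η)).card := by
  -- the choice of `w`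
  obtain ⟨w, hw2, hw⟩ : ∃ w : ℕ, 3 ≤ w ∧ 8 * (1 / ((w : ℝ) - 1)) ≤ V w * η := by
    have h1 := mertens.eventually_const_lt (show Real.exp (-Real.eulerMascheroniConstant) / 2 < Real.exp (-Real.eulerMascheroniConstant) by
      have := Real.exp_pos (-Real.eulerMascheroniConstant)
      linarith)
    have h2 : Tendsto (fun x : ℕ => Real.log x / x) atTop (𝓝 0) := by
      have h3 : Tendsto (fun x : ℝ => Real.log x / x ^ (1 : ℝ)) atTop (𝓝 0) :=
        (isLittleO_log_rpow_atTop (by norm_num)).tendsto_div_nhds_zero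
      have h4 := h3.comp tendsto_natCast_atTop_atTop
      refine h4.congr fun n => ?_
      simp only [Function.comp, Real.rpow_one]
    have h3 := h2.eventually_le_const (show (0 : ℝ) < η * (Real.exp (-Real.eulerMascheroniConstant) / 2) / 16 by
      have := Real.exp_pos (-Real.eulerMascheroniConstant)
      positivity)
    obtain ⟨w, h5, h6, h7⟩ := (h1.and (h3.and (eventually_ge_atTop 3))).exists
    refine ⟨w, h7, ?_⟩
    have hwr : (3 : ℝ) ≤ w := by exact_mod_cast h7
    have hl : 0 < Real.log (w : ℝ) := Real.log_pos (by linarith)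
    rw [div_le_iff₀ (by linarith)] at h6
    have h8 : Real.exp (-Real.eulerMascheroniConstant) / 2 / Real.log w ≤ V w := by
      rw [div_le_iff₀ hl]
      exact h5.le
    have h9 : 8 * (1 / ((w : ℝ) - 1)) ≤ 16 / w := by
      rw [mul_one_div, div_le_div_iff₀ (by linarith) (by linarith)]
      linarith
    refine h9.trans (le_trans ?_ (mul_le_mul_of_nonneg_right h8 hη.le))
    rw [div_mul_eq_mul_div, div_le_div_iff₀ (by linarith) hl]
    nlinarith
  have hwr : (3 : ℝ) ≤ w := by exact_mod_cast hw2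
  have hV := V_pos w
  obtain ⟨M, hM⟩ : ∃ M, M = primorial w := ⟨_, rfl⟩
  have hM0 : 0 < M := by rw [hM]; exact primorial_pos w
  have hMr : (0 : ℝ) < M := by exact_mod_cast hM0
  obtain ⟨x₀, hx₀⟩ := exists_nat_ge (16 * (M : ℝ) / V w)
  refine ⟨V w / 8, by positivity, x₀, fun x hx => ?_⟩
  have hxr : 16 * (M : ℝ) / V w ≤ x := hx₀.trans (by exact_mod_cast hx)
  rw [div_le_iff₀ hV] at hxr
  -- the coprime integers
  obtain ⟨K, hK⟩ : ∃ K, K = (Ioc (x / 2) x).filter (fun n => n.Coprime M) := ⟨_, rfl⟩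
  have hKc : (x : ℝ) * V w / 2 - 2 * M ≤ K.card := by
    have h1 := CM.C_bound M hM0 (x / 2) (x - x / 2)
    have h2 : CM.C M (x / 2) (x - x / 2) = K.card := by
      unfold CM.C CM.χ
      rw [show x / 2 + (x - x / 2) = x by omega, sum_boole, hK]
    have h3 : CM.μ M * V w = 1 := by
      unfold CM.μ
      rw [hM, totient_primorial]
      have : ((primorial w : ℕ) : ℝ) ≠ 0 := by rw [← hM]; exact hMr.ne'
      field_simp
    rw [h2] at h1
    have h4 := (abs_le.1 h1).1
    have h5 : ((x - x / 2 : ℕ) : ℝ) ≥ x / 2 := by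
      rw [Nat.cast_sub (Nat.div_le_self x 2)]
      have : ((x / 2 : ℕ) : ℝ) ≤ x / 2 := Nat.cast_div_le
      linarith
    have h6 := mul_le_mul_of_nonneg_right h4 hV.le
    have h7 : (CM.μ M * K.card - ((x - x / 2 : ℕ) : ℝ)) * V w = K.card - ((x - x / 2 : ℕ) : ℝ) * V w := by
      calc _ = K.card * (CM.μ M * V w) - ((x - x / 2 : ℕ) : ℝ) * V w := by ring
        _ = _ := by rw [h3, mul_one]
    have h8 : -(2 * M * CM.μ M) * V w = -(2 * M) := by
      calc _ = -(2 * M * (CM.μ M * V w)) := by ring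
        _ = _ := by rw [h3, mul_one]
    rw [h7, h8] at h6
    have h9 := mul_le_mul_of_nonneg_right h5 hV.le
    linarith
  -- the bad ones
  obtain ⟨B, hB⟩ : ∃ B, B = K.filter (fun n => η < fw w n) := ⟨_, rfl⟩
  have hBc : (B.card : ℝ) * η ≤ x * (1 / ((w : ℝ) - 1)) := by
    calc (B.card : ℝ) * η = ∑ n ∈ B, η := by rw [sum_const, nsmul_eq_mul]
      _ ≤ ∑ n ∈ B, fw w n := by
          apply sum_le_sum
          intro n hn
          rw [hB, mem_filter] at hn
          exact hn.2.le
      _ ≤ ∑ n ∈ Icc 1 x, fw w n := by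
          apply sum_le_sum_of_subset_of_nonneg
          · intro n hn
            rw [hB, mem_filter, hK, mem_filter, mem_Ioc] at hn
            rw [mem_Icc]
            omega
          · intro n _ _
            unfold fw
            apply sum_nonneg
            intro q hq
            rw [mem_filter] at hq
            apply one_div_nonneg.2
            have : (w : ℝ) + 1 ≤ q := by exact_mod_cast hq.2
            linarith
      _ ≤ _ := fw_sum w (by omega) x
  have hBc2 : (B.card : ℝ) ≤ x * V w / 8 := by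
    have h1 : (x : ℝ) * (8 * (1 / ((w : ℝ) - 1))) ≤ x * (V w * η) := mul_le_mul_of_nonneg_left hw (Nat.cast_nonneg x)
    have h2 : 8 * ((B.card : ℝ) * η) ≤ x * (V w * η) := by linarith
    have h3 : (8 * (B.card : ℝ)) * η ≤ (x * V w) * η := by linarith
    have := le_of_mul_le_mul_right h3 hη
    linarith
  have hsub : K \ B ⊆ (Ioc (x / 2) x).filter (fun n => sing (2 * n) ≤ 2 * C₂ * Real.exp η) := by
    intro n hn
    rw [Finset.mem_sdiff, hB, mem_filter, not_and, not_lt] at hn
    obtain ⟨h1, h2⟩ := hn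
    have h3 := h2 h1
    rw [hK, mem_filter] at h1
    rw [mem_filter]
    refine ⟨h1.1, ?_⟩
    have hn0 : n ≠ 0 := by
      have := (mem_Ioc.1 h1.1).1
      omega
    have h4 := sing_le w n (by omega) hn0 (hM ▸ h1.2)
    refine h4.trans ?_
    have := C2_pos
    apply mul_le_mul_of_nonneg_left _ (by positivity)
    exact Real.exp_le_exp.2 h3
  have hfin : (K.card : ℝ) - B.card ≤ ((Ioc (x / 2) x).filter (fun n => sing (2 * n) ≤ 2 * C₂ * Real.exp η)).card := by
    have h1 : K.card ≤ (K \ B).card + B.card := by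
      calc K.card ≤ ((K \ B) ∪ B).card := card_le_card (fun n hn => by
            rw [mem_union, Finset.mem_sdiff]
            by_cases h : n ∈ B
            · exact Or.inr h
            · exact Or.inl ⟨hn, h⟩)
        _ ≤ _ := card_union_le _ _
    have h2 := card_le_card hsub
    have h3 : (K.card : ℝ) ≤ (K \ B).card + B.card := by exact_mod_cast h1
    have h4 : ((K \ B).card : ℝ) ≤ ((Ioc (x / 2) x).filter (fun n => sing (2 * n) ≤ 2 * C₂ * Real.exp η)).card := by exact_mod_cast h2
    linarith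
  linarith

end Pool.Agent.T2H32.TG
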