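import Pool.Agent.T2H32.TG.PL2
import Pool.Agent.T2H32.TG.SS

set_option autoImplicit false

/-! # The rate of the exceptions: weights with a slowly varying factor -/

open MeasureTheory ProbabilityTheory Filter Topology Finset
open scoped ENNReal

namespace Pool.Agent.T2H32.TG

open Pool.Agent.W93.PG (WinP cnt)
open Pool.Agent.H560R3.GB (sing C₂)
open Pool.Agent.W93.GB (C2_pos C2_half)

/-- very slowly growing functions -/
structure Rv (t : ℕ → ℝ) : Prop extends Sl t where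
  sq : Tendsto (fun x : ℕ => t (Nat.sqrt x) / t x) atTop (𝓝 1)
  top : Tendsto t atTop atTop
  ll : ∃ A : ℝ, 0 < A ∧ ∀ᶠ x : ℕ in atTop, t x ≤ A * Real.log (Real.log x)

theorem Rv.pos {t : ℕ → ℝ} (h : Rv t) (x : ℕ) : 0 < t x := one_pos.trans_le (h.one_le x)

theorem sqrt_top : Tendsto Nat.sqrt atTop atTop := by
  rw [tendsto_atTop_atTop]
  intro b
  exact ⟨b * b, fun a ha => Nat.le_sqrt.2 ha⟩

/-- exponentials of multiples of `t` are smaller than powers of `x` -/
theorem Rv.sub (t : ℕ → ℝ) (h : Rv t) (c C a : ℝ) (hc : 0 < c) (hC : 0 < C) (ha : 0 < a) :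
    ∀ᶠ x : ℕ in atTop, C * Real.exp (c * t x) ≤ (x : ℝ) ^ a := by
  obtain ⟨A, hA, h1⟩ := h.ll
  have h2 := (log_pow_small C a ha (c * A)).eventually_le_const (show (0 : ℝ) < 1 by norm_num)
  filter_upwards [h1, h2, logtop.eventually_ge_atTop 1, eventually_ge_atTop 1] with x a1 a2 a3 a4
  have hx0 : (0 : ℝ) < x := by exact_mod_cast a4
  have hl : 0 < Real.log (x : ℝ) := by linarith
  rw [div_le_one (by positivity)] at a2
  refine le_trans ?_ a2
  apply mul_le_mul_of_nonneg_left _ hC.le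
  rw [Real.rpow_def_of_pos hl]
  apply Real.exp_le_exp.2
  calc c * t x ≤ c * (A * Real.log (Real.log x)) := mul_le_mul_of_nonneg_left a1 hc.le
    _ = Real.log (Real.log x) * (c * A) := by ring

/-- and than a power of `log x` -/
theorem Rv.sublog (t : ℕ → ℝ) (h : Rv t) (c C : ℝ) (hc : 0 < c) (hC : 0 < C) : ∃ U : ℕ,
    ∀ᶠ x : ℕ in atTop, C * Real.exp (c * t x) ≤ Real.log x ^ U := by
  obtain ⟨A, hA, h1⟩ := h.ll
  obtain ⟨U, hU⟩ := exists_nat_ge (c * A)
  refine ⟨U + 1, ?_⟩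
  filter_upwards [h1, logtop.eventually_ge_atTop (max 1 C)] with x a1 a3
  have hl1 := (le_max_left _ _).trans a3
  have hlC := (le_max_right _ _).trans a3
  have hl : 0 < Real.log (x : ℝ) := by linarith
  have b1 : Real.exp (c * t x) ≤ Real.log x ^ U := by
    calc Real.exp (c * t x) ≤ Real.exp (Real.log (Real.log x) * (c * A)) := by
          apply Real.exp_le_exp.2
          calc c * t x ≤ c * (A * Real.log (Real.log x)) := mul_le_mul_of_nonneg_left a1 hc.le
            _ = Real.log (Real.log x) * (c * A) := by ring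
      _ = Real.log x ^ (c * A) := by rw [Real.rpow_def_of_pos hl]
      _ ≤ Real.log x ^ (U : ℝ) := Real.rpow_le_rpow_of_exponent_le hl1 hU
      _ = Real.log x ^ U := Real.rpow_natCast _ _
  rw [pow_succ, mul_comm]
  exact mul_le_mul b1 hlC hC.le (by positivity)

theorem Rv.sq2 (t : ℕ → ℝ) (h : Rv t) (ε : ℝ) (hε : 0 < ε) : ∀ᶠ x : ℕ in atTop, (1 - ε) * t x ≤ t (Nat.sqrt (Nat.sqrt x)) := by
  have h1 : Tendsto (fun x : ℕ => t (Nat.sqrt (Nat.sqrt x)) / t (Nat.sqrt x)) atTop (𝓝 1) := h.sq.comp sqrt_top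
  have h2 := h1.mul h.sq
  rw [one_mul] at h2
  filter_upwards [h2.eventually_const_le (show 1 - ε < 1 by linarith)] with x hx
  have a1 := h.pos x
  have a2 := h.pos (Nat.sqrt x)
  rw [div_mul_div_cancel₀ a2.ne', le_div_iff₀ a1] at hx
  exact hx

theorem Rv.dbl (t : ℕ → ℝ) (h : Rv t) (ε : ℝ) (hε : 0 < ε) : ∀ᶠ x : ℕ in atTop, t (2 * x) ≤ (1 + ε) * t x := by
  have h2 : Tendsto (fun x : ℕ => 2 * x) atTop atTop := tendsto_id.const_mul_atTop' (by norm_num)
  have h1 := (h.sq.comp h2).eventually_const_le (show (1 + ε)⁻¹ < 1 by rw [inv_lt_one₀ (by linarith)]; linarith)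
  filter_upwards [h1, eventually_ge_atTop 2] with x hx hx2
  have a1 := h.pos (2 * x)
  simp only [Function.comp] at hx
  rw [inv_eq_one_div, div_le_div_iff₀ (by linarith) a1, one_mul] at hx
  have a3 : t (Nat.sqrt (2 * x)) ≤ t x := by
    apply h.mono
    rw [← Nat.lt_succ_iff, Nat.sqrt_lt]
    nlinarith
  nlinarith

/-- the sum of the weights -/
theorem Rv.al_lim (t : ℕ → ℝ) (h : Rv t) :
    Tendsto (fun x : ℕ => (∑ i ∈ range (x + 1), al t i) / (√(t x) * √(x : ℝ))) atTop (𝓝 2) := by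
  obtain ⟨p₀, hp₀⟩ := eventually_atTop.1 (al_eq t h.toSl)
  obtain ⟨C, hC, hSL⟩ := SL_bound
  have hal0 : al t 0 = 0 := by simp [al, lp]
  have hsx : Tendsto (fun x : ℕ => √(x : ℝ)) atTop atTop := Real.tendsto_sqrt_atTop.comp tendsto_natCast_atTop_atTop
  -- the lower bound
  have h1 : Tendsto (fun x : ℕ => √(t (Nat.sqrt x) / t x) * (SL x / √(x : ℝ) - C * (1 / √(√(x : ℝ))))) atTop (𝓝 (√1 * (2 - C * 0))) := by
    apply Tendsto.mul
    · exact (Real.continuous_sqrt.tendsto 1).comp h.sq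
    · apply SL_lim.sub
      apply Tendsto.const_mul
      apply Tendsto.div_atTop tendsto_const_nhds
      exact Real.tendsto_sqrt_atTop.comp hsx
  rw [Real.sqrt_one, one_mul, mul_zero, sub_zero] at h1
  refine tendsto_of_tendsto_of_tendsto_of_le_of_le' h1 SL_lim ?_ ?_
  · filter_upwards [sqrt_top.eventually_ge_atTop p₀, eventually_ge_atTop 1] with x hx hx1
    have hx0 : (0 : ℝ) < x := by exact_mod_cast hx1
    have hs0 : 0 < √(x : ℝ) := Real.sqrt_pos.2 hx0
    have ht := h.pos x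
    have hts := h.pos (Nat.sqrt x)
    have hsle : Nat.sqrt x ≤ x := Nat.sqrt_le_self x
    have b1 : √(t (Nat.sqrt x)) * (SL x - SL (Nat.sqrt x)) ≤ ∑ i ∈ range (x + 1), al t i := by
      have e : SL x - SL (Nat.sqrt x) = ∑ i ∈ Ioc (Nat.sqrt x) x, lp i := by
        unfold SL
        rw [sub_eq_iff_eq_add]
        have e2 : Ioc 0 x = Ioc (Nat.sqrt x) x ∪ Ioc 0 (Nat.sqrt x) := by
          ext j
          simp only [mem_Ioc, mem_union]
          omega
        have hd : Disjoint (Ioc (Nat.sqrt x) x) (Ioc 0 (Nat.sqrt x)) := by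
          rw [disjoint_left]
          intro j h1 h2
          rw [mem_Ioc] at h1 h2
          omega
        rw [e2, sum_union hd]
      rw [e, mul_sum]
      calc ∑ i ∈ Ioc (Nat.sqrt x) x, √(t (Nat.sqrt x)) * lp i ≤ ∑ i ∈ Ioc (Nat.sqrt x) x, al t i := by
            apply sum_le_sum
            intro i hi
            rw [mem_Ioc] at hi
            rw [hp₀ i (by omega)]
            exact mul_le_mul_of_nonneg_right (Real.sqrt_le_sqrt (h.mono hi.1.le)) (lp_nonneg i)
        _ ≤ _ := by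
            apply sum_le_sum_of_subset_of_nonneg
            · intro j hj
              rw [mem_Ioc] at hj
              rw [mem_range]
              omega
            · intro j _ _
              exact al_nonneg t j
    have b2 : SL (Nat.sqrt x) ≤ C * √(√(x : ℝ)) := by
      refine (hSL _).trans (mul_le_mul_of_nonneg_left ?_ hC.le)
      exact Real.sqrt_le_sqrt (Real.nat_sqrt_le_real_sqrt)
    rw [Real.sqrt_div hts.le, le_div_iff₀ (by positivity)]
    have hss : √(√(x : ℝ)) * √(√(x : ℝ)) = √(x : ℝ) := Real.mul_self_sqrt hs0.le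
    have hss0 : 0 < √(√(x : ℝ)) := Real.sqrt_pos.2 hs0
    have htx0 : 0 < √(t x) := Real.sqrt_pos.2 ht
    calc √(t (Nat.sqrt x)) / √(t x) * (SL x / √(x : ℝ) - C * (1 / √(√(x : ℝ)))) * (√(t x) * √(x : ℝ))
        = √(t (Nat.sqrt x)) * (SL x - C * (√(x : ℝ) / √(√(x : ℝ)))) := by field_simp
      _ = √(t (Nat.sqrt x)) * (SL x - C * √(√(x : ℝ))) := by
          congr 3
          rw [div_eq_iff hss0.ne']
          exact hss.symm
      _ ≤ √(t (Nat.sqrt x)) * (SL x - SL (Nat.sqrt x)) := mul_le_mul_of_nonneg_left (by linarith) (Real.sqrt_nonneg _)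
      _ ≤ _ := b1
  · filter_upwards [eventually_ge_atTop 1] with x hx1
    have hx0 : (0 : ℝ) < x := by exact_mod_cast hx1
    have hs0 : 0 < √(x : ℝ) := Real.sqrt_pos.2 hx0
    have htx0 : 0 < √(t x) := Real.sqrt_pos.2 (h.pos x)
    rw [div_le_div_iff₀ (by positivity) hs0, range_Ioc _ hal0]
    have : ∑ i ∈ Ioc 0 x, al t i ≤ √(t x) * SL x := by
      unfold SL
      rw [mul_sum]
      apply sum_le_sum
      intro i hi
      refine (al_le' t i).trans (mul_le_mul_of_nonneg_right ?_ (lp_nonneg i))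
      exact Real.sqrt_le_sqrt (h.mono (mem_Ioc.1 hi).2)
    nlinarith

/-- comparison with the weights `lp` -/
theorem al_bb (t : ℕ → ℝ) (h : Sl t) : ∃ p₀ : ℕ, ∀ n i s : ℕ, p₀ ≤ s → s ≤ i → i ≤ n →
    t s * bb (am 1) (2 * n) i ≤ bb (al t) (2 * n) i ∧ bb (al t) (2 * n) i ≤ t (2 * n) * bb (am 1) (2 * n) i := by
  obtain ⟨p₀, hp₀⟩ := eventually_atTop.1 (al_eq t h)
  refine ⟨p₀, fun n i s hs hsi hin => ?_⟩
  have ham : ∀ j, am 1 j = lp j := fun j => by
    unfold am
    rw [one_mul]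
    exact min_eq_right (lp_le_one j)
  have ht : ∀ j, 0 ≤ t j := fun j => zero_le_one.trans (h.one_le j)
  unfold bb
  split_ifs with hI
  · rw [ham, ham]
    constructor
    · rw [hp₀ i (by omega), hp₀ (2 * n - i) (by omega)]
      have h1 : √(t s) ≤ √(t i) := Real.sqrt_le_sqrt (h.mono hsi)
      have h2 : √(t s) ≤ √(t (2 * n - i)) := Real.sqrt_le_sqrt (h.mono (by omega))
      calc t s * (lp i * lp (2 * n - i)) = (√(t s) * lp i) * (√(t s) * lp (2 * n - i)) := by
            nth_rw 1 [← Real.mul_self_sqrt (ht s)]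
            ring
        _ ≤ _ := mul_le_mul (mul_le_mul_of_nonneg_right h1 (lp_nonneg _)) (mul_le_mul_of_nonneg_right h2 (lp_nonneg _))
            (mul_nonneg (Real.sqrt_nonneg _) (lp_nonneg _)) (mul_nonneg (Real.sqrt_nonneg _) (lp_nonneg _))
    · have h1 : √(t i) ≤ √(t (2 * n)) := Real.sqrt_le_sqrt (h.mono (by omega))
      have h2 : √(t (2 * n - i)) ≤ √(t (2 * n)) := Real.sqrt_le_sqrt (h.mono (by omega))
      calc al t i * al t (2 * n - i) ≤ (√(t i) * lp i) * (√(t (2 * n - i)) * lp (2 * n - i)) :=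
            mul_le_mul (al_le' t _) (al_le' t _) (al_nonneg t _) (mul_nonneg (Real.sqrt_nonneg _) (lp_nonneg _))
        _ ≤ (√(t (2 * n)) * lp i) * (√(t (2 * n)) * lp (2 * n - i)) :=
            mul_le_mul (mul_le_mul_of_nonneg_right h1 (lp_nonneg _)) (mul_le_mul_of_nonneg_right h2 (lp_nonneg _))
              (mul_nonneg (Real.sqrt_nonneg _) (lp_nonneg _)) (mul_nonneg (Real.sqrt_nonneg _) (lp_nonneg _))
        _ = _ := by
            nth_rw 3 [← Real.mul_self_sqrt (ht (2 * n))]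
            ring
  · simp

/-- both sides for the large pairs -/
theorem al_large (t : ℕ → ℝ) (h : Rv t) (δ : ℝ) (hδ : 0 < δ) (hδ1 : δ ≤ 1 / 8) : ∃ n₀ : ℕ, ∀ n : ℕ, n₀ ≤ n → WinP (δ ^ 2) 1 (2 * n) →
    t (Nat.sqrt n) * ((Real.pi / 2 - (Real.arccos (1 - 3 * δ) + 8 * δ)) * sing (2 * n)) ≤
      ∑ i ∈ Ioc ⌊2 * δ * n⌋₊ (n - 1), bb (al t) (2 * n) i ∧
    ∑ i ∈ Ioc ⌊2 * δ * n⌋₊ (n - 1), bb (al t) (2 * n) i ≤
      t (2 * n) * ((Real.pi / 2 + (Real.arccos (1 - 3 * δ) + 8 * δ)) * sing (2 * n)) ∧ ⌊2 * δ * n⌋₊ ≤ n - 1 := by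
  obtain ⟨n₁, h1⟩ := mu_large 1 one_pos δ hδ hδ1
  obtain ⟨p₀, hp₀⟩ := al_bb t h.toSl
  obtain ⟨n₂, hn₂⟩ := exists_nat_ge (1 / δ ^ 2)
  refine ⟨n₁ + n₂ + p₀ * p₀ + 1, fun n hn hW => ?_⟩
  obtain ⟨h2, h3⟩ := h1 n (by omega) hW
  have hn1 : (1 : ℝ) ≤ n := by exact_mod_cast (by omega : 1 ≤ n)
  have hn2 : 1 / δ ^ 2 ≤ (n : ℝ) := hn₂.trans (by exact_mod_cast (by omega : n₂ ≤ n))
  rw [div_le_iff₀ (by positivity)] at hn2
  have hsp : p₀ ≤ Nat.sqrt n := Nat.le_sqrt.2 (by omega)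
  have hsy : Nat.sqrt n ≤ ⌊2 * δ * n⌋₊ := by
    apply Nat.le_floor
    refine (Real.nat_sqrt_le_real_sqrt).trans ?_
    rw [Real.sqrt_le_left (by positivity)]
    nlinarith
  have hb : ∀ i ∈ Ioc ⌊2 * δ * n⌋₊ (n - 1), t (Nat.sqrt n) * bb (am 1) (2 * n) i ≤ bb (al t) (2 * n) i ∧
      bb (al t) (2 * n) i ≤ t (2 * n) * bb (am 1) (2 * n) i := by
    intro i hi
    rw [mem_Ioc] at hi
    exact hp₀ n i (Nat.sqrt n) hsp (by omega) (by omega)
  have h4 := abs_le.1 h2
  rw [one_pow, one_mul, mul_one] at h4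
  have ht1 := h.pos (Nat.sqrt n)
  have ht2 := h.pos (2 * n)
  refine ⟨?_, ?_, h3⟩
  · refine le_trans ?_ (sum_le_sum fun i hi => (hb i hi).1)
    rw [← mul_sum]
    apply mul_le_mul_of_nonneg_left _ ht1.le
    linarith [h4.1]
  · refine (sum_le_sum fun i hi => (hb i hi).2).trans ?_
    rw [← mul_sum]
    apply mul_le_mul_of_nonneg_left _ ht2.le
    linarith [h4.2]

theorem mu_split' (α : ℕ → ℝ) (y n : ℕ) (h : y ≤ n - 1) :
    mu α (2 * n) = ∑ i ∈ range (y + 1), bb α (2 * n) i + ∑ i ∈ Ioc y (n - 1), bb α (2 * n) i := by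
  classical
  unfold mu
  rcases Nat.eq_zero_or_pos n with h0 | h0
  · subst h0
    have hy : y = 0 := by omega
    subst hy
    simp only [mul_zero, range_zero, sum_empty, zero_add, range_one, sum_singleton, Nat.zero_sub, Ioc_self, add_zero]
    unfold bb
    rw [if_neg]
    rintro ⟨h1, _, _⟩
    exact Nat.not_prime_zero h1
  · have e : range (2 * n) = (range (y + 1) ∪ Ioc y (n - 1)) ∪ Ico n (2 * n) := by
      ext j
      simp only [mem_range, mem_union, mem_Ioc, mem_Ico]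
      omega
    have hd1 : Disjoint (range (y + 1) ∪ Ioc y (n - 1)) (Ico n (2 * n)) := by
      rw [disjoint_left]
      intro j hj hj'
      simp only [mem_range, mem_union, mem_Ioc, mem_Ico] at hj hj'
      omega
    have hd2 : Disjoint (range (y + 1)) (Ioc y (n - 1)) := by
      rw [disjoint_left]
      intro j hj hj'
      simp only [mem_range, mem_Ioc] at hj hj'
      omega
    rw [e, sum_union hd1, sum_union hd2]
    have : ∑ i ∈ Ico n (2 * n), bb α (2 * n) i = 0 := by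
      apply sum_eq_zero
      intro i hi
      rw [mem_Ico] at hi
      unfold bb
      rw [if_neg]
      rintro ⟨_, _, h3⟩
      omega
    rw [this, add_zero]

end Pool.Agent.T2H32.TG
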