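import Pool.Agent.T2H32.TG.RV
import Pool.Agent.T2H32.BF.Asy2

set_option autoImplicit false

/-! # The rate of the exceptions -/

open MeasureTheory ProbabilityTheory Filter Topology Finset
open scoped ENNReal

namespace Pool.Agent.T2H32.TG

open Pool.Agent.W93.PG (WinP cnt)
open Pool.Agent.H560R3.GB (sing C₂)
open Pool.Agent.W93.GB (C2_pos C2_half)

variable {Ω : Type*} [MeasurableSpace Ω] {P : Measure Ω}

/-- the expected number of exceptions -/
noncomputable def EE (P : Measure Ω) (A : ℕ → Set Ω) (x : ℕ) : ℝ := ∑ n ∈ Icc 1 x, P.real {ω | R A ω (2 * n) = 0}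

theorem hh_rho (δ : ℝ) (hδ : 0 < δ) : Real.arccos (1 - 3 * δ) + 8 * δ ≤ hh δ / 2 ∧ √δ ≤ hh δ / 2 := by
  have h1 := Real.arccos_nonneg (1 - 3 * δ)
  have h2 := Real.sqrt_nonneg δ
  unfold hh
  constructor <;> linarith

theorem E_up [IsProbabilityMeasure P] (t : ℕ → ℝ) (h : Rv t) (A : ℕ → Set Ω) (hA : ∀ k, MeasurableSet (A k))
    (hind : iIndepSet A P) (hP : ∀ k, P.real (A k) = al t k) (ε : ℝ) (hε : 0 < ε) :
    ∀ᶠ x : ℕ in atTop, EE P A x + 31 * (x : ℝ) ^ (19 / 20 : ℝ) ≤ x * Real.exp (-((Real.pi * C₂ - ε) * t x)) := by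
  classical
  have hPf : (fun i => P.real (A i)) = al t := by funext i; exact hP i
  have hC2 := C2_pos
  have hπ := Real.pi_pos
  obtain ⟨δ, hδ, hδ1, hδ2, hδ3⟩ := hh_small (ε / (4 * C₂)) (by positivity)
  obtain ⟨ρ, hρ⟩ : ∃ ρ, ρ = Real.arccos (1 - 3 * δ) + 8 * δ := ⟨_, rfl⟩
  have hρ1 : 2 * C₂ * ρ ≤ ε / 4 := by
    have := (hh_rho δ hδ).1
    rw [← hρ] at this
    have h2 : ρ ≤ ε / (4 * C₂) / 2 := by linarith
    calc 2 * C₂ * ρ ≤ 2 * C₂ * (ε / (4 * C₂) / 2) := mul_le_mul_of_nonneg_left h2 (by positivity)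
      _ = ε / 4 := by field_simp
  rw [← hρ] at hδ3
  obtain ⟨n₀, h1⟩ := al_large t h δ hδ hδ1
  obtain ⟨c1, hc1⟩ : ∃ c1, c1 = (Real.pi / 2 - ρ) * (2 * C₂) := ⟨_, rfl⟩
  have hpi3 := Real.pi_gt_three
  have hc1pos : 0 < c1 := by
    rw [hc1]
    apply mul_pos _ (by positivity)
    linarith
  have hc1a : Real.pi * C₂ - ε / 4 ≤ c1 := by rw [hc1]; nlinarith
  obtain ⟨ε2, hε2, hε2a⟩ : ∃ ε2 : ℝ, 0 < ε2 ∧ c1 * ε2 ≤ ε / 4 := ⟨ε / (4 * c1), by positivity, by field_simp; exact le_rfl⟩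
  obtain ⟨U, hU⟩ := h.sublog t (Real.pi * C₂) 5 (by positivity) (by norm_num)
  obtain ⟨n₂, h2⟩ := win_density (δ ^ 2) (by positivity) 1 U
  have hsub := h.sub t (Real.pi * C₂) (5 * (n₀ + 32)) (1 / 20) (by positivity) (by positivity) (by norm_num)
  filter_upwards [hU, hsub, h.sq2 t ε2 hε2, h.top.eventually_ge_atTop (2 * Real.log 5 / ε), eventually_ge_atTop n₂, eventually_ge_atTop 16,
    logtop.eventually_ge_atTop 1] with x hx1 hx2 hx3 hx4 hx5 hx6 hx7
  have hxr : (16 : ℝ) ≤ x := by exact_mod_cast hx6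
  have hx0 : (0 : ℝ) < x := by linarith
  have htx := h.pos x
  -- termwise
  have hterm : ∀ n ∈ Icc 1 x, P.real {ω | R A ω (2 * n) = 0} ≤ (if n < n₀ then (1 : ℝ) else 0) +
      (if ¬ WinP (δ ^ 2) 1 (2 * n) then (1 : ℝ) else 0) + (if n < Nat.sqrt x then (1 : ℝ) else 0) +
      Real.exp (-((1 - ε2) * t x * c1)) := by
    intro n _
    have b0 : P.real {ω | R A ω (2 * n) = 0} ≤ 1 := measureReal_le_one
    have b1 := Real.exp_pos (-((1 - ε2) * t x * c1))
    by_cases d1 : n < n₀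
    · rw [if_pos d1]
      split_ifs <;> linarith
    · by_cases d2 : WinP (δ ^ 2) 1 (2 * n)
      · by_cases d3 : n < Nat.sqrt x
        · rw [if_pos d3]
          split_ifs <;> linarith
        · rw [if_neg d1, if_neg (not_not.2 d2), if_neg d3, zero_add, zero_add, zero_add]
          obtain ⟨e1, _, e2⟩ := h1 n (by omega) d2
          rw [← hρ] at e1
          have e3 := R_zero (P := P) A hA hind (2 * n)
          rw [hPf] at e3
          refine e3.trans (Real.exp_le_exp.2 (neg_le_neg ?_))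
          rw [mu_split' (al t) _ n e2]
          have e4 : 0 ≤ ∑ i ∈ range (⌊2 * δ * n⌋₊ + 1), bb (al t) (2 * n) i :=
            sum_nonneg fun i _ => bb_nonneg _ (al_nonneg t) _ i
          have e5 : c1 ≤ (Real.pi / 2 - ρ) * sing (2 * n) := by
            rw [hc1]
            apply mul_le_mul_of_nonneg_left (sing_ge _)
            linarith
          have e6 : t (Nat.sqrt (Nat.sqrt x)) ≤ t (Nat.sqrt n) := h.mono (Nat.sqrt_le_sqrt (by omega))
          have e7 : (1 - ε2) * t x * c1 ≤ t (Nat.sqrt n) * ((Real.pi / 2 - ρ) * sing (2 * n)) := by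
            calc (1 - ε2) * t x * c1 ≤ t (Nat.sqrt n) * c1 := mul_le_mul_of_nonneg_right (hx3.trans e6) hc1pos.le
              _ ≤ _ := mul_le_mul_of_nonneg_left e5 (h.pos _).le
          linarith
      · rw [if_pos d2]
        split_ifs <;> linarith
  unfold EE
  refine le_trans (add_le_add_left (sum_le_sum hterm) _) ?_
  rw [sum_add_distrib, sum_add_distrib, sum_add_distrib]
  have s1 : ∑ n ∈ Icc 1 x, (if n < n₀ then (1 : ℝ) else 0) ≤ n₀ := by
    rw [← sum_filter, sum_const, nsmul_eq_mul, mul_one]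
    have : ((Icc 1 x).filter (fun n => n < n₀)).card ≤ n₀ := by
      calc _ ≤ (range n₀).card := by
            apply card_le_card
            intro n hn
            rw [mem_filter] at hn
            exact mem_range.2 hn.2
        _ = _ := card_range _
    exact_mod_cast this
  have s2 : ∑ n ∈ Icc 1 x, (if ¬ WinP (δ ^ 2) 1 (2 * n) then (1 : ℝ) else 0) ≤ x / Real.log x ^ U := by
    rw [← sum_filter, sum_const, nsmul_eq_mul, mul_one]
    exact h2 x hx5
  have s3 : ∑ n ∈ Icc 1 x, (if n < Nat.sqrt x then (1 : ℝ) else 0) ≤ √(x : ℝ) := by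
    rw [← sum_filter, sum_const, nsmul_eq_mul, mul_one]
    have : ((Icc 1 x).filter (fun n => n < Nat.sqrt x)).card ≤ Nat.sqrt x := by
      calc _ ≤ (range (Nat.sqrt x)).card := by
            apply card_le_card
            intro n hn
            rw [mem_filter] at hn
            exact mem_range.2 hn.2
        _ = _ := card_range _
    have h5 : (((Icc 1 x).filter (fun n => n < Nat.sqrt x)).card : ℝ) ≤ Nat.sqrt x := by exact_mod_cast this
    exact h5.trans Real.nat_sqrt_le_real_sqrt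
  have s4 : ∑ n ∈ Icc 1 x, Real.exp (-((1 - ε2) * t x * c1)) = x * Real.exp (-((1 - ε2) * t x * c1)) := by
    rw [sum_const, Nat.card_Icc, Nat.add_sub_cancel, nsmul_eq_mul]
  rw [s4]
  obtain ⟨Z, hZ⟩ : ∃ Z, Z = Real.exp (-((Real.pi * C₂ - ε) * t x)) := ⟨_, rfl⟩
  have hZ0 : 0 < Z := by rw [hZ]; exact Real.exp_pos _
  rw [← hZ]
  have hZ1 : Real.exp (-(Real.pi * C₂ * t x)) ≤ Z := by
    rw [hZ]
    apply Real.exp_le_exp.2
    nlinarith
  -- each term is at most a fifth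
  have k2 : (x : ℝ) / Real.log x ^ U ≤ x * (Z / 5) := by
    have hl : 0 < Real.log (x : ℝ) ^ U := by positivity
    rw [div_le_iff₀ hl]
    have e1 : 1 ≤ Z / 5 * Real.log (x : ℝ) ^ U := by
      calc (1 : ℝ) = Real.exp (-(Real.pi * C₂ * t x)) / 5 * (5 * Real.exp (Real.pi * C₂ * t x)) := by
            rw [Real.exp_neg]
            field_simp
        _ ≤ Z / 5 * Real.log (x : ℝ) ^ U := by
            apply mul_le_mul _ hx1 (by positivity) (by positivity)
            linarith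
    calc (x : ℝ) = x * 1 := (mul_one _).symm
      _ ≤ x * (Z / 5 * Real.log (x : ℝ) ^ U) := mul_le_mul_of_nonneg_left e1 hx0.le
      _ = _ := by ring
  have k3 : (n₀ : ℝ) + √(x : ℝ) + 31 * (x : ℝ) ^ (19 / 20 : ℝ) ≤ x * (Z / 5) := by
    have d1 : (1 : ℝ) ≤ (x : ℝ) ^ (19 / 20 : ℝ) := Real.one_le_rpow (by linarith) (by norm_num)
    have d2 : √(x : ℝ) ≤ (x : ℝ) ^ (19 / 20 : ℝ) := by
      rw [Real.sqrt_eq_rpow]
      exact Real.rpow_le_rpow_of_exponent_le (by linarith) (by norm_num)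
    have hn0 : (0 : ℝ) ≤ n₀ := Nat.cast_nonneg _
    have d3 : (n₀ : ℝ) + √(x : ℝ) + 31 * (x : ℝ) ^ (19 / 20 : ℝ) ≤ (n₀ + 32) * (x : ℝ) ^ (19 / 20 : ℝ) := by nlinarith
    refine d3.trans ?_
    have d4 : (x : ℝ) = (x : ℝ) ^ (1 / 20 : ℝ) * (x : ℝ) ^ (19 / 20 : ℝ) := by
      rw [← Real.rpow_add hx0]
      norm_num
    have d5 : (n₀ + 32 : ℝ) ≤ (x : ℝ) ^ (1 / 20 : ℝ) * (Z / 5) := by
      calc (n₀ + 32 : ℝ) = (5 * (n₀ + 32) * Real.exp (Real.pi * C₂ * t x)) * (Real.exp (-(Real.pi * C₂ * t x)) / 5) := by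
            rw [Real.exp_neg]
            field_simp
        _ ≤ (x : ℝ) ^ (1 / 20 : ℝ) * (Z / 5) := by
            apply mul_le_mul hx2 _ (by positivity) (by positivity)
            linarith
    calc (n₀ + 32) * (x : ℝ) ^ (19 / 20 : ℝ) ≤ ((x : ℝ) ^ (1 / 20 : ℝ) * (Z / 5)) * (x : ℝ) ^ (19 / 20 : ℝ) :=
          mul_le_mul_of_nonneg_right d5 (by positivity)
      _ = ((x : ℝ) ^ (1 / 20 : ℝ) * (x : ℝ) ^ (19 / 20 : ℝ)) * (Z / 5) := by ring
      _ = x * (Z / 5) := by rw [← d4]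
  have k4 : x * Real.exp (-((1 - ε2) * t x * c1)) ≤ x * (Z / 5) := by
    apply mul_le_mul_of_nonneg_left _ hx0.le
    have e1 : Z / 5 = Real.exp (-((Real.pi * C₂ - ε) * t x) - Real.log 5) := by
      rw [Real.exp_sub, Real.exp_log (by norm_num), hZ]
    rw [e1]
    apply Real.exp_le_exp.2
    rw [div_le_iff₀ hε] at hx4
    have e2 : (Real.pi * C₂ - ε / 2) * t x ≤ (1 - ε2) * t x * c1 := by
      have : Real.pi * C₂ - ε / 2 ≤ (1 - ε2) * c1 := by linarith
      calc (Real.pi * C₂ - ε / 2) * t x ≤ ((1 - ε2) * c1) * t x := mul_le_mul_of_nonneg_right this htx.le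
        _ = _ := by ring
    linarith
  have : 0 < x * Z := by positivity
  linarith

theorem al_small (t : ℕ → ℝ) (h : Sl t) (a : ℝ) (ha : a < 1 / 2) (c : ℝ) (hc : 0 < c) : ∀ᶠ p : ℕ in atTop, al t p ≤ c * (p : ℝ) ^ (-a) := by
  obtain ⟨C, hC, h1⟩ := h.le_log
  have h2 := (log_pow_small (√C) (1 / 2 - a) (by linarith) (3 / 2)).eventually_le_const hc
  filter_upwards [h1, h2, eventually_ge_atTop 3] with p a1 a2 a3
  refine (al_le' t p).trans ?_
  have hp : (3 : ℝ) ≤ p := by exact_mod_cast a3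
  have hp0 : (0 : ℝ) < p := by linarith
  have hlog : 0 < Real.log p := Real.log_pos (by linarith)
  have b2 : √(t p) ≤ √C * Real.log p ^ (1 / 2 : ℝ) := by
    rw [← Real.sqrt_eq_rpow, ← Real.sqrt_mul hC.le]
    exact Real.sqrt_le_sqrt a1
  rw [div_le_iff₀ (by positivity)] at a2
  calc √(t p) * lp p ≤ (√C * Real.log p ^ (1 / 2 : ℝ)) * (Real.log p / √(p : ℝ)) :=
        mul_le_mul b2 (lp_le p) (lp_nonneg p) (by positivity)
    _ = (√C * Real.log p ^ (3 / 2 : ℝ)) / √(p : ℝ) := by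
        have : Real.log p ^ (3 / 2 : ℝ) = Real.log p ^ (1 / 2 : ℝ) * Real.log p := by
          rw [← Real.rpow_add_one hlog.ne']
          norm_num
        rw [this]
        ring
    _ ≤ (c * (p : ℝ) ^ (1 / 2 - a)) / √(p : ℝ) := div_le_div_of_nonneg_right a2 (Real.sqrt_nonneg _)
    _ = c * (p : ℝ) ^ (-a) := by
        rw [Real.sqrt_eq_rpow, mul_div_assoc, ← Real.rpow_sub hp0]
        congr 2
        ring

theorem law_ge (b : ℕ → ℝ) (η : ℝ) (hη : η ≤ 1 / 4) (h0 : ∀ i, 0 ≤ b i) (h1 : ∀ i, b i ≤ η) (N : ℕ) :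
    Real.exp (-((1 + η) * ∑ i ∈ range N, b i)) ≤ law b N 0 := by
  induction N with
  | zero =>
    unfold law
    rw [Ex_zero]
    simp
  | succ N ih =>
    rw [law_zero, sum_range_succ]
    have a1 : Real.exp (-((1 + η) * b N)) ≤ 1 - b N := by
      have c1 := BF.log_lower (b N) (h0 N) ((h1 N).trans hη)
      have c2 : 0 < 1 - b N := by linarith [h1 N]
      rw [← Real.exp_log c2]
      apply Real.exp_le_exp.2
      nlinarith [h0 N, h1 N]
    calc Real.exp (-((1 + η) * (∑ i ∈ range N, b i + b N)))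
        = Real.exp (-((1 + η) * b N)) * Real.exp (-((1 + η) * ∑ i ∈ range N, b i)) := by
          rw [← Real.exp_add]
          congr 1
          ring
      _ ≤ (1 - b N) * law b N 0 := mul_le_mul a1 ih (Real.exp_pos _).le (by linarith [h1 N])

theorem eta_small (ε : ℝ) (hε : 0 < ε) : ∃ η : ℝ, 0 < η ∧ η ≤ 1 / 4 ∧
    (1 + η) * (η + (1 + η) * ((Real.pi / 2 + η) * (2 * C₂ * Real.exp η))) ≤ Real.pi * C₂ + ε := by
  have hc : Continuous fun η : ℝ => (1 + η) * (η + (1 + η) * ((Real.pi / 2 + η) * (2 * C₂ * Real.exp η))) := by fun_prop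
  have h1 := hc.tendsto 0
  have h0 : (1 + 0) * (0 + (1 + 0) * ((Real.pi / 2 + 0) * (2 * C₂ * Real.exp 0))) = Real.pi * C₂ := by
    rw [Real.exp_zero]
    ring
  rw [h0, Metric.tendsto_nhds_nhds] at h1
  obtain ⟨r, hr, h2⟩ := h1 ε hε
  obtain ⟨d, hd⟩ : ∃ d, d = min (r / 2) (1 / 4) := ⟨_, rfl⟩
  have hd0 : 0 < d := by rw [hd]; positivity
  have hdr : d < r := by
    have : d ≤ r / 2 := by rw [hd]; exact min_le_left _ _
    linarith
  have h3 := h2 (x := d) (by rw [Real.dist_eq, sub_zero, abs_of_pos hd0]; exact hdr)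
  rw [Real.dist_eq] at h3
  have h4 := (le_abs_self _).trans_lt h3
  exact ⟨d, hd0, by rw [hd]; exact min_le_right _ _, by linarith⟩

theorem E_lo [IsProbabilityMeasure P] (t : ℕ → ℝ) (h : Rv t) (A : ℕ → Set Ω) (hA : ∀ k, MeasurableSet (A k))
    (hind : iIndepSet A P) (hP : ∀ k, P.real (A k) = al t k) (ε : ℝ) (hε : 0 < ε) :
    ∀ᶠ x : ℕ in atTop, x * Real.exp (-((Real.pi * C₂ + ε) * t x)) ≤ EE P A x - 31 * (x : ℝ) ^ (19 / 20 : ℝ) := by
  classical
  have hPf : (fun i => P.real (A i)) = al t := by funext i; exact hP i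
  have hC2 := C2_pos
  have hπ := Real.pi_pos
  obtain ⟨η, hη0, hη1, hη2⟩ := eta_small (ε / 2) (by positivity)
  obtain ⟨κ, hκ, x₁, hκ1⟩ := small_sing η hη0
  obtain ⟨C, hC, hsum⟩ := al_sum2
  obtain ⟨δ, hδ, hδ1, hδ2, hδ3⟩ := hh_small (min (2 * η) (2 * (κ * η / (16 * C ^ 2)))) (by positivity)
  have hδa := hδ2.trans_le (min_le_left _ _)
  have hδb := hδ2.trans_le (min_le_right _ _)
  obtain ⟨hρ1, hρ2⟩ := hh_rho δ hδ
  obtain ⟨ρ, hρ⟩ : ∃ ρ, ρ = Real.arccos (1 - 3 * δ) + 8 * δ := ⟨_, rfl⟩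
  rw [← hρ] at hρ1
  have hρη : ρ ≤ η := by linarith
  have hδs : √δ ≤ κ * η / (16 * C ^ 2) := by linarith
  obtain ⟨n₀, h1⟩ := al_large t h δ hδ hδ1
  obtain ⟨n₂, h2⟩ := win_density (δ ^ 2) (by positivity) 1 1
  obtain ⟨n₃, h3⟩ := eventually_atTop.1 (al_small t h.toSl 0 (by norm_num) η hη0)
  obtain ⟨n₄, h4⟩ := eventually_atTop.1 (al_small t h.toSl (1 / 4) (by norm_num) (1 / 2) (by norm_num))
  have hsub := h.sub t (Real.pi * C₂ + ε / 2) 2 (1 / 4) (by positivity) (by norm_num) (by norm_num)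
  have hsub2 := h.sub t (Real.pi * C₂ + ε) 31 (1 / 20) (by positivity) (by norm_num) (by norm_num)
  filter_upwards [hsub, hsub2, h.dbl t η hη0, h.top.eventually_ge_atTop (2 * Real.log (8 / κ) / ε), eventually_ge_atTop n₂,
    eventually_ge_atTop x₁, eventually_ge_atTop (2 * (n₀ + n₃ + n₄ + 16)), logtop.eventually_ge_atTop (4 / κ)] with x hx1 hx2 hx3 hx4 hx5 hx6 hx7 hx8
  have hxr : (16 : ℝ) ≤ x := by exact_mod_cast (by omega : 16 ≤ x)
  have hx0 : (0 : ℝ) < x := by linarith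
  have htx := h.pos x
  obtain ⟨G, hG⟩ : ∃ G, G = (Ioc (x / 2) x).filter (fun n => sing (2 * n) ≤ 2 * C₂ * Real.exp η) := ⟨_, rfl⟩
  have hGc := hκ1 x hx6
  rw [← hG] at hGc
  obtain ⟨sm, hsm⟩ : ∃ sm : ℕ → ℝ, sm = fun n : ℕ => ∑ i ∈ range (⌊2 * δ * n⌋₊ + 1), bb (al t) (2 * n) i := ⟨_, rfl⟩
  have hsm0 : ∀ n, 0 ≤ sm n := fun n => by rw [hsm]; exact sum_nonneg fun i _ => bb_nonneg _ (al_nonneg t) _ i
  obtain ⟨B1, hB1⟩ : ∃ B1, B1 = (Icc 1 x).filter (fun n => ¬ WinP (δ ^ 2) 1 (2 * n)) := ⟨_, rfl⟩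
  obtain ⟨B2, hB2⟩ : ∃ B2, B2 = (Icc 1 x).filter (fun n => η * t x < sm n) := ⟨_, rfl⟩
  have hB1c : (B1.card : ℝ) ≤ κ / 4 * x := by
    have := h2 x hx5
    rw [← hB1] at this
    refine this.trans ?_
    have hl : 0 < Real.log (x : ℝ) := lt_of_lt_of_le (by positivity) hx8
    rw [pow_one, div_le_iff₀ hl]
    rw [div_le_iff₀ hκ] at hx8
    nlinarith
  have hsmsum : ∑ n ∈ Icc 1 x, sm n ≤ 4 * C ^ 2 * √δ * t x * x := by
    rw [hsm]
    have t1 := conv_bound (al t) (al_nonneg t) x (fun n => ⌊2 * δ * n⌋₊ + 1) (⌊2 * δ * x⌋₊ + 1) (fun n hn => by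
      rw [mem_Icc] at hn
      apply Nat.succ_le_succ
      apply Nat.floor_le_floor
      have : (n : ℝ) ≤ x := by exact_mod_cast hn.2
      nlinarith)
    refine t1.trans ?_
    have ht2 := h.pos (2 * x)
    have t2 : ∑ i ∈ range (⌊2 * δ * x⌋₊ + 1), al t i ≤ C * √(t (2 * x)) * (√2 * √δ * √(x : ℝ)) := by
      refine (hsum t h.toSl _).trans ?_
      apply mul_le_mul _ _ (Real.sqrt_nonneg _) (by positivity)
      · apply mul_le_mul_of_nonneg_left _ hC.le
        apply Real.sqrt_le_sqrt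
        apply h.mono
        have : (⌊2 * δ * x⌋₊ : ℝ) ≤ ((2 * x : ℕ) : ℝ) := by
          refine (Nat.floor_le (by positivity)).trans ?_
          push_cast
          nlinarith
        exact_mod_cast this
      · rw [← Real.sqrt_mul (by norm_num), ← Real.sqrt_mul (by positivity)]
        apply Real.sqrt_le_sqrt
        exact Nat.floor_le (by positivity)
    have t3 : ∑ i ∈ range (2 * x + 1), al t i ≤ C * √(t (2 * x)) * (√2 * √(x : ℝ)) := by
      have := hsum t h.toSl (2 * x)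
      rw [Nat.cast_mul, Nat.cast_ofNat, Real.sqrt_mul (by norm_num)] at this
      exact this
    have t4 : 0 ≤ ∑ i ∈ range (2 * x + 1), al t i := sum_nonneg fun i _ => al_nonneg t i
    have hsq2 : √(2 : ℝ) * √2 = 2 := Real.mul_self_sqrt (by norm_num)
    have hsqx : √(x : ℝ) * √(x : ℝ) = x := Real.mul_self_sqrt hx0.le
    have hsqt : √(t (2 * x)) * √(t (2 * x)) = t (2 * x) := Real.mul_self_sqrt ht2.le
    have hη2' : t (2 * x) ≤ 2 * t x := by nlinarith
    calc (∑ i ∈ range (⌊2 * δ * x⌋₊ + 1), al t i) * ∑ j ∈ range (2 * x + 1), al t j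
        ≤ (C * √(t (2 * x)) * (√2 * √δ * √(x : ℝ))) * (C * √(t (2 * x)) * (√2 * √(x : ℝ))) :=
          mul_le_mul t2 t3 t4 (by positivity)
      _ = C ^ 2 * √δ * (√(t (2 * x)) * √(t (2 * x))) * (√2 * √2) * (√(x : ℝ) * √(x : ℝ)) := by ring
      _ = (2 * C ^ 2 * √δ * x) * t (2 * x) := by rw [hsq2, hsqx, hsqt]; ring
      _ ≤ (2 * C ^ 2 * √δ * x) * (2 * t x) := mul_le_mul_of_nonneg_left hη2' (by positivity)
      _ = _ := by ring
  have hB2c : (B2.card : ℝ) ≤ κ / 4 * x := by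
    have e1 : (B2.card : ℝ) * (η * t x) ≤ 4 * C ^ 2 * √δ * t x * x := by
      calc (B2.card : ℝ) * (η * t x) = ∑ n ∈ B2, η * t x := by rw [sum_const, nsmul_eq_mul]
        _ ≤ ∑ n ∈ B2, sm n := by
            apply sum_le_sum
            intro n hn
            rw [hB2, mem_filter] at hn
            exact hn.2.le
        _ ≤ ∑ n ∈ Icc 1 x, sm n := by
            apply sum_le_sum_of_subset_of_nonneg
            · rw [hB2]; exact filter_subset _ _
            · intro n _ _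
              exact hsm0 n
        _ ≤ _ := hsmsum
    have e2 : 4 * C ^ 2 * √δ * t x * x ≤ (κ / 4 * x) * (η * t x) := by
      have : 4 * C ^ 2 * √δ ≤ κ * η / 4 := by
        calc 4 * C ^ 2 * √δ ≤ 4 * C ^ 2 * (κ * η / (16 * C ^ 2)) := mul_le_mul_of_nonneg_left hδs (by positivity)
          _ = κ * η / 4 := by field_simp; norm_num
      calc 4 * C ^ 2 * √δ * t x * x = (4 * C ^ 2 * √δ) * (t x * x) := by ring
        _ ≤ (κ * η / 4) * (t x * x) := mul_le_mul_of_nonneg_right this (by positivity)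
        _ = _ := by ring
    exact le_of_mul_le_mul_right (e1.trans e2) (by positivity)
  -- the good ones
  obtain ⟨G', hG'⟩ : ∃ G', G' = G \ (B1 ∪ B2) := ⟨_, rfl⟩
  have hG'c : κ / 2 * x ≤ G'.card := by
    have d1 : G.card ≤ G'.card + (B1.card + B2.card) := by
      calc G.card ≤ (G' ∪ (B1 ∪ B2)).card := card_le_card (fun n hn => by
            rw [mem_union]
            by_cases hb : n ∈ B1 ∪ B2
            · exact Or.inr hb
            · left
              rw [hG', Finset.mem_sdiff]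
              exact ⟨hn, hb⟩)
        _ ≤ G'.card + (B1 ∪ B2).card := card_union_le _ _
        _ ≤ _ := Nat.add_le_add_left (card_union_le _ _) _
    have d2 : (G.card : ℝ) ≤ G'.card + (B1.card + B2.card) := by exact_mod_cast d1
    linarith
  obtain ⟨Y, hY⟩ : ∃ Y, Y = Real.exp (-((Real.pi * C₂ + ε / 2) * t x)) := ⟨_, rfl⟩
  have hY0 : 0 < Y := by rw [hY]; exact Real.exp_pos _
  have hprob : ∀ n ∈ G', Y / 2 ≤ P.real {ω | R A ω (2 * n) = 0} := by
    intro n hn
    rw [hG', Finset.mem_sdiff, mem_union, not_or, hG, mem_filter, mem_Ioc] at hn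
    obtain ⟨⟨⟨g1, g2⟩, g3⟩, g4, g5⟩ := hn
    have g6 : n ∈ Icc 1 x := mem_Icc.2 ⟨by omega, g2⟩
    have g7 : WinP (δ ^ 2) 1 (2 * n) := by
      by_contra hcon
      exact g4 (by rw [hB1]; exact mem_filter.2 ⟨g6, hcon⟩)
    have g8 : sm n ≤ η * t x := by
      by_contra hcon
      exact g5 (by rw [hB2]; exact mem_filter.2 ⟨g6, not_le.1 hcon⟩)
    have hnn : n₀ + n₃ + n₄ + 16 ≤ n := by omega
    obtain ⟨_, e1, e2⟩ := h1 n (by omega) g7
    rw [← hρ] at e1
    -- the expectation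
    have m1 : mu (al t) (2 * n) ≤ (η + (1 + η) * ((Real.pi / 2 + η) * (2 * C₂ * Real.exp η))) * t x := by
      rw [mu_split' (al t) _ n e2]
      have c1 : t (2 * n) ≤ (1 + η) * t x := (h.mono (by omega)).trans hx3
      have c2 : (Real.pi / 2 + ρ) * sing (2 * n) ≤ (Real.pi / 2 + η) * (2 * C₂ * Real.exp η) := by
        apply mul_le_mul (by linarith) g3
        · exact (by positivity : (0 : ℝ) ≤ 2 * C₂).trans (sing_ge _)
        · positivity
      have c3 : t (2 * n) * ((Real.pi / 2 + ρ) * sing (2 * n)) ≤ ((1 + η) * t x) * ((Real.pi / 2 + η) * (2 * C₂ * Real.exp η)) := by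
        apply mul_le_mul c1 c2
        · apply mul_nonneg
          · have := Real.arccos_nonneg (1 - 3 * δ)
            rw [hρ]
            positivity
          · exact (by positivity : (0 : ℝ) ≤ 2 * C₂).trans (sing_ge _)
        · positivity
      have c4 : sm n = ∑ i ∈ range (⌊2 * δ * n⌋₊ + 1), bb (al t) (2 * n) i := by rw [hsm]
      rw [← c4]
      linarith
    -- the law
    have hbη : ∀ i, bb (al t) (2 * n) i ≤ η := by
      intro i
      unfold bb
      split_ifs with hI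
      · have c1 := h3 (2 * n - i) (by have := hI.2.2; omega)
        rw [neg_zero, Real.rpow_zero, mul_one] at c1
        calc al t i * al t (2 * n - i) ≤ 1 * η := mul_le_mul (al_le t i) c1 (al_nonneg t _) zero_le_one
          _ = η := one_mul η
      · exact hη0.le
    have l1 := law_ge (bb (al t) (2 * n)) η hη1 (bb_nonneg _ (al_nonneg t) _) hbη (2 * n)
    have l2 : Y ≤ law (bb (al t) (2 * n)) (2 * n) 0 := by
      refine le_trans ?_ l1
      rw [hY]
      apply Real.exp_le_exp.2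
      apply neg_le_neg
      have c1 : (1 + η) * mu (al t) (2 * n) ≤ (1 + η) * ((η + (1 + η) * ((Real.pi / 2 + η) * (2 * C₂ * Real.exp η))) * t x) :=
        mul_le_mul_of_nonneg_left m1 (by linarith)
      have c2 : (1 + η) * (η + (1 + η) * ((Real.pi / 2 + η) * (2 * C₂ * Real.exp η))) * t x ≤ (Real.pi * C₂ + ε / 2) * t x :=
        mul_le_mul_of_nonneg_right hη2 htx.le
      unfold mu at c1
      linarith
    have l3 := (real_card (P := P) A hA hind (2 * n) 0).2
    rw [hPf] at l3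
    have l4 : P.real {ω | (pick (BP A (2 * n)) (2 * n) ω).card = 0} ≤ P.real {ω | R A ω (2 * n) = 0} + P.real (A (2 * n / 2)) := by
      refine (measureReal_mono (s₂ := {ω | R A ω (2 * n) = 0} ∪ A (2 * n / 2)) ?_).trans (measureReal_union_le _ _)
      intro ω hω
      by_cases hh : ω ∈ A (2 * n / 2)
      · exact Or.inr hh
      · left
        have := R_of_notMem A ω (2 * n) hh
        simp only [Set.mem_ofPred_eq] at hω ⊢
        rw [← this]
        exact hω
    rw [Nat.mul_div_cancel_left n (by norm_num : 0 < 2), hP n, l3] at l4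
    have l5 := h4 n (by omega)
    have hn0 : (0 : ℝ) < n := by exact_mod_cast (by omega : 0 < n)
    have l6 : (n : ℝ) ^ (-(1 / 4) : ℝ) ≤ Y := by
      have c1 : ((x : ℝ) / 2) ^ (1 / 4 : ℝ) ≤ (n : ℝ) ^ (1 / 4 : ℝ) := by
        apply Real.rpow_le_rpow (by positivity) _ (by norm_num)
        have : (x : ℝ) ≤ 2 * n := by exact_mod_cast (by omega : x ≤ 2 * n)
        linarith
      have c2 : (x : ℝ) ^ (1 / 4 : ℝ) / 2 ≤ ((x : ℝ) / 2) ^ (1 / 4 : ℝ) := by
        rw [Real.div_rpow hx0.le (by norm_num)]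
        apply div_le_div_of_nonneg_left (by positivity) (by positivity)
        calc (2 : ℝ) ^ (1 / 4 : ℝ) ≤ 2 ^ (1 : ℝ) := Real.rpow_le_rpow_of_exponent_le (by norm_num) (by norm_num)
          _ = 2 := Real.rpow_one 2
      have c3 : Real.exp ((Real.pi * C₂ + ε / 2) * t x) ≤ (n : ℝ) ^ (1 / 4 : ℝ) := by linarith
      rw [Real.rpow_neg hn0.le, hY, Real.exp_neg]
      exact inv_anti₀ (Real.exp_pos _) c3
    linarith
  -- the sum
  have hE : κ / 2 * x * (Y / 2) ≤ EE P A x := by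
    calc κ / 2 * x * (Y / 2) ≤ G'.card * (Y / 2) := mul_le_mul_of_nonneg_right hG'c (by positivity)
      _ = ∑ n ∈ G', Y / 2 := by rw [sum_const, nsmul_eq_mul]
      _ ≤ ∑ n ∈ G', P.real {ω | R A ω (2 * n) = 0} := sum_le_sum hprob
      _ ≤ EE P A x := by
          unfold EE
          apply sum_le_sum_of_subset_of_nonneg
          · intro n hn
            rw [hG', Finset.mem_sdiff, hG, mem_filter, mem_Ioc] at hn
            rw [mem_Icc]
            omega
          · intro _ _ _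
            exact measureReal_nonneg
  obtain ⟨Z, hZ⟩ : ∃ Z, Z = Real.exp (-((Real.pi * C₂ + ε) * t x)) := ⟨_, rfl⟩
  have hZ0 : 0 < Z := by rw [hZ]; exact Real.exp_pos _
  rw [← hZ]
  have k1 : 31 * (x : ℝ) ^ (19 / 20 : ℝ) ≤ x * Z := by
    have d4 : (x : ℝ) = (x : ℝ) ^ (1 / 20 : ℝ) * (x : ℝ) ^ (19 / 20 : ℝ) := by
      rw [← Real.rpow_add hx0]
      norm_num
    have d5 : (31 : ℝ) ≤ (x : ℝ) ^ (1 / 20 : ℝ) * Z := by
      calc (31 : ℝ) = (31 * Real.exp ((Real.pi * C₂ + ε) * t x)) * Real.exp (-((Real.pi * C₂ + ε) * t x)) := by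
            rw [Real.exp_neg]
            field_simp
        _ ≤ (x : ℝ) ^ (1 / 20 : ℝ) * Z := by rw [← hZ]; exact mul_le_mul_of_nonneg_right hx2 hZ0.le
    calc 31 * (x : ℝ) ^ (19 / 20 : ℝ) ≤ ((x : ℝ) ^ (1 / 20 : ℝ) * Z) * (x : ℝ) ^ (19 / 20 : ℝ) :=
          mul_le_mul_of_nonneg_right d5 (by positivity)
      _ = ((x : ℝ) ^ (1 / 20 : ℝ) * (x : ℝ) ^ (19 / 20 : ℝ)) * Z := by ring
      _ = x * Z := by rw [← d4]
  have k2 : 2 * (x * Z) ≤ κ / 2 * x * (Y / 2) := by
    have e1 : 8 / κ * Z ≤ Y := by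
      have e2 : Y = Real.exp (ε / 2 * t x) * Z := by
        rw [hY, hZ, ← Real.exp_add]
        congr 1
        ring
      rw [e2]
      apply mul_le_mul_of_nonneg_right _ hZ0.le
      rw [← Real.log_le_iff_le_exp (by positivity)]
      rw [div_le_iff₀ hε] at hx4
      linarith
    rw [div_mul_eq_mul_div, div_le_iff₀ hκ] at e1
    nlinarith
  linarith

end Pool.Agent.T2H32.TG
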