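import Pool.Agent.T2H32.TG.RV2

set_option autoImplicit false

/-! # Sets of primes with a prescribed slowly growing density, and the rate of their exceptions -/

open MeasureTheory ProbabilityTheory Filter Topology Finset
open scoped ENNReal

namespace Pool.Agent.T2H32.TG

open Pool.Agent.H560R3.GB (sing C₂)
open Pool.Agent.W93.GB (C2_pos C2_half)

theorem rate_t (t : ℕ → ℝ) (h : Rv t) : ∃ Q : Set ℕ, (∀ p ∈ Q, p.Prime) ∧
    Tendsto (fun x : ℕ => (cQ Q x : ℝ) / (√(t x) * √(x : ℝ))) atTop (𝓝 2) ∧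
    Tendsto (fun x : ℕ => Real.log ((x : ℝ) / exc Q x) / t x) atTop (𝓝 (Real.pi * C₂)) := by
  classical
  obtain ⟨Ω, _, P, A, hp, hA, hind, hP⟩ := model t
  have hcube : ∀ᶠ x : ℕ in atTop, ((∑ i ∈ range (2 * x + 1), P.real (A i)) + 2) ^ 3 ≤ (x : ℝ) ^ (8 / 5 : ℝ) := by
    have := al_cube t h.toSl
    simp only [← hP] at this
    exact this
  have hnp : ∀ᵐ ω ∂P, ∀ k : ℕ, ¬ k.Prime → ω ∉ A k := by
    rw [ae_all_iff]
    intro k
    by_cases hk : k.Prime
    · exact Eventually.of_forall fun ω h => absurd hk h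
    · have h0 : P.real (A k) = 0 := by
        rw [hP k]
        unfold al lp
        rw [if_neg hk, mul_zero]
        exact min_eq_right zero_le_one
      have h1 : P (A k) = 0 := by
        rw [measureReal_def, ENNReal.toReal_eq_zero_iff] at h0
        exact h0.resolve_right (measure_ne_top P _)
      filter_upwards [measure_eq_zero_iff_ae_notMem.1 h1] with ω hω _
      exact hω
  obtain ⟨ω, hω1, hω2, hω3⟩ := ((as_slln (P := P) t h.toSl A hA hind hP).and
    ((as_Nk (P := P) A hA hind 0 hcube).and hnp)).exists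
  refine ⟨QS A ω, fun p hp => hp.1, ?_, ?_⟩
  · have h1 : Tendsto (fun x : ℕ => Pool.Agent.T2H32.CM.S A (x + 1) ω / ∑ i ∈ range (x + 1), al t i) atTop (𝓝 1) :=
      hω1.comp (tendsto_add_atTop_nat 1)
    have h2 := h1.mul (h.al_lim t)
    rw [one_mul] at h2
    refine h2.congr' ?_
    have h3 := (h.al_lim t).eventually_const_lt (show (0 : ℝ) < 2 by norm_num)
    filter_upwards [h3] with x hx
    have h4 : ∑ i ∈ range (x + 1), al t i ≠ 0 := by
      intro h0
      rw [h0, zero_div] at hx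
      exact lt_irrefl _ hx
    rw [cQ_eq, Qc_eq_S A ω hω3]
    field_simp
  · rw [Metric.tendsto_atTop]
    intro ε hε
    have e1 := E_up (P := P) t h A hA hind hP (ε / 2) (by positivity)
    have e2 := E_lo (P := P) t h A hA hind hP (ε / 2) (by positivity)
    obtain ⟨x₀, hx₀⟩ := eventually_atTop.1 (hω2.and (e1.and (e2.and (eventually_ge_atTop 1))))
    refine ⟨x₀, fun x hx => ?_⟩
    obtain ⟨d1, d2, d3, d4⟩ := hx₀ x hx
    have hx0 : (0 : ℝ) < x := by exact_mod_cast d4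
    have htx := h.pos x
    rw [exc_eq]
    have e3 : ∑ n ∈ Icc 1 x, P.real {ω | R A ω (2 * n) = 0} = EE P A x := rfl
    rw [e3] at d1
    have d5 := abs_le.1 d1
    have up : (Nk A ω 0 x : ℝ) ≤ x * Real.exp (-((Real.pi * C₂ - ε / 2) * t x)) := by linarith [d5.2]
    have lo : x * Real.exp (-((Real.pi * C₂ + ε / 2) * t x)) ≤ (Nk A ω 0 x : ℝ) := by linarith [d5.1]
    have hN0 : 0 < (Nk A ω 0 x : ℝ) := lt_of_lt_of_le (by positivity) lo
    have b1 : (Real.pi * C₂ - ε / 2) * t x ≤ Real.log ((x : ℝ) / Nk A ω 0 x) := by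
      rw [Real.le_log_iff_exp_le (by positivity), le_div_iff₀ hN0]
      calc Real.exp ((Real.pi * C₂ - ε / 2) * t x) * (Nk A ω 0 x : ℝ)
          ≤ Real.exp ((Real.pi * C₂ - ε / 2) * t x) * (x * Real.exp (-((Real.pi * C₂ - ε / 2) * t x))) :=
            mul_le_mul_of_nonneg_left up (Real.exp_pos _).le
        _ = x := by rw [Real.exp_neg]; field_simp
    have b2 : Real.log ((x : ℝ) / Nk A ω 0 x) ≤ (Real.pi * C₂ + ε / 2) * t x := by
      rw [Real.log_le_iff_le_exp (by positivity), div_le_iff₀ hN0]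
      calc (x : ℝ) = Real.exp ((Real.pi * C₂ + ε / 2) * t x) * (x * Real.exp (-((Real.pi * C₂ + ε / 2) * t x))) := by
            rw [Real.exp_neg]; field_simp
        _ ≤ _ := mul_le_mul_of_nonneg_left lo (Real.exp_pos _).le
    rw [Real.dist_eq, abs_lt]
    constructor
    · have : Real.pi * C₂ - ε / 2 ≤ Real.log ((x : ℝ) / Nk A ω 0 x) / t x := by rw [le_div_iff₀ htx]; exact b1
      linarith
    · have : Real.log ((x : ℝ) / Nk A ω 0 x) / t x ≤ Real.pi * C₂ + ε / 2 := by rw [div_le_iff₀ htx]; exact b2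
      linarith

/-- **The rate of the exceptions.** -/
theorem rate (w : ℕ → ℝ) (hm : Monotone w) (htop : Tendsto w atTop atTop)
    (hsq : Tendsto (fun x : ℕ => w (Nat.sqrt x) / w x) atTop (𝓝 1))
    (hll : ∃ A : ℝ, ∀ᶠ x : ℕ in atTop, w x ^ 2 ≤ A * Real.log (Real.log x)) :
    ∃ Q : Set ℕ, (∀ p ∈ Q, p.Prime) ∧
      Tendsto (fun x : ℕ => (cQ Q x : ℝ) / (w x * √(x : ℝ))) atTop (𝓝 1) ∧
      Tendsto (fun x : ℕ => Real.log ((x : ℝ) / exc Q x) / w x ^ 2) atTop (𝓝 (Real.pi * C₂ / 4)) := by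
  obtain ⟨t, ht⟩ : ∃ t : ℕ → ℝ, t = fun x => max 1 ((max 0 (w x)) ^ 2 / 4) := ⟨_, rfl⟩
  obtain ⟨A, hA⟩ := hll
  have hlltop : Tendsto (fun x : ℕ => Real.log (Real.log x)) atTop atTop := Real.tendsto_log_atTop.comp logtop
  have hev : ∀ᶠ x : ℕ in atTop, t x = w x ^ 2 / 4 ∧ 2 ≤ w x := by
    filter_upwards [htop.eventually_ge_atTop 2] with x hx
    refine ⟨?_, hx⟩
    rw [ht]
    simp only
    rw [max_eq_right (show (0 : ℝ) ≤ w x by linarith)]
    apply max_eq_right
    nlinarith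
  have hll2 : ∃ B : ℝ, 0 < B ∧ ∀ᶠ x : ℕ in atTop, t x ≤ B * Real.log (Real.log x) := by
    refine ⟨max 1 A, lt_max_of_lt_left one_pos, ?_⟩
    filter_upwards [hev, hA, hlltop.eventually_ge_atTop 0] with x a1 a2 a3
    rw [a1.1]
    have : A * Real.log (Real.log x) ≤ max 1 A * Real.log (Real.log x) := mul_le_mul_of_nonneg_right (le_max_right _ _) a3
    nlinarith [sq_nonneg (w x)]
  have hRv : Rv t := by
    refine ⟨⟨?_, ?_, ?_⟩, ?_, ?_, hll2⟩
    · intro x
      rw [ht]
      exact le_max_left _ _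
    · intro a b hab
      rw [ht]
      simp only
      apply max_le_max le_rfl
      apply div_le_div_of_nonneg_right _ (by norm_num)
      apply pow_le_pow_left₀ (le_max_left _ _)
      exact max_le_max le_rfl (hm hab)
    · obtain ⟨B, hB, hB2⟩ := hll2
      refine ⟨B, hB, ?_⟩
      filter_upwards [hB2, logtop.eventually_ge_atTop 1] with x a1 a2
      refine a1.trans (mul_le_mul_of_nonneg_left ?_ hB.le)
      have := Real.log_le_sub_one_of_pos (show 0 < Real.log (x : ℝ) by linarith)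
      linarith
    · have h1 := hsq.pow 2
      rw [one_pow] at h1
      refine h1.congr' ?_
      filter_upwards [hev, sqrt_top.eventually hev] with x a1 a2
      rw [a1.1, a2.1]
      have : w x ≠ 0 := by linarith [a1.2]
      field_simp
    · rw [tendsto_atTop]
      intro b
      filter_upwards [hev, htop.eventually_ge_atTop (2 * max 1 b)] with x a1 a2
      rw [a1.1]
      have b1 := le_max_left 1 b
      have b2 := le_max_right 1 b
      nlinarith
  obtain ⟨Q, h1, h2, h3⟩ := rate_t t hRv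
  refine ⟨Q, h1, ?_, ?_⟩
  · have h4 := h2.div_const 2
    rw [div_self (by norm_num : (2 : ℝ) ≠ 0)] at h4
    refine h4.congr' ?_
    filter_upwards [hev] with x a1
    have h5 : √(t x) = w x / 2 := by
      rw [a1.1, show w x ^ 2 / 4 = (w x / 2) ^ 2 by ring]
      exact Real.sqrt_sq (by linarith [a1.2])
    rw [h5]
    have : w x ≠ 0 := by linarith [a1.2]
    field_simp
  · have h4 := h3.div_const 4
    refine h4.congr' ?_
    filter_upwards [hev] with x a1
    rw [a1.1]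
    have : w x ≠ 0 := by linarith [a1.2]
    field_simp

/-- **The trivial lower bound.** -/
theorem lower (Q : Set ℕ) (h : Tendsto (fun x : ℕ => (exc Q x : ℝ) / x) atTop (𝓝 0)) (ε : ℝ) (hε : 0 < ε) :
    ∀ᶠ x : ℕ in atTop, (1 - ε) * √(x : ℝ) ≤ cQ Q x := by
  classical
  have hhalf : Tendsto (fun x : ℕ => x / 2) atTop atTop := Nat.tendsto_div_const_atTop (by norm_num)
  have h1 := (h.comp hhalf).eventually_le_const (show (0 : ℝ) < ε / 4 by positivity)
  have h2 := (tendsto_natCast_atTop_atTop (R := ℝ)).eventually_ge_atTop (8 / ε + (4 / ε) ^ 2 + 4)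
  filter_upwards [h1, h2] with x a1 a2
  have hx4 : (4 : ℝ) ≤ x := by
    have : 0 ≤ 8 / ε + (4 / ε) ^ 2 := by positivity
    linarith
  rcases le_or_gt 1 ε with hε1 | hε1
  · have : (1 - ε) * √(x : ℝ) ≤ 0 := mul_nonpos_of_nonpos_of_nonneg (by linarith) (Real.sqrt_nonneg _)
    exact this.trans (Nat.cast_nonneg _)
  -- the pairs
  obtain ⟨y, hy⟩ : ∃ y, y = x / 2 := ⟨_, rfl⟩
  simp only [Function.comp, ← hy] at a1
  obtain ⟨S, hS⟩ : ∃ S, S = (Iic x).filter (fun p => p ∈ Q) := ⟨_, rfl⟩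
  have hSc : cQ Q x = S.card := by
    unfold cQ
    rw [← Set.ncard_coe_finset, hS]
    congr 1
    ext p
    simp only [Set.mem_ofPred_eq, coe_filter, mem_Iic]
    exact and_comm
  obtain ⟨E, hE⟩ : ∃ E, E = (Icc 1 y).filter (fun n => ¬ ∃ p ∈ Q, ∃ q ∈ Q, p + q = 2 * n) := ⟨_, rfl⟩
  have hEc : exc Q y = E.card := by
    unfold exc
    rw [← Set.ncard_coe_finset, hE]
    congr 1
    ext n
    simp only [Set.mem_ofPred_eq, coe_filter, mem_Icc, and_assoc]
  have hcov : y ≤ E.card + (S.card * (S.card + 1)) / 2 := by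
    have e1 : (Icc 1 y) ⊆ E ∪ (S.sym2).image (fun z => Sym2.lift ⟨fun a b => (a + b) / 2, fun a b => by simp only [add_comm]⟩ z) := by
      intro n hn
      rw [mem_union]
      by_cases hc : ∃ p ∈ Q, ∃ q ∈ Q, p + q = 2 * n
      · right
        obtain ⟨p, hp, q, hq, hpq⟩ := hc
        rw [mem_Icc] at hn
        rw [mem_image]
        refine ⟨s(p, q), ?_, ?_⟩
        · rw [Finset.mk_mem_sym2_iff, hS, mem_filter, mem_filter, mem_Iic, mem_Iic]
          exact ⟨⟨by omega, hp⟩, by omega, hq⟩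
        · rw [Sym2.lift_mk]
          change (p + q) / 2 = n
          omega
      · left
        rw [hE]
        exact mem_filter.2 ⟨hn, hc⟩
    have e2 := (card_le_card e1).trans (card_union_le _ _)
    rw [Nat.card_Icc, Nat.add_sub_cancel] at e2
    refine e2.trans (Nat.add_le_add_left (card_image_le.trans ?_) _)
    rw [Finset.card_sym2, Nat.choose_two_right, Nat.add_sub_cancel, mul_comm]
  rw [hSc]
  obtain ⟨s, hs⟩ : ∃ s : ℝ, s = S.card := ⟨_, rfl⟩
  rw [← hs]
  have hs0 : 0 ≤ s := by rw [hs]; exact Nat.cast_nonneg _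
  have hyr : (x : ℝ) / 2 - 1 ≤ y := by
    have : x ≤ 2 * y + 1 := by omega
    have : (x : ℝ) ≤ 2 * y + 1 := by exact_mod_cast this
    linarith
  have hy0 : (0 : ℝ) < y := by linarith
  have hcov2 : (y : ℝ) ≤ E.card + s * (s + 1) / 2 := by
    have h3 : (((S.card * (S.card + 1)) / 2 : ℕ) : ℝ) ≤ s * (s + 1) / 2 := by
      refine Nat.cast_div_le.trans (le_of_eq ?_)
      rw [hs]
      push_cast
      ring
    have h4 : (y : ℝ) ≤ (E.card : ℝ) + (((S.card * (S.card + 1)) / 2 : ℕ) : ℝ) := by exact_mod_cast hcov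
    linarith
  rw [hEc, div_le_iff₀ hy0] at a1
  by_contra hcon
  push Not at hcon
  have hsx : √(x : ℝ) * √(x : ℝ) = x := Real.mul_self_sqrt (by linarith)
  have hsx0 : 0 < √(x : ℝ) := Real.sqrt_pos.2 (by linarith)
  have h5 : 4 / ε ≤ √(x : ℝ) := Real.le_sqrt_of_sq_le (by
    have : 0 < 8 / ε := by positivity
    linarith)
  rw [div_le_iff₀ hε] at h5
  have h6 : 8 ≤ x * ε := by
    have : 8 / ε ≤ x := by
      have : 0 < (4 / ε) ^ 2 := by positivity
      linarith
    rwa [div_le_iff₀ hε] at this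
  have hyx : (y : ℝ) ≤ x / 2 := by rw [hy]; exact Nat.cast_div_le
  -- `s < (1 - ε) √x` gives `s (s + 1) < (1 - ε) x + √x`
  have h7 : s * (s + 1) ≤ (1 - ε) * √(x : ℝ) * ((1 - ε) * √(x : ℝ) + 1) := by nlinarith
  have h8 : (1 - ε) * √(x : ℝ) * ((1 - ε) * √(x : ℝ) + 1) ≤ (1 - ε) * x + √(x : ℝ) := by
    have : (1 - ε) ^ 2 * (√(x : ℝ) * √(x : ℝ)) ≤ (1 - ε) * x := by
      rw [hsx]
      nlinarith
    nlinarith
  have h9 : √(x : ℝ) ≤ ε / 4 * x := by nlinarith
  nlinarith

end Pool.Agent.T2H32.TG
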