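import Pool.Agent.T2H32.TG.NT
import Pool.Agent.T2H32.CM.Exist
import Pool.Agent.T2H32.CM.Slln
import Pool.Agent.T2H32.GB.Pr

set_option autoImplicit false

/-! # Thin random sets of primes -/

open MeasureTheory ProbabilityTheory Filter Topology Finset
open scoped ENNReal

namespace Pool.Agent.T2H32.TG

open Pool.Agent.W93.PG (WinP)
open Pool.Agent.T2H32.CM (S mS slln exists_indep)

/-- a slowly growing nondecreasing function -/
structure Sl (t : ℕ → ℝ) : Prop where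
  one_le : ∀ x, 1 ≤ t x
  mono : Monotone t
  le_log : ∃ C : ℝ, 0 < C ∧ ∀ᶠ x : ℕ in atTop, t x ≤ C * Real.log x

/-- the probability that `p` is chosen -/
noncomputable def al (t : ℕ → ℝ) (p : ℕ) : ℝ := min 1 (√(t p) * lp p)

theorem al_nonneg (t : ℕ → ℝ) (p : ℕ) : 0 ≤ al t p := by
  unfold al
  exact le_min zero_le_one (mul_nonneg (Real.sqrt_nonneg _) (lp_nonneg p))

theorem al_le (t : ℕ → ℝ) (p : ℕ) : al t p ≤ 1 := min_le_left _ _

theorem al_le' (t : ℕ → ℝ) (p : ℕ) : al t p ≤ √(t p) * lp p := min_le_right _ _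

theorem lp_le_one (p : ℕ) : lp p ≤ 1 := by
  unfold lp
  split_ifs with hp
  · have hp0 : (0 : ℝ) < p := by exact_mod_cast hp.pos
    have hs : 0 < √(p : ℝ) := Real.sqrt_pos.2 hp0
    have hy : 0 < √(√(p : ℝ)) := Real.sqrt_pos.2 hs
    rw [div_le_one hs]
    have e1 : √(√(p : ℝ)) * √(√(p : ℝ)) = √(p : ℝ) := Real.mul_self_sqrt hs.le
    have e2 : Real.log p = 4 * Real.log (√(√(p : ℝ))) := by
      rw [Real.log_sqrt hs.le, Real.log_sqrt hp0.le]
      ring
    have e3 := Real.log_le_sub_one_of_pos hy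
    rw [e2]
    nlinarith [sq_nonneg (√(√(p : ℝ)) - 2)]
  · exact zero_le_one

theorem lp_le_al (t : ℕ → ℝ) (h : Sl t) (p : ℕ) : lp p ≤ al t p := by
  unfold al
  refine le_min (lp_le_one p) ?_
  have : 1 ≤ √(t p) := by rw [Real.one_le_sqrt]; exact h.one_le p
  nlinarith [lp_nonneg p]

theorem log_ev {f : ℕ → Prop} (h : ∀ᶠ x : ℕ in atTop, f x) (g : ℕ → ℕ) (hg : Tendsto g atTop atTop) :
    ∀ᶠ x : ℕ in atTop, f (g x) := hg.eventually h

/-- comparison of powers of `log` with powers -/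
theorem log_pow_small (C : ℝ) (a : ℝ) (ha : 0 < a) (b : ℝ) : Tendsto (fun x : ℕ => C * Real.log x ^ b / (x : ℝ) ^ a) atTop (𝓝 0) := by
  have h1 : Tendsto (fun x : ℝ => Real.log x ^ b / x ^ a) atTop (𝓝 0) :=
    (isLittleO_log_rpow_rpow_atTop b ha).tendsto_div_nhds_zero
  have h2 := (h1.comp tendsto_natCast_atTop_atTop).const_mul C
  rw [mul_zero] at h2
  refine h2.congr fun x => ?_
  simp only [Function.comp]
  ring

theorem al_eq (t : ℕ → ℝ) (h : Sl t) : ∀ᶠ p : ℕ in atTop, al t p = √(t p) * lp p := by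
  obtain ⟨C, hC, h1⟩ := h.le_log
  have h2 := (log_pow_small (√C) (1 / 2) (by norm_num) (3 / 2)).eventually_le_const (show (0 : ℝ) < 1 by norm_num)
  filter_upwards [h1, h2, eventually_ge_atTop 3] with p a1 a2 a3
  unfold al
  apply min_eq_right
  have hp : (3 : ℝ) ≤ p := by exact_mod_cast a3
  have hlog : 0 < Real.log p := Real.log_pos (by linarith)
  have b1 : lp p ≤ Real.log p / √(p : ℝ) := by
    unfold lp
    split_ifs
    · exact le_rfl
    · positivity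
  have b2 : √(t p) ≤ √C * Real.log p ^ (1 / 2 : ℝ) := by
    rw [← Real.sqrt_eq_rpow, ← Real.sqrt_mul hC.le]
    exact Real.sqrt_le_sqrt a1
  have b3 : √C * Real.log p ^ (1 / 2 : ℝ) * (Real.log p / √(p : ℝ)) = √C * Real.log p ^ (3 / 2 : ℝ) / (p : ℝ) ^ (1 / 2 : ℝ) := by
    rw [← Real.sqrt_eq_rpow (p : ℝ)]
    have : Real.log p ^ (3 / 2 : ℝ) = Real.log p ^ (1 / 2 : ℝ) * Real.log p := by
      rw [← Real.rpow_add_one hlog.ne']
      norm_num
    rw [this]
    ring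
  calc √(t p) * lp p ≤ (√C * Real.log p ^ (1 / 2 : ℝ)) * (Real.log p / √(p : ℝ)) :=
        mul_le_mul b2 b1 (lp_nonneg p) (by positivity)
    _ ≤ 1 := by rw [b3]; exact a2

/-- the sum of the probabilities -/
theorem al_sum2 : ∃ C : ℝ, 0 < C ∧ ∀ t : ℕ → ℝ, Sl t → ∀ x : ℕ,
    ∑ i ∈ range (x + 1), al t i ≤ C * √(t x) * √(x : ℝ) := by
  obtain ⟨C, hC, h1⟩ := SL_bound
  refine ⟨C, hC, fun t h x => ?_⟩
  have e : ∑ i ∈ range (x + 1), al t i = ∑ i ∈ Ioc 0 x, al t i := by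
    rw [sum_range_eq_add_Ico _ (by omega)]
    have e0 : al t 0 = 0 := by simp [al, lp]
    rw [e0, zero_add]
    apply sum_congr _ fun _ _ => rfl
    ext j
    simp only [mem_Ico, mem_Ioc]
    omega
  rw [e]
  calc ∑ i ∈ Ioc 0 x, al t i ≤ ∑ i ∈ Ioc 0 x, √(t x) * lp i := by
        apply sum_le_sum
        intro i hi
        refine (al_le' t i).trans (mul_le_mul_of_nonneg_right ?_ (lp_nonneg i))
        exact Real.sqrt_le_sqrt (h.mono (mem_Ioc.1 hi).2)
    _ = √(t x) * SL x := by rw [← mul_sum]; rfl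
    _ ≤ √(t x) * (C * √(x : ℝ)) := mul_le_mul_of_nonneg_left (h1 x) (Real.sqrt_nonneg _)
    _ = _ := by ring

theorem al_sum (t : ℕ → ℝ) (h : Sl t) : ∃ C : ℝ, 0 < C ∧ ∀ x : ℕ, ∑ i ∈ range (x + 1), al t i ≤ C * √(t x) * √(x : ℝ) := by
  obtain ⟨C, hC, h1⟩ := al_sum2
  exact ⟨C, hC, h1 t h⟩

theorem al_cube (t : ℕ → ℝ) (h : Sl t) :
    ∀ᶠ x : ℕ in atTop, ((∑ i ∈ range (2 * x + 1), al t i) + 2) ^ 3 ≤ (x : ℝ) ^ (8 / 5 : ℝ) := by
  obtain ⟨C, hC, h1⟩ := al_sum t h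
  obtain ⟨C2, hC2, h2⟩ := h.le_log
  have h3 : ∀ᶠ x : ℕ in atTop, t (2 * x) ≤ C2 * Real.log ((2 * x : ℕ) : ℝ) :=
    (tendsto_id.const_mul_atTop' (show 0 < 2 by norm_num)).eventually h2
  have h4 := (log_pow_small (2 * (C * √(2 * C2) * √2)) (1 / 30) (by norm_num) (1 / 2)).eventually_le_const (show (0 : ℝ) < 1 by norm_num)
  have h5 := (tendsto_natCast_atTop_atTop (R := ℝ)).eventually_ge_atTop (4 ^ (30 / 16 : ℝ))
  filter_upwards [h3, h4, h5, eventually_ge_atTop 3] with x a1 a2 a3 a4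
  have hx : (3 : ℝ) ≤ x := by exact_mod_cast a4
  have hx0 : (0 : ℝ) < x := by linarith
  have hlog : 0 < Real.log x := Real.log_pos (by linarith)
  have b1 := h1 (2 * x)
  have b2 : Real.log ((2 * x : ℕ) : ℝ) ≤ 2 * Real.log x := by
    push_cast
    rw [Real.log_mul (by norm_num) (by linarith)]
    have : Real.log 2 ≤ Real.log x := Real.log_le_log (by norm_num) (by linarith)
    linarith
  have b3 : √(t (2 * x)) ≤ √(2 * C2) * Real.log x ^ (1 / 2 : ℝ) := by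
    rw [← Real.sqrt_eq_rpow, ← Real.sqrt_mul (by positivity)]
    apply Real.sqrt_le_sqrt
    nlinarith
  have b4 : √((2 * x : ℕ) : ℝ) = √2 * √(x : ℝ) := by
    push_cast
    rw [Real.sqrt_mul (by norm_num)]
  have b5 : ∑ i ∈ range (2 * x + 1), al t i ≤ (1 / 2) * (x : ℝ) ^ (8 / 15 : ℝ) := by
    refine b1.trans ?_
    rw [b4]
    have c1 : C * √(t (2 * x)) * (√2 * √(x : ℝ)) ≤ (C * √(2 * C2) * √2) * Real.log x ^ (1 / 2 : ℝ) * √(x : ℝ) := by
      have : C * √(t (2 * x)) * (√2 * √(x : ℝ)) ≤ C * (√(2 * C2) * Real.log x ^ (1 / 2 : ℝ)) * (√2 * √(x : ℝ)) := by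
        gcongr
      refine this.trans (le_of_eq (by ring))
    refine c1.trans ?_
    rw [div_le_one (by positivity)] at a2
    have c2 : (x : ℝ) ^ (8 / 15 : ℝ) = (x : ℝ) ^ (1 / 30 : ℝ) * √(x : ℝ) := by
      rw [Real.sqrt_eq_rpow, ← Real.rpow_add hx0]
      norm_num
    rw [c2]
    have c3 : 0 ≤ √(x : ℝ) := Real.sqrt_nonneg _
    nlinarith
  have b6 : (2 : ℝ) ≤ (1 / 2) * (x : ℝ) ^ (8 / 15 : ℝ) := by
    have c1 : ((4 : ℝ) ^ (30 / 16 : ℝ)) ^ (8 / 15 : ℝ) ≤ (x : ℝ) ^ (8 / 15 : ℝ) :=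
      Real.rpow_le_rpow (by positivity) a3 (by norm_num)
    rw [← Real.rpow_mul (by norm_num)] at c1
    norm_num at c1
    linarith
  have b7 : (∑ i ∈ range (2 * x + 1), al t i) + 2 ≤ (x : ℝ) ^ (8 / 15 : ℝ) := by linarith
  have b8 : 0 ≤ ∑ i ∈ range (2 * x + 1), al t i := sum_nonneg fun i _ => al_nonneg t i
  calc ((∑ i ∈ range (2 * x + 1), al t i) + 2) ^ 3 ≤ ((x : ℝ) ^ (8 / 15 : ℝ)) ^ 3 := pow_le_pow_left₀ (by linarith) b7 3
    _ = (x : ℝ) ^ (8 / 5 : ℝ) := by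
        rw [← Real.rpow_natCast, ← Real.rpow_mul hx0.le]
        norm_num

/-- lower bound for the expected number of representations -/
theorem mu_t (t : ℕ → ℝ) (h : Sl t) (δ : ℝ) (hδ : 0 < δ) : ∃ m₁ : ℕ, ∀ m : ℕ, m₁ ≤ m →
    δ * ((m : ℝ) / Real.log m ^ 2) ≤ np m → t (⌊√(m : ℝ)⌋₊) * (δ / 4) ≤ mu (al t) m := by
  obtain ⟨p₀, hp₀⟩ := eventually_atTop.1 (al_eq t h)
  have h4 := (log_pow_small 4 (1 / 2) (by norm_num) 2).eventually_le_const (show (0 : ℝ) < δ by positivity)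
  obtain ⟨m₂, hm₂⟩ := eventually_atTop.1 h4
  refine ⟨p₀ ^ 2 + m₂ + 3, fun m hm hnp => ?_⟩
  have hm3 : (3 : ℝ) ≤ m := by exact_mod_cast (by omega : 3 ≤ m)
  have hm0 : (0 : ℝ) < m := by linarith
  have hlog : 0 < Real.log m := Real.log_pos (by linarith)
  have ht0 : 0 ≤ t (⌊√(m : ℝ)⌋₊) := zero_le_one.trans (h.one_le _)
  have hsq : (p₀ : ℝ) ≤ √(m : ℝ) := by
    apply Real.le_sqrt_of_sq_le
    exact_mod_cast (by omega : p₀ ^ 2 ≤ m)
  have a1 := mu_lower (al t) (al_nonneg t) (t (⌊√(m : ℝ)⌋₊)) ht0 m (by omega) (fun p hp hpm _ => by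
    have b1 : p₀ ≤ p := by exact_mod_cast (hsq.trans hpm.le)
    rw [hp₀ p b1]
    have b2 : lp p = Real.log p / √(p : ℝ) := by unfold lp; rw [if_pos hp]
    rw [b2]
    apply mul_le_mul_of_nonneg_right
    · apply Real.sqrt_le_sqrt
      apply h.mono
      have : (⌊√(m : ℝ)⌋₊ : ℝ) ≤ p := (Nat.floor_le (Real.sqrt_nonneg _)).trans hpm.le
      exact_mod_cast this
    · exact div_nonneg (Real.log_natCast_nonneg p) (Real.sqrt_nonneg _))
  refine le_trans ?_ a1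
  have b1 := hm₂ m (by omega)
  have e1 : Real.log m ^ (2 : ℝ) = Real.log m ^ 2 := by
    rw [← Real.rpow_natCast]
    norm_num
  rw [e1, ← Real.sqrt_eq_rpow, div_le_iff₀ (Real.sqrt_pos.2 hm0)] at b1
  have hs : √(m : ℝ) * √(m : ℝ) = m := Real.mul_self_sqrt hm0.le
  have hs1 : 1 ≤ √(m : ℝ) := by rw [Real.one_le_sqrt]; linarith
  -- `√m + 1 ≤ δ / 2 * m / log² m`
  have b2 : √(m : ℝ) + 1 ≤ δ / 2 * ((m : ℝ) / Real.log m ^ 2) := by
    rw [← mul_div_assoc, le_div_iff₀ (by positivity)]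
    nlinarith
  have b3 : δ / 2 * ((m : ℝ) / Real.log m ^ 2) ≤ (np m : ℝ) - √(m : ℝ) - 1 := by linarith
  calc t (⌊√(m : ℝ)⌋₊) * (δ / 4) = t (⌊√(m : ℝ)⌋₊) * (Real.log m ^ 2 / (2 * m)) * (δ / 2 * ((m : ℝ) / Real.log m ^ 2)) := by
        field_simp
        ring
    _ ≤ _ := mul_le_mul_of_nonneg_left b3 (by positivity)

/-- the model -/
theorem model (t : ℕ → ℝ) : ∃ (Ω : Type) (_ : MeasurableSpace Ω) (P : Measure Ω) (A : ℕ → Set Ω),
    IsProbabilityMeasure P ∧ (∀ k, MeasurableSet (A k)) ∧ iIndepSet A P ∧ ∀ k, P.real (A k) = al t k := by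
  obtain ⟨Ω, i, P, A, h1, h2, h3⟩ := exists_indep (al t) (al_nonneg t) (al_le t)
  exact ⟨Ω, i, P, A, h2.isProbabilityMeasure, h1, h2, h3⟩

open Classical in
/-- the number of chosen primes up to `x` -/
noncomputable def Qc {Ω : Type*} (A : ℕ → Set Ω) (ω : Ω) (x : ℕ) : ℕ := ((Icc 1 x).filter (fun p => p.Prime ∧ ω ∈ A p)).card

variable {Ω : Type*} [MeasurableSpace Ω] {P : Measure Ω}

theorem as_slln [IsProbabilityMeasure P] (t : ℕ → ℝ) (h : Sl t) (A : ℕ → Set Ω) (hA : ∀ k, MeasurableSet (A k))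
    (hind : iIndepSet A P) (hP : ∀ k, P.real (A k) = al t k) :
    ∀ᵐ ω ∂P, Tendsto (fun n => S A n ω / ∑ i ∈ range n, al t i) atTop (𝓝 1) := by
  have e : mS P A = fun n => ∑ i ∈ range n, al t i := by
    funext n
    unfold mS
    exact sum_congr rfl fun i _ => hP i
  have h1 := slln (P := P) A hA (fun k l hkl => (Pool.Agent.T2H32.GB.pair_indep (P := P) A hA hind k l hkl.ne).le) (by
    rw [e]
    rw [tendsto_atTop_atTop]
    intro b
    have hlim := SL_lim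
    have h2 : Tendsto (fun x : ℕ => SL x / √(x : ℝ) * √(x : ℝ)) atTop atTop := by
      apply hlim.pos_mul_atTop (by norm_num)
      exact (Real.tendsto_sqrt_atTop).comp tendsto_natCast_atTop_atTop
    obtain ⟨n, hn1, hn2⟩ := (h2.eventually_ge_atTop b).and (eventually_ge_atTop 1) |>.exists
    have hs : 0 < √(n : ℝ) := Real.sqrt_pos.2 (by exact_mod_cast hn2)
    rw [div_mul_cancel₀ _ hs.ne'] at hn1
    refine ⟨n + 1, fun a ha => hn1.trans ?_⟩
    unfold SL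
    calc ∑ p ∈ Ioc 0 n, lp p ≤ ∑ p ∈ Ioc 0 n, al t p := sum_le_sum fun p _ => lp_le_al t h p
      _ ≤ ∑ p ∈ range a, al t p := by
          apply sum_le_sum_of_subset_of_nonneg
          · intro j hj
            rw [mem_Ioc] at hj
            rw [mem_range]
            omega
          · intro i _ _
            exact al_nonneg t i)
  simp only [e] at h1
  exact h1

theorem Qc_le_S [IsProbabilityMeasure P] (A : ℕ → Set Ω) (ω : Ω) (x : ℕ) : (Qc A ω x : ℝ) ≤ S A (x + 1) ω := by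
  classical
  unfold Qc S
  rw [card_filter]
  push_cast
  calc ∑ p ∈ Icc 1 x, (if p.Prime ∧ ω ∈ A p then (1 : ℝ) else 0) ≤
      ∑ p ∈ Icc 1 x, (A p).indicator (fun _ => (1 : ℝ)) ω := by
        apply sum_le_sum
        intro p _
        by_cases hp : ω ∈ A p
        · rw [Set.indicator_of_mem hp]
          split_ifs <;> norm_num
        · rw [Set.indicator_of_notMem hp, if_neg (fun h => hp h.2)]
    _ ≤ _ := by
        apply sum_le_sum_of_subset_of_nonneg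
        · intro j hj
          rw [mem_Icc] at hj
          rw [mem_range]
          omega
        · intro i _ _
          exact Set.indicator_nonneg (fun _ _ => zero_le_one) _

/-- the random set is thin -/
theorem as_thin [IsProbabilityMeasure P] (t : ℕ → ℝ) (h : Sl t) (A : ℕ → Set Ω) (hA : ∀ k, MeasurableSet (A k))
    (hind : iIndepSet A P) (hP : ∀ k, P.real (A k) = al t k) (C : ℝ)
    (hsum : ∀ x : ℕ, ∑ i ∈ range (x + 1), al t i ≤ C * √(t x) * √(x : ℝ)) :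
    ∀ᵐ ω ∂P, ∀ᶠ x : ℕ in atTop, (Qc A ω x : ℝ) ≤ 2 * C * √(t x) * √(x : ℝ) := by
  filter_upwards [as_slln (P := P) t h A hA hind hP] with ω hω
  have h1 := (hω.eventually_le_const (show (1 : ℝ) < 2 by norm_num))
  have h2 := (tendsto_add_atTop_nat 1).eventually h1
  filter_upwards [h2, eventually_ge_atTop 2] with x a1 a2
  have hpos : 0 < ∑ i ∈ range (x + 1), al t i := by
    have : al t 2 ≤ ∑ i ∈ range (x + 1), al t i :=
      single_le_sum (fun i _ => al_nonneg t i) (mem_range.2 (by omega))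
    have h3 : 0 < lp 2 := by
      unfold lp
      rw [if_pos Nat.prime_two]
      have : 0 < Real.log ((2 : ℕ) : ℝ) := Real.log_pos (by norm_num)
      positivity
    linarith [lp_le_al t h 2]
  rw [div_le_iff₀ hpos] at a1
  have a3 := Qc_le_S (P := P) A ω x
  have a4 := hsum x
  nlinarith

end Pool.Agent.T2H32.TG
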